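import Pool.Agent.T2H37.PR.Four

/-!
# Vanishing of the components that split in three blocks which meet two factors
-/

set_option autoImplicit false
set_option linter.unusedSectionVars false
set_option linter.unusedSimpArgs false

namespace Pool.Agent.T2H37.PR

open MvPolynomial Finset Pool.Agent.T2H37.FK

variable {𝕜 : Type*} [Field 𝕜] [IsAlgClosed 𝕜] [CharZero 𝕜]

variable {K : ℕ} {N : Fin K → ℕ} {m : ℕ} [NeZero m] {f : (∀ k, Fin (N k) → 𝕜) → 𝕜}

/-- two tuples with the same sums over the scalings of the blocks have the same components -/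
lemma compP_eq_of {ι : Type*} [Fintype ι] [DecidableEq ι] {α : ∀ k, Fin (N k) → ZMod m}
    {blk : ∀ k, Fin (N k) → ι} (hblk : ∀ κ : ι → ZMod m, prP α (fun k i => κ (blk k i)) = 0)
    {v v' : ∀ k, Fin (N k) → 𝕜}
    (h : ∀ g : ∀ k, Fin (N k) → ZMod m,
      ∑ κ : ι → ZMod m, f (dgP (fun k i => κ (blk k i)) (dgP g v)) =
        ∑ κ : ι → ZMod m, f (dgP (fun k i => κ (blk k i)) (dgP g v'))) :
    compP f α v = compP f α v' := by
  have h1 : ∀ w : ∀ k, Fin (N k) → 𝕜, (Fintype.card (ι → ZMod m) : 𝕜) * compP f α w =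
      ∑ g : ∀ k, Fin (N k) → ZMod m, e 𝕜 (-prP α g) *
        ∑ κ : ι → ZMod m, f (dgP (fun k i => κ (blk k i)) (dgP g w)) := by
    intro w
    have h2 : ∀ κ : ι → ZMod m, compP f α (dgP (fun k i => κ (blk k i)) w) = compP f α w := by
      intro κ
      rw [compP_dg, hblk, e_zero, one_mul]
    have h3 : (Fintype.card (ι → ZMod m) : 𝕜) * compP f α w =
        ∑ κ : ι → ZMod m, compP f α (dgP (fun k i => κ (blk k i)) w) := by
      simp only [h2, sum_const, card_univ, nsmul_eq_mul]
    rw [h3]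
    simp only [compP, mul_sum]
    rw [sum_comm]
    refine sum_congr rfl fun g _ => sum_congr rfl fun κ _ => ?_
    rw [dgP_comm]
  have h2 := h1 v
  simp only [h] at h2
  rw [← h1 v'] at h2
  refine mul_left_cancel₀ ?_ h2
  exact Nat.cast_ne_zero.2 Fintype.card_ne_zero

/-- the blocks: three blocks which meet the factors `k₁` and `k₂`, and the other factors -/
def blk3 (k₁ k₂ : Fin K) (b : ∀ k, Fin (N k) → Fin 3) : ∀ k, Fin (N k) → Option (Fin 3) :=
  fun k i => if k = k₁ ∨ k = k₂ then some (b k i) else none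

section

variable {α : ∀ k, Fin (N k) → ZMod m} {k₁ k₂ : Fin K} (hk : k₁ ≠ k₂)
  {b : ∀ k, Fin (N k) → Fin 3}

include hk in
lemma prP_blk3 (hα : ∀ k, ∑ i, α k i = 0)
    (hb : ∀ B, ∑ i with b k₁ i = B, α k₁ i + ∑ i with b k₂ i = B, α k₂ i = 0)
    (κ : Option (Fin 3) → ZMod m) : prP α (fun k i => κ (blk3 k₁ k₂ b k i)) = 0 := by
  have h1 : ∀ k, (k = k₁ ∨ k = k₂) → pr (α k) (fun i => κ (blk3 k₁ k₂ b k i)) =
      ∑ B, (∑ i with b k i = B, α k i) * κ (some B) := by
    intro k hkk
    rw [pr, ← sum_fiberwise univ (b k)]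
    refine sum_congr rfl fun B _ => ?_
    rw [sum_mul]
    refine sum_congr rfl fun i hi => ?_
    rw [blk3, if_pos hkk, (mem_filter.1 hi).2]
  rw [prP, sum_eq_add k₁ k₂ hk, h1 k₁ (Or.inl rfl), h1 k₂ (Or.inr rfl), ← sum_add_distrib]
  · refine sum_eq_zero fun B _ => ?_
    rw [← add_mul, hb, zero_mul]
  · intro k _ hkk
    rw [pr]
    have h2 : ∀ i, α k i * κ (blk3 k₁ k₂ b k i) = α k i * κ none := by
      intro i
      rw [blk3, if_neg (by rintro (h | h); exacts [hkk.1 h, hkk.2 h])]
    rw [sum_congr rfl fun i _ => h2 i, ← sum_mul, hα, zero_mul]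
  · intro h
    exact absurd (mem_univ _) h
  · intro h
    exact absurd (mem_univ _) h

include hk in
/-- moving to a tuple where the coordinates in a block vanish -/
lemma GoodP.three_line (hf : GoodP m f) (hα : ∀ k, ∑ i, α k i = 0)
    (hb : ∀ B, ∑ i with b k₁ i = B, α k₁ i + ∑ i with b k₂ i = B, α k₂ i = 0)
    (h₁ : ∀ B, ∃ i, b k₁ i = B) (h₂ : ∀ B, ∃ i, b k₂ i = B)
    {v : ∀ k, Fin (N k) → 𝕜} (hv : OnP m v) (hv₁ : ∀ i, v k₁ i ≠ 0) (hv₂ : ∀ i, v k₂ i ≠ 0)
    (hα₁ : ∀ i, α k₁ i ≠ 0) {B₀ : Fin 3} (U : Fin 3 → 𝕜) (hU0 : U B₀ = 0) (hU : U ≠ 0)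
    (hU₁ : ∑ i, U (b k₁ i) * v k₁ i ^ m = 0) (hU₂ : ∑ i, U (b k₂ i) * v k₂ i ^ m = 0) :
    compP f α v = 0 := by
  obtain ⟨B₁, hB₁⟩ : ∃ B, U B ≠ 0 := by
    by_contra hcon
    push Not at hcon
    exact hU (funext hcon)
  choose u hu using fun B => IsAlgClosed.exists_pow_nat_eq (U B) (NeZero.pos m)
  set w : ∀ k, Fin (N k) → 𝕜 := fun k i =>
    (if k = k₁ ∨ k = k₂ then u (b k i) else 1) * v k i with hw
  have hu0 : u B₀ = 0 := by
    have h1 := hu B₀
    rw [hU0] at h1
    exact (pow_eq_zero_iff (NeZero.ne m)).1 h1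
  have key : compP f α v = compP f α w := by
    refine compP_eq_of (prP_blk3 hk hα hb) fun g => ?_
    have h1 := hf.family (blk3 k₁ k₂ b)
      (fun B t => B.elim 1 fun B => (1 - t) + t * U B)
      (fun k i _ => e 𝕜 (g k i) * v k i)
      (by
        intro B
        rcases B with _ | B
        · change PF fun _ : 𝕜 => (C 1 : MvPolynomial (∀ k, Fin (N k)) 𝕜)
          exact PF.const _
        · simp only [Option.elim_some, map_add, map_sub, map_mul]
          exact ((PF.const _).sub PF.id).add (PF.id.mul (PF.const _)))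
      (fun k i => PF.const _)
      (by
        intro t k
        by_cases hkk : k = k₁ ∨ k = k₂
        · have h2 : ∑ i, U (b k i) * v k i ^ m = 0 := by
            rcases hkk with rfl | rfl
            · exact hU₁
            · exact hU₂
          have h3 : ∀ i, Option.elim (blk3 k₁ k₂ b k i) 1 (fun B => (1 - t) + t * U B) *
              (e 𝕜 (g k i) * v k i) ^ m = (1 - t) * v k i ^ m + t * (U (b k i) * v k i ^ m) := by
            intro i
            rw [blk3, if_pos hkk, Option.elim_some, mul_pow, e_pow_m, one_mul]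
            ring
          rw [sum_congr rfl fun i _ => h3 i, sum_add_distrib, ← mul_sum, ← mul_sum, h2, (hv k).2]
          ring
        · have h3 : ∀ i, Option.elim (blk3 k₁ k₂ b k i) 1 (fun B => (1 - t) + t * U B) *
              (e 𝕜 (g k i) * v k i) ^ m = v k i ^ m := by
            intro i
            rw [blk3, if_neg hkk, Option.elim_none, mul_pow, e_pow_m, one_mul, one_mul]
          rw [sum_congr rfl fun i _ => h3 i]
          exact (hv k).2)
      (by
        intro t k
        by_cases hkk : k = k₁ ∨ k = k₂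
        · have hvk : ∀ i, v k i ≠ 0 := by
            rcases hkk with rfl | rfl
            · exact hv₁
            · exact hv₂
          have hbk : ∀ B, ∃ i, b k i = B := by
            rcases hkk with rfl | rfl
            · exact h₁
            · exact h₂
          by_cases ht : 1 - t = 0
          · obtain ⟨i, hi⟩ := hbk B₁
            refine ⟨i, ?_, mul_ne_zero (e_ne_zero _) (hvk i)⟩
            rw [blk3, if_pos hkk, Option.elim_some, hi, ht, zero_add, ← sub_eq_zero.1 ht, one_mul]
            exact hB₁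
          · obtain ⟨i, hi⟩ := hbk B₀
            refine ⟨i, ?_, mul_ne_zero (e_ne_zero _) (hvk i)⟩
            rw [blk3, if_pos hkk, Option.elim_some, hi, hU0, mul_zero, add_zero]
            exact ht
        · obtain ⟨i, hi⟩ : ∃ i, v k i ≠ 0 := by
            by_contra hcon
            push Not at hcon
            exact (hv k).1 (funext hcon)
          refine ⟨i, ?_, mul_ne_zero (e_ne_zero _) hi⟩
          rw [blk3, if_neg hkk, Option.elim_none]
          exact one_ne_zero)
      (fun _ => 1) (fun B => B.elim 1 u)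
      (by
        intro B
        rcases B with _ | B
        · simp
        · simp)
      (by
        intro B
        rcases B with _ | B
        · simp
        · simp [hu])
    refine Eq.trans ?_ (h1.trans ?_)
    · refine sum_congr rfl fun κ _ => ?_
      congr 1
      funext k i
      simp only [dgP, dg, one_mul]
    · refine sum_congr rfl fun κ _ => ?_
      congr 1
      funext k i
      simp only [dgP, dg, hw, blk3]
      by_cases hkk : k = k₁ ∨ k = k₂
      · simp only [hkk, if_true, Option.elim_some]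
        ring
      · simp only [hkk, if_false, Option.elim_none]
        ring
  obtain ⟨i, hi⟩ := h₁ B₀
  rw [key]
  refine compP_coord_zero (hα₁ i) ?_
  rw [hw]
  simp only [true_or, if_true, hi, hu0, zero_mul]

include hk in
/-- moving to a tuple where one coordinate is multiplied by a root of unity -/
lemma GoodP.three_turn (hf : GoodP m f) (hα : ∀ k, ∑ i, α k i = 0)
    (hb : ∀ B, ∑ i with b k₁ i = B, α k₁ i + ∑ i with b k₂ i = B, α k₂ i = 0)
    (h₁ : ∀ B, ∃ i, b k₁ i = B) (h₂ : ∀ B, ∃ i, b k₂ i = B)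
    {v : ∀ k, Fin (N k) → 𝕜} (hv : OnP m v) (hv₁ : ∀ i, v k₁ i ≠ 0) (hv₂ : ∀ i, v k₂ i ≠ 0)
    (hα₁ : ∀ i, α k₁ i ≠ 0) {B₀ : Fin 3} (β : Fin 3 → 𝕜) (hβ0 : β B₀ = 0)
    (hβ₁ : ∑ i, β (b k₁ i) * v k₁ i ^ m = -1) (hβ₂ : ∑ i, β (b k₂ i) * v k₂ i ^ m = 0)
    (hq : ∑ i with b k₂ i = B₀, v k₂ i ^ m ≠ 0) :
    compP f α v = 0 := by
  obtain ⟨i₀, hi₀⟩ := h₁ B₀
  set ζ : 𝕜 := e 𝕜 (1 : ZMod m) with hζ
  have hζm : ζ ^ m = 1 := e_pow_m _
  refine compP_zero_of (h := Pi.single k₁ (Pi.single i₀ 1)) ?_ ?_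
  · have h1 := pr_single_add α 0 k₁ (Pi.single i₀ 1)
    rw [zero_add] at h1
    have h2 : prP α 0 = 0 := by simp [prP, pr]
    have h3 : pr (α k₁) (Pi.single i₀ 1) = α k₁ i₀ := by
      rw [pr, sum_eq_single i₀]
      · rw [Pi.single_eq_same, mul_one]
      · intro j _ hj
        rw [Pi.single_eq_of_ne hj, mul_zero]
      · intro h
        exact absurd (mem_univ _) h
    rw [h1, h2, zero_add, h3]
    exact hα₁ i₀
  symm
  refine compP_eq_of (prP_blk3 hk hα hb) fun g => ?_
  -- the factor of the coordinate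
  set c : ∀ k, Fin (N k) → 𝕜 → 𝕜 := fun k i t =>
    if k = k₁ ∧ (i : ℕ) = i₀ then 1 + t * (ζ - 1) else 1 with hc
  set y : 𝕜 → 𝕜 := fun t => (v k₁ i₀ * (1 + t * (ζ - 1))) ^ m - v k₁ i₀ ^ m with hy
  have hck : ∀ k, k ≠ k₁ → ∀ i t, c k i t = 1 := by
    intro k hk' i t
    simp only [hc]
    rw [if_neg]
    exact fun h => hk' h.1
  have hci : ∀ i, i ≠ i₀ → ∀ t, c k₁ i t = 1 := by
    intro i hi t
    simp only [hc]
    rw [if_neg]
    exact fun h => hi (Fin.ext h.2)
  have hc0 : ∀ t, c k₁ i₀ t = 1 + t * (ζ - 1) := by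
    intro t
    simp only [hc, and_self, if_true]
  have h1 := hf.family (blk3 k₁ k₂ b)
    (fun B t => B.elim 1 fun B => 1 + β B * y t)
    (fun k i t => e 𝕜 (g k i) * (v k i * c k i t))
    (by
      intro B
      rcases B with _ | B
      · change PF fun _ : 𝕜 => (C 1 : MvPolynomial (∀ k, Fin (N k)) 𝕜)
        exact PF.const _
      · simp only [Option.elim_some, map_add, map_sub, map_mul, map_pow, map_one, hy]
        exact (PF.const _).add ((PF.const _).mul ((((PF.const _).mul
          ((PF.const _).add (PF.id.mul (PF.const _)))).pow m).sub (PF.const _))))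
    (by
      intro k i
      by_cases h : k = k₁ ∧ (i : ℕ) = i₀
      · simp only [hc, h, and_self, if_true, map_add, map_mul, map_sub, map_one]
        exact (PF.const _).mul ((PF.const _).mul ((PF.const _).add (PF.id.mul (PF.const _))))
      · simp only [hc, h, if_false]
        exact PF.const _)
    (by
      intro t k
      by_cases hk₁ : k = k₁
      · subst hk₁
        have h3 : ∀ i, Option.elim (blk3 k k₂ b k i) 1 (fun B => 1 + β B * y t) *
            (e 𝕜 (g k i) * (v k i * c k i t)) ^ m =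
            v k i ^ m + y t * (β (b k i) * v k i ^ m) + if i = i₀ then y t else 0 := by
          intro i
          rw [blk3, if_pos (Or.inl rfl), Option.elim_some, mul_pow, e_pow_m, one_mul]
          by_cases hi : i = i₀
          · subst hi
            rw [if_pos rfl, hc0, hi₀, hβ0, zero_mul, zero_mul, add_zero, one_mul, mul_zero,
              add_zero]
            simp only [hy]
            ring
          · rw [if_neg hi, hci i hi, mul_one]
            ring
        rw [sum_congr rfl fun i _ => h3 i, sum_add_distrib, sum_add_distrib, ← mul_sum, hβ₁,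
          sum_ite_eq' univ i₀, if_pos (mem_univ _), (hv k).2]
        ring
      · by_cases hk₂ : k = k₂
        · subst hk₂
          have h3 : ∀ i, Option.elim (blk3 k₁ k b k i) 1 (fun B => 1 + β B * y t) *
              (e 𝕜 (g k i) * (v k i * c k i t)) ^ m =
              v k i ^ m + y t * (β (b k i) * v k i ^ m) := by
            intro i
            rw [blk3, if_pos (Or.inr rfl), Option.elim_some, mul_pow, e_pow_m, one_mul,
              hck k hk₁, mul_one]
            ring
          rw [sum_congr rfl fun i _ => h3 i, sum_add_distrib, ← mul_sum, hβ₂, (hv k).2]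
          ring
        · have h3 : ∀ i, Option.elim (blk3 k₁ k₂ b k i) 1 (fun B => 1 + β B * y t) *
              (e 𝕜 (g k i) * (v k i * c k i t)) ^ m = v k i ^ m := by
            intro i
            rw [blk3, if_neg (by rintro (h | h); exacts [hk₁ h, hk₂ h]), Option.elim_none, mul_pow,
              e_pow_m, one_mul, hck k hk₁, mul_one, one_mul]
          rw [sum_congr rfl fun i _ => h3 i]
          exact (hv k).2)
    (by
      intro t k
      by_cases hk₁ : k = k₁
      · subst hk₁
        by_cases ht : 1 + t * (ζ - 1) = 0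
        · -- some other block does not vanish
          obtain ⟨B, hB, hB'⟩ : ∃ B, B ≠ B₀ ∧ 1 + β B * y t ≠ 0 := by
            by_contra hcon
            push Not at hcon
            apply hq
            have h2 : ∑ i, (1 + β (b k₂ i) * y t) * v k₂ i ^ m = 0 := by
              have h3 : ∀ i, (1 + β (b k₂ i) * y t) * v k₂ i ^ m =
                  v k₂ i ^ m + y t * (β (b k₂ i) * v k₂ i ^ m) := by
                intro i
                ring
              rw [sum_congr rfl fun i _ => h3 i, sum_add_distrib, ← mul_sum, hβ₂, (hv k₂).2]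
              ring
            rw [← h2, sum_filter]
            refine sum_congr rfl fun i _ => ?_
            by_cases hi : b k₂ i = B₀
            · rw [if_pos hi, hi, hβ0, zero_mul, add_zero, one_mul]
            · rw [if_neg hi, hcon _ hi, zero_mul]
          obtain ⟨i, hi⟩ := h₁ B
          have hii : i ≠ i₀ := by
            rintro rfl
            exact hB (hi.symm.trans hi₀)
          refine ⟨i, ?_, mul_ne_zero (e_ne_zero _) ?_⟩
          · rw [blk3, if_pos (Or.inl rfl), Option.elim_some, hi]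
            exact hB'
          · rw [hci i hii, mul_one]
            exact hv₁ i
        · refine ⟨i₀, ?_, mul_ne_zero (e_ne_zero _) ?_⟩
          · rw [blk3, if_pos (Or.inl rfl), Option.elim_some, hi₀, hβ0, zero_mul, add_zero]
            exact one_ne_zero
          · rw [hc0]
            exact mul_ne_zero (hv₁ i₀) ht
      · by_cases hk₂ : k = k₂
        · subst hk₂
          obtain ⟨i, hi⟩ := h₂ B₀
          refine ⟨i, ?_, mul_ne_zero (e_ne_zero _) ?_⟩
          · rw [blk3, if_pos (Or.inr rfl), Option.elim_some, hi, hβ0, zero_mul, add_zero]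
            exact one_ne_zero
          · rw [hck k hk₁, mul_one]
            exact hv₂ i
        · obtain ⟨i, hi⟩ : ∃ i, v k i ≠ 0 := by
            by_contra hcon
            push Not at hcon
            exact (hv k).1 (funext hcon)
          refine ⟨i, ?_, mul_ne_zero (e_ne_zero _) ?_⟩
          · rw [blk3, if_neg (by rintro (h | h); exacts [hk₁ h, hk₂ h]), Option.elim_none]
            exact one_ne_zero
          · rw [hck k hk₁, mul_one]
            exact hi)
    (fun _ => 1) (fun _ => 1)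
    (by
      intro B
      rcases B with _ | B
      · simp
      · simp [hy])
    (by
      intro B
      have h2 : y 1 = 0 := by
        have h3 : v k₁ i₀ * (1 + 1 * (ζ - 1)) = v k₁ i₀ * ζ := by ring
        simp only [hy]
        rw [h3, mul_pow, hζm, mul_one, sub_self]
      rcases B with _ | B
      · simp
      · simp [h2])
  refine Eq.trans ?_ (h1.trans ?_)
  · refine sum_congr rfl fun κ _ => ?_
    congr 1
    funext k i
    have h2 : c k i 0 = 1 := by
      simp only [hc, zero_mul, add_zero, ite_self]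
    simp only [dgP, dg, one_mul, h2, mul_one]
  · refine sum_congr rfl fun κ _ => ?_
    congr 1
    funext k i
    simp only [dgP, dg, one_mul]
    by_cases hk₁ : k = k₁
    · subst hk₁
      rw [Pi.single_eq_same]
      by_cases hi : i = i₀
      · subst hi
        rw [Pi.single_eq_same, hc0]
        have h2 : (1 : 𝕜) + 1 * (ζ - 1) = e 𝕜 (1 : ZMod m) := by
          rw [hζ]
          ring
        rw [h2]
        ring
      · rw [Pi.single_eq_of_ne hi, hci i hi, e_zero]
        ring
    · rw [hck k hk₁, Pi.single_eq_of_ne hk₁, Pi.zero_apply, e_zero]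
      ring

lemma exists_beta (p q : Fin 3 → 𝕜) (hp : ∑ B, p B = 0) (hq : ∑ B, q B = 0)
    (hD : p 0 * q 1 - p 1 * q 0 ≠ 0) (B₀ : Fin 3) :
    ∃ β : Fin 3 → 𝕜, β B₀ = 0 ∧ ∑ B, β B * p B = -1 ∧ ∑ B, β B * q B = 0 := by
  set D := p 0 * q 1 - p 1 * q 0 with hDd
  rw [Fin.sum_univ_three] at hp hq
  have hp2 : p 2 = -p 0 - p 1 := by linear_combination hp
  have hq2 : q 2 = -q 0 - q 1 := by linear_combination hq
  fin_cases B₀
  · refine ⟨![0, -q 2 / D, q 1 / D], rfl, ?_, ?_⟩
    · simp only [Fin.sum_univ_three, Matrix.cons_val]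
      rw [hp2, hq2]
      field_simp
      rw [hDd]
      ring
    · simp only [Fin.sum_univ_three, Matrix.cons_val]
      ring
  · refine ⟨![q 2 / D, 0, -q 0 / D], rfl, ?_, ?_⟩
    · simp only [Fin.sum_univ_three, Matrix.cons_val]
      rw [hp2, hq2]
      field_simp
      rw [hDd]
      ring
    · simp only [Fin.sum_univ_three, Matrix.cons_val]
      ring
  · refine ⟨![-q 1 / D, q 0 / D, 0], rfl, ?_, ?_⟩
    · simp only [Fin.sum_univ_three, Matrix.cons_val]
      field_simp
      rw [hDd]
      ring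
    · simp only [Fin.sum_univ_three, Matrix.cons_val]
      ring

lemma exists_rel (p q : Fin 3 → 𝕜) (hp : ∑ B, p B = 0) (hq : ∑ B, q B = 0)
    (hD : p 0 * q 1 - p 1 * q 0 = 0) :
    ∃ U : Fin 3 → 𝕜, U 0 = 0 ∧ U ≠ 0 ∧ ∑ B, U B * p B = 0 ∧ ∑ B, U B * q B = 0 := by
  rw [Fin.sum_univ_three] at hp hq
  have hp0 : p 0 = -p 1 - p 2 := by linear_combination hp
  have hq0 : q 0 = -q 1 - q 2 := by linear_combination hq
  rw [hp0, hq0] at hD
  have hD' : p 1 * q 2 = p 2 * q 1 := by linear_combination hD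
  simp only [Fin.sum_univ_three]
  by_cases h1 : p 1 = 0 ∧ p 2 = 0
  · by_cases h2 : q 1 = 0 ∧ q 2 = 0
    · refine ⟨![0, 1, 1], rfl, ?_, ?_, ?_⟩
      · intro h
        exact one_ne_zero (congrFun h 1)
      · simp [h1.1, h1.2]
      · simp [h2.1, h2.2]
    · refine ⟨![0, -q 2, q 1], rfl, ?_, ?_, ?_⟩
      · intro h
        apply h2
        have h3 : -q 2 = 0 := congrFun h 1
        have h4 : q 1 = 0 := congrFun h 2
        exact ⟨h4, neg_eq_zero.1 h3⟩
      · simp [h1.1, h1.2]
      · simp only [Matrix.cons_val]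
        ring
  · refine ⟨![0, -p 2, p 1], rfl, ?_, ?_, ?_⟩
    · intro h
      apply h1
      have h3 : -p 2 = 0 := congrFun h 1
      have h4 : p 1 = 0 := congrFun h 2
      exact ⟨h4, neg_eq_zero.1 h3⟩
    · simp only [Matrix.cons_val]
      ring
    · simp only [Matrix.cons_val]
      linear_combination hD'

include hk in
/-- the components of characters with three blocks which meet two factors vanish -/
theorem GoodP.comp_three (hf : GoodP m f) (hα : ∀ k, ∑ i, α k i = 0)
    (hb : ∀ B, ∑ i with b k₁ i = B, α k₁ i + ∑ i with b k₂ i = B, α k₂ i = 0)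
    (h₁ : ∀ B, ∃ i, b k₁ i = B) (h₂ : ∀ B, ∃ i, b k₂ i = B)
    (hα₁ : ∀ i, α k₁ i ≠ 0) (hα₂ : ∀ i, α k₂ i ≠ 0)
    {v : ∀ k, Fin (N k) → 𝕜} (hv : OnP m v) : compP f α v = 0 := by
  by_cases hv₁ : ∀ i, v k₁ i ≠ 0
  swap
  · push Not at hv₁
    obtain ⟨i, hi⟩ := hv₁
    exact compP_coord_zero (hα₁ i) hi
  by_cases hv₂ : ∀ i, v k₂ i ≠ 0
  swap
  · push Not at hv₂
    obtain ⟨i, hi⟩ := hv₂
    exact compP_coord_zero (hα₂ i) hi
  have hsum : ∀ (k : Fin K) (γ : Fin 3 → 𝕜), ∑ B, γ B * ∑ i with b k i = B, v k i ^ m =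
      ∑ i, γ (b k i) * v k i ^ m := by
    intro k γ
    rw [← sum_fiberwise univ (b k)]
    refine sum_congr rfl fun B _ => ?_
    rw [mul_sum]
    refine sum_congr rfl fun i hi => ?_
    rw [(mem_filter.1 hi).2]
  have hsum1 : ∀ k : Fin K, ∑ B, ∑ i with b k i = B, v k i ^ m = 0 := by
    intro k
    have h1 := hsum k fun _ => 1
    simp only [one_mul] at h1
    rw [h1]
    exact (hv k).2
  by_cases hD : (∑ i with b k₁ i = 0, v k₁ i ^ m) * (∑ i with b k₂ i = 1, v k₂ i ^ m) -
      (∑ i with b k₁ i = 1, v k₁ i ^ m) * (∑ i with b k₂ i = 0, v k₂ i ^ m) = 0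
  · obtain ⟨U, h3, h4, h5, h6⟩ := exists_rel (fun B => ∑ i with b k₁ i = B, v k₁ i ^ m)
      (fun B => ∑ i with b k₂ i = B, v k₂ i ^ m) (hsum1 k₁) (hsum1 k₂) hD
    rw [hsum] at h5 h6
    exact hf.three_line hk hα hb h₁ h₂ hv hv₁ hv₂ hα₁ U h3 h4 h5 h6
  · obtain ⟨B₀, hB₀⟩ : ∃ B₀, ∑ i with b k₂ i = B₀, v k₂ i ^ m ≠ 0 := by
      by_contra hcon
      push Not at hcon
      apply hD
      rw [hcon, hcon]
      ring
    obtain ⟨β, h3, h4, h5⟩ := exists_beta (fun B => ∑ i with b k₁ i = B, v k₁ i ^ m)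
      (fun B => ∑ i with b k₂ i = B, v k₂ i ^ m) (hsum1 k₁) (hsum1 k₂) hD B₀
    rw [hsum] at h4 h5
    exact hf.three_turn hk hα hb h₁ h₂ hv hv₁ hv₂ hα₁ β h3 h4 h5 hB₀

end

end Pool.Agent.T2H37.PR
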