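import Pool.Agent.T2H37.PR.Exch
import Pool.Agent.T2H37.PR.Mix

/-!
# Exchange of two factors
-/

set_option autoImplicit false
set_option linter.unusedSectionVars false
set_option linter.unusedSimpArgs false

namespace Pool.Agent.T2H37.PR

open MvPolynomial Finset Pool.Agent.T2H37.FK

variable {𝕜 : Type*} [Field 𝕜] [IsAlgClosed 𝕜] [CharZero 𝕜]

variable {K : ℕ} {N : Fin K → ℕ} {m : ℕ} [NeZero m] {f : (∀ k, Fin (N k) → 𝕜) → 𝕜}

/-! ### The components are good -/

/-- the homomorphism that belongs to a diagonal matrix -/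
noncomputable def dgHom (g : ∀ k, Fin (N k) → ZMod m) :
    MvPolynomial (∀ k, Fin (N k)) 𝕜 →ₐ[𝕜] MvPolynomial (∀ k, Fin (N k)) 𝕜 :=
  aeval fun l => C (∏ k, e 𝕜 (g k (l k))) * X l

lemma dgHom_segre (g : ∀ k, Fin (N k) → ZMod m) (v : ∀ k, Fin (N k) → 𝕜) :
    dgHom g (segre v) = segre (dgP g v) := by
  rw [segre, map_sum, segre]
  refine sum_congr rfl fun l _ => ?_
  rw [map_mul, dgHom, aeval_X, algHom_C, algebraMap_eq, ← mul_assoc, ← C_mul, ← prod_mul_distrib]
  congr 2
  refine prod_congr rfl fun k _ => ?_
  rw [dgP, dg, mul_comm]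

lemma dgP_update (g : ∀ k, Fin (N k) → ZMod m) (v : ∀ k, Fin (N k) → 𝕜) (k : Fin K)
    (x : Fin (N k) → 𝕜) :
    dgP g (Function.update v k x) = Function.update (dgP g v) k (dg (g k) x) := by
  funext k'
  by_cases hk : k' = k
  · subst hk
    rw [Function.update_self, dgP, Function.update_self]
  · rw [Function.update_of_ne hk, dgP, Function.update_of_ne hk, dgP]

lemma dg_smul' {n : ℕ} (g : Fin n → ZMod m) (c : 𝕜) (x : Fin n → 𝕜) :
    dg g (c • x) = c • dg g x := by
  funext i
  change e 𝕜 (g i) * (c * x i) = c * (e 𝕜 (g i) * x i)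
  ring

lemma GoodP.dgP (hf : GoodP m f) (g : ∀ k, Fin (N k) → ZMod m) : GoodP m fun v => f (dgP g v) := by
  constructor
  · intro k c v hc hv
    rw [dgP_update, dg_smul']
    exact hf.smul k c (PR.dgP g v) hc (onP_dg g hv)
  · intro d F hF hdec s s' hs hs'
    have hrep : ∀ (t : 𝕜) (s : Multiset (∀ k, Fin (N k) → 𝕜)), RepP m d (F t) s →
        RepP m d (dgHom g (F t)) (s.map fun v => PR.dgP g v) := by
      intro t s hs
      obtain ⟨h1, h2, c, hc, h3⟩ := hs
      refine ⟨by rw [Multiset.card_map, h1], ?_, c, hc, ?_⟩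
      · intro w hw
        rw [Multiset.mem_map] at hw
        obtain ⟨w', hw', rfl⟩ := hw
        exact onP_dg g (h2 w' hw')
      · rw [h3, map_mul, algHom_C, algebraMap_eq, map_multiset_prod, Multiset.map_map,
          Multiset.map_map]
        congr 3
        funext w
        exact dgHom_segre g w
    have h1 := hf.fam d (fun t => dgHom g (F t)) (hF.map (dgHom g))
      (fun t => by
        obtain ⟨s, hs⟩ := hdec t
        exact ⟨_, hrep t s hs⟩) _ _ (hrep 0 s hs) (hrep 1 s' hs')
    rw [Multiset.map_map, Multiset.map_map] at h1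
    exact h1

lemma GoodP.sum {ι : Type*} (t : Finset ι) (c : ι → 𝕜) (F : ι → (∀ k, Fin (N k) → 𝕜) → 𝕜)
    (hF : ∀ i ∈ t, GoodP m (F i)) : GoodP m fun v => ∑ i ∈ t, c i * F i v := by
  constructor
  · intro k a v ha hv
    exact sum_congr rfl fun i hi => by rw [(hF i hi).smul k a v ha hv]
  · intro d G hG hdec s s' hs hs'
    have h1 : ∀ s : Multiset (∀ k, Fin (N k) → 𝕜), (s.map fun v => ∑ i ∈ t, c i * F i v).sum =
        ∑ i ∈ t, c i * (s.map (F i)).sum := by
      intro s
      induction s using Multiset.induction_on with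
      | empty => simp
      | cons a s ih =>
        simp only [Multiset.map_cons, Multiset.sum_cons]
        rw [ih, ← sum_add_distrib]
        refine sum_congr rfl fun i _ => ?_
        ring
    rw [h1, h1]
    exact sum_congr rfl fun i hi => by rw [(hF i hi).fam d G hG hdec s s' hs hs']

lemma GoodP.compP (hf : GoodP m f) (α : ∀ k, Fin (N k) → ZMod m) : GoodP m (compP f α) :=
  GoodP.sum univ (fun g => e 𝕜 (-prP α g)) (fun g v => f (PR.dgP g v)) fun g _ => hf.dgP g

/-! ### Exchange of two factors -/

lemma Good2.exch' : ∀ (n : ℕ) (_ : 2 ≤ n) (F : (Fin n → 𝕜) → (Fin n → 𝕜) → 𝕜), Good2 m F →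
    ∀ β : Fin n → ZMod m, (∀ i, β i ≠ 0) → Eig2 β β F →
      ∀ x y, OnX m x → OnX m y → F y x = (-1) ^ n * F x y := by
  intro n hn
  obtain ⟨M, rfl⟩ : ∃ M, n = M + 2 := ⟨n - 2, by omega⟩
  intro F hF β hβ hE x y hx hy
  rw [Good2.exch M F hF β hβ hE x y hx hy, pow_add]
  norm_num

/-- the coordinates in another order -/
def relab {n n' : ℕ} (b : Fin n ≃ Fin n') : (Fin n → 𝕜) →ₗ[𝕜] (Fin n' → 𝕜) where
  toFun x := fun j => x (b.symm j)
  map_add' _ _ := rfl
  map_smul' _ _ := rfl

lemma onX_relab {n n' : ℕ} (b : Fin n' ≃ Fin n) {x : Fin n → 𝕜} (hx : OnX m x) :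
    OnX m fun j => x (b j) := by
  constructor
  · intro h
    apply hx.1
    funext i
    have h1 := congrFun h (b.symm i)
    simpa using h1
  · rw [Equiv.sum_comp b fun i => x i ^ m]
    exact hx.2

lemma pr_relab {n n' : ℕ} (b : Fin n ≃ Fin n') {β : Fin n → ZMod m} {β' : Fin n' → ZMod m}
    (hb : ∀ i, β' (b i) = β i) (g : Fin n → ZMod m) : pr β' (fun j => g (b.symm j)) = pr β g := by
  rw [pr, pr, ← Equiv.sum_comp b]
  refine sum_congr rfl fun i _ => ?_
  rw [hb, Equiv.symm_apply_apply]

/-- exchange of two factors with the same character -/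
theorem GoodP.exch_block (hf : GoodP m f) {α : ∀ k, Fin (N k) → ZMod m} {k₁ k₂ : Fin K}
    (hk : k₁ ≠ k₂) (hN : 2 ≤ N k₁) (b : Fin (N k₁) ≃ Fin (N k₂)) (hb : ∀ i, α k₂ (b i) = α k₁ i)
    (hα : ∀ i, α k₁ i ≠ 0) {v : ∀ k, Fin (N k) → 𝕜} (hv : OnP m v) :
    PR.compP f α (Function.update (Function.update v k₁ fun i => v k₂ (b i)) k₂
      fun j => v k₁ (b.symm j)) = (-1) ^ N k₁ * PR.compP f α v := by
  have hG : Good2 m fun x y => PR.compP f α (Function.update (Function.update v k₁ x) k₂
      (relab b y)) :=
    ((hf.compP α).slice2 hv hk).pull LinearMap.id (relab b) (fun x hx => hx)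
      (fun x hx => onX_relab b.symm hx)
  have hE : Eig2 (α k₁) (α k₁) fun x y => PR.compP f α (Function.update (Function.update v k₁ x) k₂
      (relab b y)) := by
    intro g h x y
    change PR.compP f α (Function.update (Function.update v k₁ (dg g x)) k₂ (relab b (dg h y))) =
      e 𝕜 (pr (α k₁) g + pr (α k₁) h) * PR.compP f α (Function.update (Function.update v k₁ x) k₂
      (relab b y))
    set G : ∀ k, Fin (N k) → ZMod m := Pi.single k₁ g + Pi.single k₂ fun j => h (b.symm j) with hG
    have h1 : Function.update (Function.update v k₁ (dg g x)) k₂ (relab b (dg h y)) =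
        PR.dgP G (Function.update (Function.update v k₁ x) k₂ (relab b y)) := by
      funext k
      by_cases h2 : k = k₂
      · subst h2
        rw [Function.update_self, PR.dgP, Function.update_self, hG, Pi.add_apply,
          Pi.single_eq_of_ne hk.symm, zero_add, Pi.single_eq_same]
        rfl
      · rw [Function.update_of_ne h2, PR.dgP, Function.update_of_ne h2, hG, Pi.add_apply,
          Pi.single_eq_of_ne h2, add_zero]
        by_cases h3 : k = k₁
        · subst h3
          rw [Function.update_self, Function.update_self, Pi.single_eq_same]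
        · rw [Function.update_of_ne h3, Function.update_of_ne h3, Pi.single_eq_of_ne h3, dg_zero']
    have h2 : prP α G = pr (α k₁) g + pr (α k₁) h := by
      have h3 := pr_single_add α (Pi.single k₁ g) k₂ fun j => h (b.symm j)
      have h4 := pr_single_add α 0 k₁ g
      rw [zero_add] at h4
      have h5 : prP α 0 = 0 := by simp [prP, pr]
      rw [hG, h3, h4, h5, zero_add, pr_relab b hb]
    rw [h1, compP_dg, h2]
  have h1 := Good2.exch' (N k₁) hN _ hG (α k₁) hα hE (v k₁) (fun i => v k₂ (b i)) (hv k₁)
    (onX_relab b (hv k₂))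
  have h2 : (relab b fun i => v k₂ (b i)) = v k₂ := by
    funext j
    change v k₂ (b (b.symm j)) = v k₂ j
    rw [Equiv.apply_symm_apply]
  have h3 : Function.update (Function.update v k₁ (v k₁)) k₂ (relab b fun i => v k₂ (b i)) = v := by
    rw [h2, Function.update_eq_self, Function.update_eq_self]
  change PR.compP f α (Function.update (Function.update v k₁ fun i => v k₂ (b i)) k₂
    (relab b (v k₁))) = (-1) ^ N k₁ * PR.compP f α (Function.update (Function.update v k₁ (v k₁)) k₂
    (relab b fun i => v k₂ (b i))) at h1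
  rw [h3] at h1
  exact h1

/-- the components depend only on the factors where the character is not trivial -/
lemma GoodP.comp_congr (hf : GoodP m f) (hN : ∀ k, 2 ≤ N k) {α : ∀ k, Fin (N k) → ZMod m}
    {v w : ∀ k, Fin (N k) → 𝕜} (hv : OnP m v) (hw : OnP m w) (h : ∀ k, α k ≠ 0 → v k = w k) :
    PR.compP f α v = PR.compP f α w := by
  have h1 : ∀ s : Finset (Fin K), PR.compP f α (fun k => if k ∈ s then w k else v k) =
      PR.compP f α v := by
    intro s
    induction s using Finset.induction_on with
    | empty => simp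
    | insert a s ha ih =>
      rw [← ih]
      have h2 : (fun k => if k ∈ insert a s then w k else v k) =
          Function.update (fun k => if k ∈ s then w k else v k) a (w a) := by
        funext k
        by_cases hk : k = a
        · subst hk
          rw [Function.update_self, if_pos (mem_insert_self _ _)]
        · rw [Function.update_of_ne hk]
          simp [hk]
      have hon : OnP m fun k => if k ∈ s then w k else v k := by
        intro k
        by_cases hk : k ∈ s
        · simp only [hk, if_true]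
          exact hw k
        · simp only [hk, if_false]
          exact hv k
      rw [h2]
      by_cases ha0 : α a = 0
      · exact hf.comp_update (hN a) ha0 hon (hw a)
      · congr 1
        conv_rhs => rw [← Function.update_eq_self a fun k => if k ∈ s then w k else v k]
        rw [if_neg ha, h a ha0]
  rw [← h1 univ]
  congr 1
  funext k
  rw [if_pos (mem_univ _)]

end Pool.Agent.T2H37.PR
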