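import Mathlib

/-!
# Splitting two characters of different weight-one conjugates in three blocks
-/

set_option autoImplicit false
set_option linter.unusedSectionVars false

namespace Pool.Agent.T2H37.PR

open Finset

/-- Positive integers with sum less than twice their number attain all sums. -/
lemma subset_sum {ι : Type*} [DecidableEq ι] (a : ι → ℕ) : ∀ (n : ℕ) (S : Finset ι), S.card = n →
    (∀ i ∈ S, 1 ≤ a i) → ∑ i ∈ S, a i ≤ 2 * n - 1 → ∀ s ≤ ∑ i ∈ S, a i,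
      ∃ A ⊆ S, ∑ i ∈ A, a i = s := by
  intro n
  induction n with
  | zero =>
    intro S hS _ h s hs
    refine ⟨∅, empty_subset _, ?_⟩
    rw [card_eq_zero] at hS
    rw [hS, sum_empty] at hs
    rw [sum_empty]
    omega
  | succ n ih =>
    intro S hS ha h s hs
    have hne : S.Nonempty := by
      rw [← card_pos]
      omega
    obtain ⟨i, hi, hmax⟩ := exists_max_image S a hne
    by_cases hc : a i = 1
    · have hall : ∀ j ∈ S, a j = 1 := by
        intro j hj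
        have h1 := ha j hj
        have h2 := hmax j hj
        omega
      have hsum : ∀ T ⊆ S, ∑ j ∈ T, a j = T.card := by
        intro T hT
        rw [sum_congr rfl fun j hj => hall j (hT hj), sum_const, smul_eq_mul, mul_one]
      rw [hsum S (Subset.refl S)] at hs
      obtain ⟨T, hT, hTc⟩ := exists_subset_card_eq hs
      exact ⟨T, hT, by rw [hsum T hT, hTc]⟩
    · have h1 := ha i hi
      have hcard : (S.erase i).card = n := by
        rw [card_erase_of_mem hi, hS]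
        rfl
      have hsum : ∑ j ∈ S.erase i, a j + a i = ∑ j ∈ S, a j := sum_erase_add S a hi
      have hlow : n ≤ ∑ j ∈ S.erase i, a j := by
        rw [← hcard, card_eq_sum_ones]
        exact sum_le_sum fun j hj => ha j (mem_of_mem_erase hj)
      have ih' := ih (S.erase i) hcard (fun j hj => ha j (mem_of_mem_erase hj)) (by omega)
      by_cases hs' : s ≤ ∑ j ∈ S.erase i, a j
      · obtain ⟨A, hA, hAs⟩ := ih' s hs'
        exact ⟨A, hA.trans (erase_subset _ _), hAs⟩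
      · obtain ⟨A, hA, hAs⟩ := ih' (s - a i) (by omega)
        have hiA : i ∉ A := fun h => (mem_erase.1 (hA h)).1 rfl
        refine ⟨insert i A, ?_, ?_⟩
        · intro j hj
          rcases mem_insert.1 hj with rfl | hj
          · exact hi
          · exact mem_of_mem_erase (hA hj)
        · rw [sum_insert hiA, hAs]
          omega

variable {m : ℕ}

lemma one_side (hm : 3 ≤ m) {n : ℕ} {α : Fin n → ZMod m} (hα : ∀ i, α i ≠ 0) (t : (ZMod m)ˣ)
    (hw : ∑ i, ((t : ZMod m) * α i).val = m) (hn : m + 3 ≤ 2 * n) {x : ℕ} (hx1 : 1 ≤ x)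
    (hx2 : x + 2 ≤ m) :
    ∃ (i₀ : Fin n) (A : Finset (Fin n)), i₀ ∉ A ∧ α i₀ = ((t⁻¹ : (ZMod m)ˣ) : ZMod m) ∧
      ∑ i ∈ A, α i = ((t⁻¹ : (ZMod m)ˣ) : ZMod m) * (x : ZMod m) ∧ A.Nonempty ∧
      ∃ j, j ≠ i₀ ∧ j ∉ A := by
  have : NeZero m := ⟨by omega⟩
  set a : Fin n → ℕ := fun i => ((t : ZMod m) * α i).val with ha
  have hpos : ∀ i, 1 ≤ a i := by
    intro i
    rw [Nat.one_le_iff_ne_zero, ha, Ne, ZMod.val_eq_zero]
    intro h
    apply hα i
    have := congrArg (fun y => ((t⁻¹ : (ZMod m)ˣ) : ZMod m) * y) h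
    simpa using this
  have hcast : ∀ i, α i = ((t⁻¹ : (ZMod m)ˣ) : ZMod m) * (a i : ZMod m) := by
    intro i
    rw [ha]
    simp only
    rw [ZMod.natCast_zmod_val, ← mul_assoc, Units.inv_mul, one_mul]
  obtain ⟨i₀, hi₀⟩ : ∃ i, a i = 1 := by
    by_contra hcon
    push Not at hcon
    have h1 : ∑ _i : Fin n, 2 ≤ ∑ i, a i := by
      refine sum_le_sum fun i _ => ?_
      have h2 := hpos i
      have h3 := hcon i
      omega
    rw [sum_const, card_univ, Fintype.card_fin, smul_eq_mul] at h1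
    have h2 : ∑ i, a i = m := hw
    omega
  have hcard : (univ.erase i₀ : Finset (Fin n)).card = n - 1 := by
    rw [card_erase_of_mem (mem_univ _), card_univ, Fintype.card_fin]
  have hsum : ∑ j ∈ univ.erase i₀, a j + a i₀ = m := by
    rw [sum_erase_add _ _ (mem_univ _)]
    exact hw
  obtain ⟨A, hA, hAs⟩ := subset_sum a (n - 1) (univ.erase i₀) hcard (fun i _ => hpos i) (by omega) x
    (by omega)
  refine ⟨i₀, A, fun h => (mem_erase.1 (hA h)).1 rfl, ?_, ?_, ?_, ?_⟩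
  · rw [hcast, hi₀, Nat.cast_one, mul_one]
  · rw [sum_congr rfl fun i _ => hcast i, ← mul_sum, ← Nat.cast_sum, hAs]
  · rw [nonempty_iff_ne_empty]
    rintro rfl
    rw [sum_empty] at hAs
    omega
  · by_contra hcon
    push Not at hcon
    have h1 : A = univ.erase i₀ := by
      refine Subset.antisymm hA fun j hj => ?_
      exact hcon j (mem_erase.1 hj).1
    rw [h1] at hAs
    omega

/-- Two zero-sum families of large length and of index one, for different units, split in three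
zero-sum blocks which meet both families. -/
theorem three_blocks (hm : 3 ≤ m) {n₁ n₂ : ℕ} {α₁ : Fin n₁ → ZMod m} {α₂ : Fin n₂ → ZMod m}
    (h₁ : ∀ i, α₁ i ≠ 0) (h₂ : ∀ i, α₂ i ≠ 0) {t₁ t₂ : (ZMod m)ˣ} (ht : t₁ ≠ t₂)
    (hw₁ : ∑ i, ((t₁ : ZMod m) * α₁ i).val = m) (hw₂ : ∑ i, ((t₂ : ZMod m) * α₂ i).val = m)
    (hn₁ : m + 3 ≤ 2 * n₁) (hn₂ : m + 3 ≤ 2 * n₂) :
    ∃ (b₁ : Fin n₁ → Fin 3) (b₂ : Fin n₂ → Fin 3),
      (∀ B, ∑ i with b₁ i = B, α₁ i + ∑ i with b₂ i = B, α₂ i = 0) ∧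
      (∀ B, ∃ i, b₁ i = B) ∧ ∀ B, ∃ i, b₂ i = B := by
  have : NeZero m := ⟨by omega⟩
  have : Fact (1 < m) := ⟨by omega⟩
  -- the partial sums
  have hval : ∀ s t : (ZMod m)ˣ, s ≠ t →
      1 ≤ (-((s * t⁻¹ : (ZMod m)ˣ) : ZMod m)).val ∧
        (-((s * t⁻¹ : (ZMod m)ˣ) : ZMod m)).val + 2 ≤ m := by
    intro s t hst
    have h1 : (-((s * t⁻¹ : (ZMod m)ˣ) : ZMod m)) ≠ 0 := neg_ne_zero.2 (Units.ne_zero _)
    have h2 := ZMod.val_lt (-((s * t⁻¹ : (ZMod m)ˣ) : ZMod m))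
    have h3 : (-((s * t⁻¹ : (ZMod m)ˣ) : ZMod m)).val ≠ m - 1 := by
      intro h4
      apply hst
      have h5 : (-((s * t⁻¹ : (ZMod m)ˣ) : ZMod m)) = ((m - 1 : ℕ) : ZMod m) := by
        rw [← h4, ZMod.natCast_zmod_val]
      rw [Nat.cast_sub (by omega), ZMod.natCast_self, Nat.cast_one, zero_sub, neg_inj] at h5
      have h6 : s * t⁻¹ = 1 := Units.ext h5
      exact mul_inv_eq_one.1 h6
    refine ⟨?_, by omega⟩
    rw [Nat.one_le_iff_ne_zero, Ne, ZMod.val_eq_zero]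
    exact h1
  obtain ⟨i₀, A, hiA, hαi, hαA, hAne, i₂, hi₂, hi₂'⟩ :=
    one_side hm h₁ t₁ hw₁ hn₁ (hval t₁ t₂ ht).1 (hval t₁ t₂ ht).2
  obtain ⟨j₀, B, hjB, hαj, hαB, hBne, j₂, hj₂, hj₂'⟩ :=
    one_side hm h₂ t₂ hw₂ hn₂ (hval t₂ t₁ ht.symm).1 (hval t₂ t₁ ht.symm).2
  rw [ZMod.natCast_zmod_val] at hαA hαB
  have hsum : ∀ {n : ℕ} {α : Fin n → ZMod m} {t : (ZMod m)ˣ},
      ∑ i, ((t : ZMod m) * α i).val = m → ∑ i, α i = 0 := by
    intro n α t hw
    have h3 : (t : ZMod m) * ∑ i, α i = 0 := by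
      rw [mul_sum]
      have h4 : ∑ i, (t : ZMod m) * α i = ((∑ i, ((t : ZMod m) * α i).val : ℕ) : ZMod m) := by
        rw [Nat.cast_sum]
        refine sum_congr rfl fun i _ => ?_
        rw [ZMod.natCast_zmod_val]
      rw [h4, hw, ZMod.natCast_self]
    have := congrArg (fun y => ((t⁻¹ : (ZMod m)ˣ) : ZMod m) * y) h3
    simpa using this
  have hs₁ := hsum hw₁
  have hs₂ := hsum hw₂
  set b₁ : Fin n₁ → Fin 3 := fun i => if i = i₀ then 1 else if i ∈ A then 0 else 2 with hb₁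
  set b₂ : Fin n₂ → Fin 3 := fun j => if j = j₀ then 0 else if j ∈ B then 1 else 2 with hb₂
  have hc₁0 : ∑ i with b₁ i = 0, α₁ i = ∑ i ∈ A, α₁ i := by
    refine sum_congr ?_ fun _ _ => rfl
    ext i
    simp only [mem_filter, mem_univ, true_and, hb₁]
    by_cases h : i = i₀
    · subst h
      simp [hiA]
    · by_cases h' : i ∈ A
      · simp [h, h']
      · simp [h, h']
  have hc₁1 : ∑ i with b₁ i = 1, α₁ i = α₁ i₀ := by
    rw [← sum_singleton α₁ i₀]
    refine sum_congr ?_ fun _ _ => rfl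
    ext i
    simp only [mem_filter, mem_univ, true_and, hb₁, mem_singleton]
    by_cases h : i = i₀
    · simp [h]
    · by_cases h' : i ∈ A
      · simp [h, h']
      · simp [h, h']
  have hc₂0 : ∑ i with b₂ i = 0, α₂ i = α₂ j₀ := by
    rw [← sum_singleton α₂ j₀]
    refine sum_congr ?_ fun _ _ => rfl
    ext i
    simp only [mem_filter, mem_univ, true_and, hb₂, mem_singleton]
    by_cases h : i = j₀
    · simp [h]
    · by_cases h' : i ∈ B
      · simp [h, h']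
      · simp [h, h']
  have hc₂1 : ∑ i with b₂ i = 1, α₂ i = ∑ i ∈ B, α₂ i := by
    refine sum_congr ?_ fun _ _ => rfl
    ext i
    simp only [mem_filter, mem_univ, true_and, hb₂]
    by_cases h : i = j₀
    · subst h
      simp [hjB]
    · by_cases h' : i ∈ B
      · simp [h, h']
      · simp [h, h']
  have e0 : ∑ i with b₁ i = 0, α₁ i + ∑ i with b₂ i = 0, α₂ i = 0 := by
    rw [hc₁0, hc₂0, hαA, hαj, Units.val_mul]
    have h3 : ((t₁⁻¹ : (ZMod m)ˣ) : ZMod m) * (t₁ : ZMod m) = 1 := Units.inv_mul t₁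
    linear_combination -(((t₂⁻¹ : (ZMod m)ˣ) : ZMod m)) * h3
  have e1 : ∑ i with b₁ i = 1, α₁ i + ∑ i with b₂ i = 1, α₂ i = 0 := by
    rw [hc₁1, hc₂1, hαi, hαB, Units.val_mul]
    have h3 : ((t₂⁻¹ : (ZMod m)ˣ) : ZMod m) * (t₂ : ZMod m) = 1 := Units.inv_mul t₂
    linear_combination -(((t₁⁻¹ : (ZMod m)ˣ) : ZMod m)) * h3
  have e2 : ∑ i with b₁ i = 2, α₁ i + ∑ i with b₂ i = 2, α₂ i = 0 := by
    have h3 : ∑ B, (∑ i with b₁ i = B, α₁ i + ∑ i with b₂ i = B, α₂ i) = 0 := by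
      rw [sum_add_distrib, sum_fiberwise, sum_fiberwise, hs₁, hs₂, add_zero]
    rw [Fin.sum_univ_three, e0, e1, zero_add, zero_add] at h3
    exact h3
  refine ⟨b₁, b₂, ?_, ?_, ?_⟩
  · intro C
    fin_cases C
    · exact e0
    · exact e1
    · exact e2
  · intro C
    fin_cases C
    · obtain ⟨i, hi⟩ := hAne
      refine ⟨i, ?_⟩
      have h : i ≠ i₀ := by
        rintro rfl
        exact hiA hi
      simp [hb₁, h, hi]
    · exact ⟨i₀, by simp [hb₁]⟩
    · exact ⟨i₂, by simp [hb₁, hi₂, hi₂']⟩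
  · intro C
    fin_cases C
    · exact ⟨j₀, by simp [hb₂]⟩
    · obtain ⟨i, hi⟩ := hBne
      refine ⟨i, ?_⟩
      have h : i ≠ j₀ := by
        rintro rfl
        exact hjB hi
      simp [hb₂, h, hi]
    · exact ⟨j₂, by simp [hb₂, hj₂, hj₂']⟩

end Pool.Agent.T2H37.PR
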