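import Pool.Agent.T2H37.PR.WDefs

/-!
# Morphisms from a Fermat hypersurface to its powers
-/

set_option autoImplicit false

namespace Pool.Agent.T2H37.PR

open MvPolynomial Pool.Agent.T2H37.FK

variable {𝕜 : Type*} [Field 𝕜] {K n m : ℕ}

/-- The morphism `x ↦ (g 0 x, ..., g (K - 1) x)` from `X` to `X ^ K` given by a tuple of linear
automorphisms of the Fermat hypersurface `X`. -/
noncomputable def tup (g : Fin K → FermatGroup 𝕜 n m) (x : Fermat 𝕜 n m) :
    Pts 𝕜 (fun _ : Fin K => n) m := fun k => FK.act (g k) x

/-- The pullbacks of the holomorphic forms of positive degree on `X ^ K` under the combination `a` of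
the morphisms `tup g` are zero. By the Künneth formula it is enough to consider the pullbacks of
the holomorphic forms of top degree under the components `g k` of the morphisms (the pullback of
the exterior product of two of them has degree larger than the dimension of `X`). They are the
residues of `P * Ω / F` given by the forms `P` of degree `m - n`, where `F = ∑ i, x i ^ m`, and an
automorphism `g` sends `P` to `det g • P ∘ g`. -/
def KillsPull (a : (Fin K → FermatGroup 𝕜 n m) →₀ ℤ) : Prop :=
  ∀ (k : Fin K) (d : ℕ) (P : MvPolynomial (Fin n) 𝕜), d + n = m → P.IsHomogeneous d →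
    ∀ v : Fin n → 𝕜, (a.sum fun g c => (c : 𝕜) * ((g k).1.1.det * eval ((g k).1.1.mulVec v) P)) = 0

end Pool.Agent.T2H37.PR
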