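import Pool.Agent.T2H37.FK.Defs

/-!
# Zero-cycles on products of Fermat hypersurfaces

The definitions for the theorem on zero-cycles on products of Fermat hypersurfaces.
-/

set_option autoImplicit false

namespace Pool.Agent.T2H37.PR

open MvPolynomial Pool.Agent.T2H37.FK

/-- The points of the product `X` of the Fermat hypersurfaces `∑ i, x i ^ m = 0` in the projective
spaces of dimension `N k - 1`, for `k < K`. -/
def Pts (𝕜 : Type*) [Field 𝕜] {K : ℕ} (N : Fin K → ℕ) (m : ℕ) : Type _ := ∀ k, Fermat 𝕜 (N k) m

variable {𝕜 : Type*} [Field 𝕜] {K : ℕ} {N : Fin K → ℕ}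

/-- The linear form whose coefficients are the coordinates `∏ k, v k (l k)` of the point with the
homogeneous coordinates `v k` in the `k`-th projective space, in the Segre embedding of the product
of the projective spaces. -/
noncomputable def segre (v : ∀ k, Fin (N k) → 𝕜) : MvPolynomial (∀ k, Fin (N k)) 𝕜 :=
  ∑ l, C (∏ k, v k (l k)) * X l

/-- `F` is a Chow form of the effective zero-cycle `[p 0] + ... + [p (d - 1)]` on `X`, in the Segre
embedding: up to a nonzero scalar it is the product of the linear forms whose coefficient vectors are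
the homogeneous coordinates of the points of the cycle. -/
def IsChowForm {m d : ℕ} (p : Fin d → Pts 𝕜 N m) (F : MvPolynomial (∀ k, Fin (N k)) 𝕜) : Prop :=
  ∃ c : 𝕜, c ≠ 0 ∧ F = C c * ∏ j, segre fun k => (p j k).1.rep

/-- Two effective zero-cycles of degree `d` on `X` are joined by a rational curve in the `d`-th
symmetric power: there is a polynomial family, parametrised by the affine line, of Chow forms of
effective zero-cycles of degree `d` on `X`, with the first cycle at `0` and the second one at `1`. -/
def Joined {m d : ℕ} (p q : Fin d → Pts 𝕜 N m) : Prop :=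
  ∃ F : Polynomial (MvPolynomial (∀ k, Fin (N k)) 𝕜),
    (∀ t : 𝕜, ∃ s : Fin d → Pts 𝕜 N m, IsChowForm s (F.eval (C t))) ∧
      IsChowForm p (F.eval (C 0)) ∧ IsChowForm q (F.eval (C 1))

/-- The group of zero-cycles rationally equivalent to zero. -/
noncomputable def RatEquivZero (𝕜 : Type*) [Field 𝕜] {K : ℕ} (N : Fin K → ℕ) (m : ℕ) :
    AddSubgroup (Pts 𝕜 N m →₀ ℤ) :=
  AddSubgroup.closure {z | ∃ (d : ℕ) (p q : Fin d → Pts 𝕜 N m), Joined p q ∧
    z = ∑ j, Finsupp.single (p j) 1 - ∑ j, Finsupp.single (q j) 1}

/-- The action of the product of the groups of linear automorphisms of the Fermat hypersurfaces on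
the points of `X`. -/
noncomputable def act {m : ℕ} (g : ∀ k, FermatGroup 𝕜 (N k) m) (x : Pts 𝕜 N m) : Pts 𝕜 N m :=
  fun k => Pool.Agent.T2H37.FK.act (g k) (x k)

/-- The combination `a` of automorphisms of `X` acts as zero on all holomorphic forms of positive
degree on `X`: by the Künneth formula these are the sums of the products of holomorphic forms of top
degree on the factors `k ∈ S`, for the nonempty sets `S` of factors, and the holomorphic forms of top
degree on the `k`-th factor are the residues `P Ω / F` given by the forms `P` of degree `m - N k`,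
where `F = ∑ i, x i ^ m`; an automorphism `g` sends `P` to `det g • P ∘ g`. -/
def KillsForms {m : ℕ} (a : (∀ k, FermatGroup 𝕜 (N k) m) →₀ ℤ) : Prop :=
  ∀ S : Finset (Fin K), S.Nonempty → ∀ (d : Fin K → ℕ) (P : ∀ k, MvPolynomial (Fin (N k)) 𝕜),
    (∀ k ∈ S, d k + N k = m ∧ (P k).IsHomogeneous (d k)) → ∀ v : ∀ k, Fin (N k) → 𝕜,
      (a.sum fun g c => (c : 𝕜) *
        ∏ k ∈ S, ((g k).1.1.det * eval ((g k).1.1.mulVec (v k)) (P k))) = 0

end Pool.Agent.T2H37.PR
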