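import Pool.Agent.T2H37.PR.Exch

/-!
# Pairs of equal points: the characters whose product is trivial somewhere
-/

set_option autoImplicit false
set_option linter.unusedSectionVars false
set_option linter.unusedSimpArgs false

namespace Pool.Agent.T2H37.PR

open MvPolynomial Finset Pool.Agent.T2H37.FK

variable {𝕜 : Type*} [Field 𝕜] [IsAlgClosed 𝕜] [CharZero 𝕜] {m n : ℕ} [NeZero m]

/-- the identification of the variables -/
noncomputable def twoHom : MvPolynomial (∀ _ : Fin 2, Fin n) 𝕜 →ₐ[𝕜] MvPolynomial (Fin n × Fin n) 𝕜 :=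
  aeval fun l => X (l 0, l 1)

lemma twoHom_segre (v : ∀ _ : Fin 2, Fin n → 𝕜) : twoHom (segre v) = seg2 (v 0) (v 1) := by
  have h0 : seg2 (v 0) (v 1) = ∑ i : Fin n × Fin n, C (v 0 i.1 * v 1 i.2) * X i := by
    rw [seg2, ← univ_product_univ, sum_product]
  rw [h0, segre, map_sum]
  refine Fintype.sum_equiv (finTwoArrowEquiv (Fin n)) _ _ fun l => ?_
  rw [map_mul, twoHom, aeval_X, algHom_C, algebraMap_eq, Fin.prod_univ_two]
  rfl

/-- functions of two factors as functions on tuples -/
lemma Good2.toP {F : (Fin n → 𝕜) → (Fin n → 𝕜) → 𝕜} (hF : Good2 m F) :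
    GoodP (K := 2) (N := fun _ => n) m fun v => F (v 0) (v 1) := by
  constructor
  · intro k c v hc hv
    fin_cases k
    · change F (Function.update v 0 (c • v 0) 0) (Function.update v 0 (c • v 0) 1) = F (v 0) (v 1)
      rw [Function.update_self, Function.update_of_ne (by decide)]
      exact hF.smul₁ c _ _ hc (hv 0) (hv 1)
    · change F (Function.update v 1 (c • v 1) 0) (Function.update v 1 (c • v 1) 1) = F (v 0) (v 1)
      rw [Function.update_self, Function.update_of_ne (by decide)]
      exact hF.smul₂ c _ _ hc (hv 0) (hv 1)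
  · intro d G hG hdec s s' hs hs'
    have hrep : ∀ (t : 𝕜) (s : Multiset (∀ _ : Fin 2, Fin n → 𝕜)), RepP m d (G t) s →
        Rep2 m d (twoHom (G t)) (s.map fun v => (v 0, v 1)) := by
      intro t s hs
      obtain ⟨h1, h2, c, hc, h3⟩ := hs
      refine ⟨by rw [Multiset.card_map, h1], ?_, c, hc, ?_⟩
      · intro w hw
        rw [Multiset.mem_map] at hw
        obtain ⟨w', hw', rfl⟩ := hw
        exact ⟨h2 w' hw' 0, h2 w' hw' 1⟩
      · rw [h3, map_mul, algHom_C, algebraMap_eq, map_multiset_prod, Multiset.map_map,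
          Multiset.map_map]
        congr 3
        funext w
        exact twoHom_segre w
    have h1 := hF.fam d (fun t => twoHom (G t)) (hG.map twoHom)
      (fun t => by
        obtain ⟨s, hs⟩ := hdec t
        exact ⟨_, hrep t s hs⟩) _ _ (hrep 0 s hs) (hrep 1 s' hs')
    rw [Multiset.map_map, Multiset.map_map] at h1
    exact h1

variable {β₁ β₂ : Fin n → ZMod m} {F : (Fin n → 𝕜) → (Fin n → 𝕜) → 𝕜}

lemma Eig2.diag (hE : Eig2 β₁ β₂ F) (g : Fin n → ZMod m) (x : Fin n → 𝕜) :
    F (dg g x) (dg g x) = e 𝕜 (∑ i, (β₁ i + β₂ i) * g i) * F x x := by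
  rw [hE g g x x]
  congr 2
  rw [pr, pr, ← sum_add_distrib]
  exact sum_congr rfl fun i _ => by ring

/-- pairs of equal points, opposite characters -/
lemma Good2.diag_const (hF : Good2 m F) (hE : Eig2 β₁ β₂ F) (hn : 3 ≤ n)
    (hβ : ∀ i, β₁ i + β₂ i = 0) {i₀ : Fin n} (hi : β₁ i₀ ≠ 0) {x : Fin n → 𝕜} (hx : OnX m x) :
    F x x = 0 := by
  by_cases hx0 : x i₀ = 0
  · exact hE.left_zero hi hx0 x
  -- two other coordinates
  obtain ⟨i₁, i₂, h1, h2, h3⟩ : ∃ i₁ i₂ : Fin n, i₁ ≠ i₀ ∧ i₂ ≠ i₀ ∧ i₁ ≠ i₂ := by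
    have h4 : 1 < (univ.erase i₀).card := by
      rw [card_erase_of_mem (mem_univ _), card_univ, Fintype.card_fin]
      omega
    obtain ⟨a, ha, b, hb, hab⟩ := one_lt_card.1 h4
    exact ⟨a, b, (mem_erase.1 ha).1, (mem_erase.1 hb).1, hab⟩
  set z : Fin n → 𝕜 := Pi.single i₁ 1 - Pi.single i₂ 1 with hz
  have hz0 : z i₀ = 0 := by
    rw [hz, Pi.sub_apply, Pi.single_eq_of_ne h1.symm, Pi.single_eq_of_ne h2.symm, sub_self]
  have hz1 : z i₁ = 1 := by
    rw [hz, Pi.sub_apply, Pi.single_eq_same, Pi.single_eq_of_ne h3, sub_zero]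
  have hzs : ∑ i, z i = 0 := by
    simp only [hz, Pi.sub_apply, sum_sub_distrib, sum_pi_single', mem_univ, if_true]
    simp
  choose w hw using fun i => IsAlgClosed.exists_pow_nat_eq (z i) (NeZero.pos m)
  have hw0 : w i₀ = 0 := by
    have h4 := hw i₀
    rw [hz0] at h4
    exact (pow_eq_zero_iff (NeZero.ne m)).1 h4
  have key := hF.toP.family (fun _ i => i) (fun i t => (1 - t) * x i ^ m + t * z i)
    (fun _ _ _ => 1)
    (by
      intro i
      simp only [map_add, map_sub, map_mul]
      exact (((PF.const _).sub PF.id).mul (PF.const _)).add (PF.id.mul (PF.const _)))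
    (fun _ _ => PF.const _)
    (by
      intro t k
      simp only [one_pow, mul_one]
      rw [sum_add_distrib, ← mul_sum, ← mul_sum, hzs, hx.2]
      ring)
    (by
      intro t k
      by_contra hcon
      push Not at hcon
      have h4 : ∀ i, (1 - t) * x i ^ m + t * z i = 0 := by
        intro i
        by_contra h5
        exact one_ne_zero (hcon i h5)
      have h5 := h4 i₀
      rw [hz0, mul_zero, add_zero] at h5
      have h6 : 1 - t = 0 := (mul_eq_zero.1 h5).resolve_right (pow_ne_zero _ hx0)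
      have h7 := h4 i₁
      rw [h6, zero_mul, zero_add, hz1, mul_one] at h7
      rw [h7, sub_zero] at h6
      exact one_ne_zero h6)
    x w (fun i => by ring) (fun i => by rw [hw]; ring)
  have hL : ∀ κ : Fin n → ZMod m, F (fun i => e 𝕜 (κ i) * (x i * 1)) (fun i => e 𝕜 (κ i) * (x i * 1)) =
      F x x := by
    intro κ
    have h4 : (fun i => e 𝕜 (κ i) * (x i * 1)) = dg κ x := by
      funext i
      rw [mul_one]
      rfl
    rw [h4, hE.diag]
    have h5 : ∑ i, (β₁ i + β₂ i) * κ i = 0 := sum_eq_zero fun i _ => by rw [hβ, zero_mul]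
    rw [h5, e_zero, one_mul]
  have hR : ∀ κ : Fin n → ZMod m, F (fun i => e 𝕜 (κ i) * (w i * 1)) (fun i => e 𝕜 (κ i) * (w i * 1)) =
      0 := by
    intro κ
    exact hE.left_zero hi (by rw [hw0]; ring) _
  simp only at key
  rw [sum_congr rfl fun κ _ => hL κ, sum_congr rfl fun κ _ => hR κ, sum_const, card_univ,
    nsmul_eq_mul, sum_const_zero] at key
  exact (mul_eq_zero.1 key).resolve_left (card_ne_zeroN _)

/-- pairs of equal points, characters that are opposite at one place -/
lemma Good2.diag_turn (hF : Good2 m F) (hE : Eig2 β₁ β₂ F) (hn : 3 ≤ n)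
    (hs : ∑ i, (β₁ i + β₂ i) = 0) (hβ : ∀ i, β₁ i ≠ 0) {i₀ i₁ : Fin n} (h₀ : β₁ i₀ + β₂ i₀ = 0)
    (h₁ : β₁ i₁ + β₂ i₁ ≠ 0) {x : Fin n → 𝕜} (hx : OnX m x) : F x x = 0 := by
  by_cases hx0 : ∀ i, x i ≠ 0
  swap
  · push Not at hx0
    obtain ⟨i, hi⟩ := hx0
    exact hE.left_zero (hβ i) hi x
  have h01 : i₀ ≠ i₁ := by
    rintro rfl
    exact h₁ h₀
  obtain ⟨i₂, h20, h21⟩ : ∃ i₂ : Fin n, i₂ ≠ i₀ ∧ i₂ ≠ i₁ := by
    have h4 : 1 < (univ.erase i₀).card := by
      rw [card_erase_of_mem (mem_univ _), card_univ, Fintype.card_fin]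
      omega
    obtain ⟨a, ha, b, hb, hab⟩ := one_lt_card.1 h4
    by_cases h : a = i₁
    · refine ⟨b, (mem_erase.1 hb).1, ?_⟩
      rintro rfl
      exact hab h
    · exact ⟨a, (mem_erase.1 ha).1, h⟩
  set ζ : 𝕜 := e 𝕜 (1 : ZMod m) with hζ
  set c : 𝕜 := x i₀ ^ m with hc
  have hc0 : c ≠ 0 := pow_ne_zero _ (hx0 i₀)
  set y : 𝕜 → 𝕜 := fun t => (x i₁ * (1 + t * (ζ - 1))) ^ m - x i₁ ^ m with hy
  have hy0 : y 0 = 0 := by simp [hy]
  have hy1 : y 1 = 0 := by
    have h3 : x i₁ * (1 + 1 * (ζ - 1)) = x i₁ * ζ := by ring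
    simp only [hy]
    rw [h3, mul_pow, hζ, e_pow_m, mul_one, sub_self]
  have key := hF.toP.family (fun _ i => decide (i = i₀))
    (fun b t => if b = true then 1 - c⁻¹ * y t else 1)
    (fun _ i t => x i * if i = i₁ then 1 + t * (ζ - 1) else 1)
    (by
      intro b
      by_cases hb : b = true
      · simp only [hb, if_true, map_add, map_sub, map_mul, map_pow, map_one, hy]
        exact (PF.const _).sub ((PF.const _).mul ((((PF.const _).mul
          ((PF.const _).add (PF.id.mul (PF.const _)))).pow m).sub (PF.const _)))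
      · have h9 : (fun t => (C (if b = true then 1 - c⁻¹ * y t else 1) :
            MvPolynomial (∀ _ : Fin 2, Fin n) 𝕜)) = fun _ => C 1 := by
          funext t
          rw [if_neg hb]
        rw [h9]
        exact PF.const _)
    (by
      intro k i
      by_cases h : i = i₁
      · have h9 : (fun t => (C (x i * if i = i₁ then 1 + t * (ζ - 1) else 1) :
            MvPolynomial (∀ _ : Fin 2, Fin n) 𝕜)) = fun t => C (x i) * (C 1 + C t * C (ζ - 1)) := by
          funext t
          rw [if_pos h, C_mul, C_add, C_mul]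
        rw [h9]
        exact (PF.const _).mul ((PF.const _).add (PF.id.mul (PF.const _)))
      · have h9 : (fun t => (C (x i * if i = i₁ then 1 + t * (ζ - 1) else 1) :
            MvPolynomial (∀ _ : Fin 2, Fin n) 𝕜)) = fun _ => C (x i * 1) := by
          funext t
          rw [if_neg h]
        rw [h9]
        exact PF.const _)
    (by
      intro t k
      have h3 : ∀ i : Fin n, (if decide (i = i₀) = true then 1 - c⁻¹ * y t else 1) *
          (x i * if i = i₁ then 1 + t * (ζ - 1) else 1) ^ m =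
          x i ^ m + ((if i = i₀ then -y t else 0) + if i = i₁ then y t else 0) := by
        intro i
        by_cases hi0 : i = i₀
        · subst hi0
          rw [if_pos (by simp), if_neg h01, if_pos rfl, if_neg h01, mul_one]
          field_simp
          ring
        · rw [if_neg (by simpa using hi0), if_neg hi0]
          by_cases hi1 : i = i₁
          · subst hi1
            rw [if_pos rfl, if_pos rfl]
            simp only [hy]
            ring
          · rw [if_neg hi1, if_neg hi1]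
            ring
      rw [sum_congr rfl fun i _ => h3 i, sum_add_distrib, sum_add_distrib, hx.2,
        sum_ite_eq' univ i₀, sum_ite_eq' univ i₁, if_pos (mem_univ _), if_pos (mem_univ _)]
      ring)
    (by
      intro t k
      refine ⟨i₂, ?_, ?_⟩
      · rw [if_neg (by simpa using h20)]
        exact one_ne_zero
      · rw [if_neg h21, mul_one]
        exact hx0 i₂)
    (fun _ => 1) (fun _ => 1)
    (by
      intro b
      rw [hy0]
      split_ifs <;> simp)
    (by
      intro b
      rw [hy1]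
      split_ifs <;> simp)
  have hsum : ∀ κ : Bool → ZMod m, ∑ i, (β₁ i + β₂ i) * κ (decide (i = i₀)) = 0 := by
    intro κ
    have h3 : ∀ i, (β₁ i + β₂ i) * κ (decide (i = i₀)) = (β₁ i + β₂ i) * κ false := by
      intro i
      by_cases hi : i = i₀
      · rw [hi, h₀, zero_mul, zero_mul]
      · rw [decide_eq_false hi]
    rw [sum_congr rfl fun i _ => h3 i, ← sum_mul, hs, zero_mul]
  have hL : ∀ κ : Bool → ZMod m,
      F (fun i => e 𝕜 (κ (decide (i = i₀))) * (1 * (x i * if i = i₁ then 1 + 0 * (ζ - 1) else 1)))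
        (fun i => e 𝕜 (κ (decide (i = i₀))) * (1 * (x i * if i = i₁ then 1 + 0 * (ζ - 1) else 1))) =
      F x x := by
    intro κ
    have h4 : (fun i => e 𝕜 (κ (decide (i = i₀))) *
        (1 * (x i * if i = i₁ then 1 + 0 * (ζ - 1) else 1))) =
        dg (fun i => κ (decide (i = i₀))) x := by
      funext i
      simp [dg]
    rw [h4, hE.diag, hsum, e_zero, one_mul]
  have hR : ∀ κ : Bool → ZMod m,
      F (fun i => e 𝕜 (κ (decide (i = i₀))) * (1 * (x i * if i = i₁ then 1 + 1 * (ζ - 1) else 1)))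
        (fun i => e 𝕜 (κ (decide (i = i₀))) * (1 * (x i * if i = i₁ then 1 + 1 * (ζ - 1) else 1))) =
      e 𝕜 (β₁ i₁ + β₂ i₁) * F x x := by
    intro κ
    have h4 : (fun i => e 𝕜 (κ (decide (i = i₀))) *
        (1 * (x i * if i = i₁ then 1 + 1 * (ζ - 1) else 1))) =
        dg (fun i => κ (decide (i = i₀))) (dg (Pi.single i₁ (1 : ZMod m)) x) := by
      funext i
      by_cases hi : i = i₁
      · subst hi
        simp only [dg, if_true, Pi.single_eq_same]
        rw [hζ]
        ring
      · simp only [dg, hi, if_false]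
        rw [Pi.single_eq_of_ne hi, e_zero]
        ring
    rw [h4, hE.diag, hsum, e_zero, one_mul, hE.diag]
    congr 2
    rw [sum_eq_single i₁]
    · rw [Pi.single_eq_same, mul_one]
    · intro j _ hj
      rw [Pi.single_eq_of_ne hj, mul_zero]
    · intro h
      exact absurd (mem_univ _) h
  simp only at key
  rw [sum_congr rfl fun κ _ => hL κ, sum_congr rfl fun κ _ => hR κ, sum_const, sum_const,
    card_univ, nsmul_eq_mul, nsmul_eq_mul] at key
  have h5 : (Fintype.card (Bool → ZMod m) : 𝕜) ≠ 0 := Nat.cast_ne_zero.2 Fintype.card_ne_zero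
  have h6 := mul_left_cancel₀ h5 key
  have h7 : (e 𝕜 (β₁ i₁ + β₂ i₁) - 1) * F x x = 0 := by
    rw [sub_mul, one_mul, ← h6, sub_self]
  refine (mul_eq_zero.1 h7).resolve_left (sub_ne_zero.2 fun h8 => h₁ ?_)
  rw [← e_zero (𝕜 := 𝕜) (m := m)] at h8
  exact e_inj h8

end Pool.Agent.T2H37.PR
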