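import Pool.Agent.T2H37.PR.Exch

/-!
# Pairs of equal points: exchange of two coordinates
-/

set_option autoImplicit false
set_option linter.unusedSectionVars false
set_option linter.unusedSimpArgs false

namespace Pool.Agent.T2H37.PR

open MvPolynomial Finset Pool.Agent.T2H37.FK

variable {𝕜 : Type*} [Field 𝕜] [IsAlgClosed 𝕜] [CharZero 𝕜] {m M : ℕ} [NeZero m]

/-- the universal form -/
noncomputable def uD (r : Fin M → 𝕜) :
    MvPolynomial ((Unit ⊕ Unit) ⊕ (Fin (M + 2) × Fin (M + 2))) 𝕜 :=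
  ∑ i, ∑ j, cc2 (X (Sum.inl (Sum.inl ()))) (X (Sum.inl (Sum.inr ()))) (fun l => C (r l)) i *
    cc2 (X (Sum.inl (Sum.inl ()))) (X (Sum.inl (Sum.inr ()))) (fun l => C (r l)) j * X (Sum.inr (i, j))

lemma aeval_uD (r : Fin M → 𝕜) (a b : 𝕜) (κ : Unit → ZMod m) :
    aeval (Sum.elim (Sum.elim
      (fun i => algebraMap 𝕜 (MvPolynomial (Fin (M + 2) × Fin (M + 2)) 𝕜) (e 𝕜 (κ i)) * C a)
      fun i => algebraMap 𝕜 (MvPolynomial (Fin (M + 2) × Fin (M + 2)) 𝕜) (e 𝕜 (-κ i)) * C b) X)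
      (uD r) = seg2 (cc2 (e 𝕜 (κ ()) * a) (e 𝕜 (-κ ()) * b) r)
        (cc2 (e 𝕜 (κ ()) * a) (e 𝕜 (-κ ()) * b) r) := by
  have key : ∀ i : Fin (M + 2), aeval (Sum.elim (Sum.elim
      (fun i => algebraMap 𝕜 (MvPolynomial (Fin (M + 2) × Fin (M + 2)) 𝕜) (e 𝕜 (κ i)) * C a)
      fun i => algebraMap 𝕜 (MvPolynomial (Fin (M + 2) × Fin (M + 2)) 𝕜) (e 𝕜 (-κ i)) * C b) X)
      ((cc2 (X (Sum.inl (Sum.inl ()))) (X (Sum.inl (Sum.inr ()))) (fun l => C (r l)) i :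
        MvPolynomial ((Unit ⊕ Unit) ⊕ (Fin (M + 2) × Fin (M + 2))) 𝕜)) =
      C (cc2 (e 𝕜 (κ ()) * a) (e 𝕜 (-κ ()) * b) r i) := by
    intro i
    rw [map_cc2 (fun x => aeval _ x), map_cc2 (fun x => (C x : MvPolynomial _ 𝕜))]
    refine cc2_congr ?_ ?_ (fun l => ?_) i
    · rw [aeval_X, Sum.elim_inl, Sum.elim_inl, algebraMap_eq, C_mul]
    · rw [aeval_X, Sum.elim_inl, Sum.elim_inr, algebraMap_eq, C_mul]
    · rw [aeval_C, algebraMap_eq]
  rw [uD, map_sum, seg2]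
  refine sum_congr rfl fun i _ => ?_
  rw [map_sum]
  refine sum_congr rfl fun j _ => ?_
  rw [map_mul, map_mul, aeval_X, C_mul, Sum.elim_inr, key, key]

/-- the orbit of a pair of equal points -/
noncomputable def orbd (m : ℕ) [NeZero m] (r : Fin M → 𝕜) (a b : 𝕜) :
    Multiset ((Fin (M + 2) → 𝕜) × (Fin (M + 2) → 𝕜)) :=
  univ.val.map fun κ : Unit → ZMod m => (cc2 (e 𝕜 (κ ()) * a) (e 𝕜 (-κ ()) * b) r,
    cc2 (e 𝕜 (κ ()) * a) (e 𝕜 (-κ ()) * b) r)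

/-- The Chow form of the orbits of `(a, b)` and `(b, a)` is a polynomial in the product `a * b`. -/
lemma exists_chowd (m : ℕ) [NeZero m] (r : Fin M → 𝕜) :
    ∃ W : MvPolynomial (Bool ⊕ (Unit ⊕ (Fin (M + 2) × Fin (M + 2)))) 𝕜,
      ∀ a b : 𝕜, ((orbd m r a b + orbd m r b a).map fun v => seg2 v.1 v.2).prod =
          aeval (Sum.elim (bsel (C (a ^ m + b ^ m)) (C ((a * b) ^ m)))
            (Sum.elim (fun _ => C (a * b)) X)) W := by
  obtain ⟨Q, hQ⟩ := exists_nrma m (uD r)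
  set Q' : MvPolynomial (Bool ⊕ (Unit ⊕ (Fin (M + 2) × Fin (M + 2)))) 𝕜 :=
    aeval (Sum.elim (Sum.elim (fun _ => X (Sum.inl false)) fun _ => X (Sum.inl true))
      fun x => X (Sum.inr x)) Q with hQ'
  obtain ⟨W, hW⟩ := exists_symm Q'
  refine ⟨W, fun a b => ?_⟩
  have key : ∀ a b : 𝕜, ((orbd m r a b).map fun v => seg2 v.1 v.2).prod =
        aeval (Sum.elim (bsel (C (a ^ m)) (C (b ^ m)))
          (Sum.elim (fun _ => C (a * b)) X)) Q' := by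
    intro a b
    rw [orbd, Multiset.map_map]
    change ∏ κ : Unit → ZMod m, seg2 (cc2 (e 𝕜 (κ ()) * a) (e 𝕜 (-κ ()) * b) r)
        (cc2 (e 𝕜 (κ ()) * a) (e 𝕜 (-κ ()) * b) r) = _
    have h1 := hQ (MvPolynomial (Fin (M + 2) × Fin (M + 2)) 𝕜) (fun _ => C a) (fun _ => C b) X
    rw [prod_congr rfl fun κ _ => (aeval_uD r a b κ).symm, h1, hQ', comp_aeval_apply]
    congr 2
    funext x
    rcases x with (i | i) | (i | x)
    · change C a ^ m = aeval _ (X (Sum.inl false))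
      rw [aeval_X, ← C_pow]
      rfl
    · change C b ^ m = aeval _ (X (Sum.inl true))
      rw [aeval_X, ← C_pow]
      rfl
    · change C a * C b = aeval _ (X (Sum.inr (Sum.inl i)))
      rw [aeval_X, ← C_mul]
      rfl
    · change X x = aeval _ (X (Sum.inr (Sum.inr x)))
      rw [aeval_X]
      rfl
  rw [Multiset.map_add, Multiset.prod_add, key a b, key b a]
  rw [mul_comm b a, hW, ← C_add, ← C_mul, ← mul_pow]

lemma onX_orbd {r : Fin M → 𝕜} (hr0 : r ≠ 0) {a b : 𝕜}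
    (hr : a ^ m + b ^ m + ∑ i, r i ^ m = 0) :
    ∀ v ∈ orbd m r a b, OnX m v.1 ∧ OnX m v.2 := by
  intro v hv
  rw [orbd, Multiset.mem_map] at hv
  obtain ⟨κ, _, rfl⟩ := hv
  have h1 : OnX m (cc2 (e 𝕜 (κ ()) * a) (e 𝕜 (-κ ()) * b) r) := by
    constructor
    · intro h
      exact hr0 (funext fun i => congrFun h i.succ.succ)
    · rw [sum_cc2 _ _ r fun x => x ^ m, mul_pow, mul_pow, e_pow_m, e_pow_m, one_mul, one_mul, hr]
  exact ⟨h1, h1⟩

lemma exists_roots {z w P : 𝕜} (h : z * w = P ^ m) : ∃ a b : 𝕜, a ^ m = z ∧ b ^ m = w ∧ a * b = P := by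
  by_cases hz : z = 0
  · obtain ⟨b, hb⟩ := IsAlgClosed.exists_pow_nat_eq w (NeZero.pos m)
    refine ⟨0, b, ?_, hb, ?_⟩
    · rw [zero_pow (NeZero.ne m), hz]
    · rw [hz, zero_mul] at h
      rw [zero_mul]
      exact ((pow_eq_zero_iff (NeZero.ne m)).1 h.symm).symm
  · obtain ⟨a, ha⟩ := IsAlgClosed.exists_pow_nat_eq z (NeZero.pos m)
    have ha0 : a ≠ 0 := by
      rintro rfl
      rw [zero_pow (NeZero.ne m)] at ha
      exact hz ha.symm
    refine ⟨a, P / a, ha, ?_, ?_⟩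
    · rw [div_pow, ← h, ha]
      field_simp
    · field_simp

/-- the sum over the orbits is constant -/
lemma Good2.orbd_const {F : (Fin (M + 2) → 𝕜) → (Fin (M + 2) → 𝕜) → 𝕜} (hF : Good2 m F)
    {r : Fin M → 𝕜} (hr0 : r ≠ 0) {a b a' b' : 𝕜} (hr : a ^ m + b ^ m + ∑ i, r i ^ m = 0)
    (hr' : a' ^ m + b' ^ m + ∑ i, r i ^ m = 0) :
    ((orbd m r a b + orbd m r b a).map fun v => F v.1 v.2).sum =
      ((orbd m r a' b' + orbd m r b' a').map fun v => F v.1 v.2).sum := by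
  obtain ⟨W, hW⟩ := exists_chowd m r
  set s : 𝕜 := -∑ i, r i ^ m with hs
  set P : 𝕜 → 𝕜 := fun t => a * b + t * (a' * b' - a * b) with hP
  set G : 𝕜 → MvPolynomial (Fin (M + 2) × Fin (M + 2)) 𝕜 := fun t =>
    aeval (fun x => Sum.elim (bsel (C s) (C (P t ^ m)))
      (Sum.elim (fun _ => C (P t)) X) x) W with hG
  have hPP : PF fun t => (C (P t) : MvPolynomial (Fin (M + 2) × Fin (M + 2)) 𝕜) := by
    have h1 : (fun t => (C (P t) : MvPolynomial (Fin (M + 2) × Fin (M + 2)) 𝕜)) =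
        fun t => C (a * b) + C t * C (a' * b' - a * b) := by
      funext t
      rw [hP, ← C_mul, ← C_add]
    rw [h1]
    exact (PF.const _).add (PF.id.mul (PF.const _))
  have hPF : PF G := by
    refine PF.aeval W (G := fun x t => Sum.elim (bsel (C s) (C (P t ^ m)))
      (Sum.elim (fun _ => C (P t)) X) x) fun x => ?_
    rcases x with (_ | _) | (i | x)
    · exact PF.const (C s)
    · have h1 : PF fun t => (C (P t) : MvPolynomial (Fin (M + 2) × Fin (M + 2)) 𝕜) ^ m := hPP.pow m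
      have h2 : (fun t => (C (P t) : MvPolynomial (Fin (M + 2) × Fin (M + 2)) 𝕜) ^ m) =
          fun t => C (P t ^ m) := by
        funext t
        rw [C_pow]
      rw [h2] at h1
      exact h1
    · exact hPP
    · exact PF.const (X x)
  have hrep : ∀ (t : 𝕜) (a b : 𝕜), a ^ m + b ^ m = s → a * b = P t →
      Rep2 m (2 * Fintype.card (Unit → ZMod m)) (G t) (orbd m r a b + orbd m r b a) := by
    intro t a b hab hP
    have h0 : a ^ m + b ^ m + ∑ i, r i ^ m = 0 := by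
      rw [hab, hs]
      ring
    have h0' : b ^ m + a ^ m + ∑ i, r i ^ m = 0 := by
      rw [add_comm (b ^ m)]
      exact h0
    refine ⟨?_, ?_, 1, one_ne_zero, ?_⟩
    · rw [Multiset.card_add, orbd, orbd, Multiset.card_map, Multiset.card_map, card_val, card_univ,
        two_mul]
    · intro v hv
      rw [Multiset.mem_add] at hv
      rcases hv with hv | hv
      · exact onX_orbd hr0 h0 v hv
      · exact onX_orbd hr0 h0' v hv
    · rw [C_1, one_mul, hW a b, hab, hP]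
  have hex : ∀ t, ∃ s, Rep2 m (2 * Fintype.card (Unit → ZMod m)) (G t) s := by
    intro t
    obtain ⟨z, w, hzw, hzw'⟩ := exists_sum_mul s (P t ^ m)
    obtain ⟨a, b, ha, hb, hab⟩ := exists_roots hzw'
    exact ⟨_, hrep t a b (by rw [ha, hb, hzw]) hab⟩
  refine hF.fam _ G hPF hex _ _ (hrep 0 a b ?_ ?_) (hrep 1 a' b' ?_ ?_)
  · rw [hs]
    linear_combination hr
  · simp [hP]
  · rw [hs]
    linear_combination hr'
  · simp [hP]

lemma Good2.swap_left {n : ℕ} {F : (Fin n → 𝕜) → (Fin n → 𝕜) → 𝕜} (hF : Good2 m F)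
    {β₁ β₂ : Fin n → ZMod m} (hE : Eig2 β₁ β₂ F) (hn : 3 ≤ n) {i j : Fin n} (hij : i ≠ j)
    (hβ0 : β₁ ≠ 0) (hβ : β₁ i = β₁ j) {x y : Fin n → 𝕜} (hx : OnX m x) (hy : OnX m y) :
    F (sw i j x) y = -F x y := by
  have h1 := (hF.left hy).comp_swap hn hij hβ0 hβ hx
  rw [hE.comp, hE.comp, ← mul_neg] at h1
  exact mul_left_cancel₀ (card_ne_zeroN _) h1

lemma Eig2.diag' {n : ℕ} {F : (Fin n → 𝕜) → (Fin n → 𝕜) → 𝕜}
    {β₁ β₂ : Fin n → ZMod m} (hE : Eig2 β₁ β₂ F) (g : Fin n → ZMod m) (x : Fin n → 𝕜) :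
    F (dg g x) (dg g x) = e 𝕜 (∑ i, (β₁ i + β₂ i) * g i) * F x x := by
  rw [hE g g x x]
  congr 2
  rw [pr, pr, ← sum_add_distrib]
  exact sum_congr rfl fun i _ => by ring

/-- the exchange of the first two coordinates of both points -/
lemma Good2.swap_both {F : (Fin (M + 2) → 𝕜) → (Fin (M + 2) → 𝕜) → 𝕜} (hF : Good2 m F)
    {β₁ β₂ : Fin (M + 2) → ZMod m} (hE : Eig2 β₁ β₂ F) (h₁ : β₁ 0 = β₁ 1) (h₂ : β₂ 0 = β₂ 1)
    (h0 : β₁ 0 + β₂ 0 ≠ 0) {r : Fin M → 𝕜} (hr0 : r ≠ 0) {a b : 𝕜}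
    (hr : a ^ m + b ^ m + ∑ i, r i ^ m = 0) :
    F (cc2 b a r) (cc2 b a r) = -F (cc2 a b r) (cc2 a b r) := by
  have hgam : ∀ (x y : ZMod m), ∑ i, (β₁ i + β₂ i) * cc2 x y (fun _ : Fin M => (0 : ZMod m)) i =
      (β₁ 0 + β₂ 0) * (x + y) := by
    intro x y
    have h3 : pr (fun i => β₁ i + β₂ i) (cc2 x y fun _ : Fin M => (0 : ZMod m)) =
        (β₁ 0 + β₂ 0) * x + (β₁ 1 + β₂ 1) * y := pr_cc2 _ _ _
    rw [pr] at h3
    rw [h3, ← h₁, ← h₂]
    ring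
  have horb : ∀ a b : 𝕜, ((orbd m r a b).map fun v => F v.1 v.2).sum =
      (Fintype.card (Unit → ZMod m) : 𝕜) * F (cc2 a b r) (cc2 a b r) := by
    intro a b
    rw [orbd, Multiset.map_map]
    change ∑ κ : Unit → ZMod m, F (cc2 (e 𝕜 (κ ()) * a) (e 𝕜 (-κ ()) * b) r)
        (cc2 (e 𝕜 (κ ()) * a) (e 𝕜 (-κ ()) * b) r) = _
    rw [← nsmul_eq_mul, ← card_univ, ← sum_const]
    refine sum_congr rfl fun κ _ => ?_
    rw [← dg_cc2, hE.diag', hgam, add_neg_cancel, mul_zero, e_zero, one_mul]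
  have hr' : (e 𝕜 (1 : ZMod m) * a) ^ m + b ^ m + ∑ i, r i ^ m = 0 := by
    rw [mul_pow, e_pow_m, one_mul]
    exact hr
  have h1 := hF.orbd_const hr0 hr hr'
  rw [Multiset.map_add, Multiset.map_add, Multiset.sum_add, Multiset.sum_add, horb, horb, horb, horb,
    ← mul_add, ← mul_add] at h1
  have hcard : (Fintype.card (Unit → ZMod m) : 𝕜) ≠ 0 := Nat.cast_ne_zero.2 Fintype.card_ne_zero
  have h2 := mul_left_cancel₀ hcard h1
  have h3 : cc2 (e 𝕜 (1 : ZMod m) * a) b r = dg (cc2 (1 : ZMod m) 0 fun _ => 0) (cc2 a b r) := by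
    rw [dg_cc2, e_zero, one_mul]
  have h4 : cc2 b (e 𝕜 (1 : ZMod m) * a) r = dg (cc2 (0 : ZMod m) 1 fun _ => 0) (cc2 b a r) := by
    rw [dg_cc2, e_zero, one_mul]
  rw [h3, h4, hE.diag', hE.diag', hgam, hgam, add_zero, zero_add, mul_one, ← mul_add] at h2
  have h7 : (e 𝕜 (β₁ 0 + β₂ 0) - 1) * (F (cc2 a b r) (cc2 a b r) + F (cc2 b a r) (cc2 b a r)) = 0 := by
    rw [sub_mul, one_mul, ← h2, sub_self]
  have h8 := (mul_eq_zero.1 h7).resolve_left (sub_ne_zero.2 fun h9 => h0 (by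
    rw [← e_zero (𝕜 := 𝕜) (m := m)] at h9
    exact e_inj h9))
  exact eq_neg_of_add_eq_zero_right h8

lemma sw_cc2 (a b : 𝕜) (r : Fin M → 𝕜) : sw 0 1 (cc2 a b r) = cc2 b a r := by
  funext i
  refine Fin.cases ?_ (fun i => ?_) i
  · rw [sw, Equiv.swap_apply_left]
    rfl
  · refine Fin.cases ?_ (fun i => ?_) i
    · change cc2 a b r (Equiv.swap 0 1 1) = _
      rw [Equiv.swap_apply_right]
      rfl
    · rw [sw, Equiv.swap_apply_of_ne_of_ne]
      · rfl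
      · exact Fin.succ_ne_zero _
      · intro h
        exact Fin.succ_ne_zero i (Fin.succ_injective _ h)

/-- pairs of equal points, the characters agree at the first two places -/
lemma Good2.diag_swap {F : (Fin (M + 3) → 𝕜) → (Fin (M + 3) → 𝕜) → 𝕜} (hF : Good2 m F)
    {β₁ β₂ : Fin (M + 3) → ZMod m} (hE : Eig2 β₁ β₂ F) (h₁ : β₁ 0 = β₁ 1) (h₂ : β₂ 0 = β₂ 1)
    (h0 : β₁ 0 + β₂ 0 ≠ 0) (hβ₁ : ∀ i, β₁ i ≠ 0) (hβ₂ : β₂ ≠ 0) {x : Fin (M + 3) → 𝕜}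
    (hx : OnX m x) : F x x = 0 := by
  by_cases hx2 : x 2 = 0
  · exact hE.left_zero (hβ₁ 2) hx2 x
  have hβ₁0 : β₁ ≠ 0 := fun h => hβ₁ 0 (congrFun h 0)
  set r : Fin (M + 1) → 𝕜 := fun i => x i.succ.succ with hr
  have hxr : cc2 (x 0) (x 1) r = x := cc2_eta x
  have hr0 : r ≠ 0 := fun h => hx2 (congrFun h 0)
  have hrs : x 0 ^ m + x 1 ^ m + ∑ i, r i ^ m = 0 := by
    rw [← sum_cc2 (x 0) (x 1) r fun a => a ^ m, hxr]
    exact hx.2
  have h3 := hF.swap_both hE h₁ h₂ h0 hr0 hrs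
  have hsw : cc2 (x 1) (x 0) r = sw 0 1 x := by rw [← sw_cc2, hxr]
  rw [hxr, hsw] at h3
  have hx' : OnX m (sw 0 1 x) := onX_perm (Equiv.swap 0 1) hx
  have h4 := hF.swap_left hE (by omega) (i := 0) (j := 1) Fin.zero_ne_one hβ₁0 h₁ hx hx'
  have h5 := hF.symm.swap_left hE.symm (by omega) (i := 0) (j := 1) Fin.zero_ne_one hβ₂ h₂ hx hx
  rw [h4, h5, neg_neg] at h3
  have h6 : (2 : 𝕜) * F x x = 0 := by linear_combination h3
  exact (mul_eq_zero.1 h6).resolve_left two_ne_zero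

end Pool.Agent.T2H37.PR
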