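import Pool.Agent.T2H37.PR.Kill

/-!
# The theorem on zero-cycles on products of Fermat hypersurfaces
-/

set_option autoImplicit false
set_option linter.unusedSectionVars false
set_option linter.unusedSimpArgs false

namespace Pool.Agent.T2H37.PR

open MvPolynomial Finset Pool.Agent.T2H37.FK

variable {𝕜 : Type*} [Field 𝕜] [IsAlgClosed 𝕜] [CharZero 𝕜]

variable {K : ℕ} {N : Fin K → ℕ} {m : ℕ}

/-- the point of the product with given coordinates -/
noncomputable def mkP (v : ∀ k, Fin (N k) → 𝕜) (h : OnP m v) : Pts 𝕜 N m := fun k => mkX (v k) (h k)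

open Classical in
/-- the function on tuples of vectors defined by a function on the points -/
noncomputable def extP (φ : Pts 𝕜 N m → 𝕜) (v : ∀ k, Fin (N k) → 𝕜) : 𝕜 :=
  if h : OnP m v then φ (mkP v h) else 0

lemma extP_of (φ : Pts 𝕜 N m → 𝕜) {v : ∀ k, Fin (N k) → 𝕜} (h : OnP m v) :
    extP φ v = φ (mkP v h) := dif_pos h

lemma onP_rep (x : Pts 𝕜 N m) : OnP m fun k => (x k).1.rep := fun k => onX_rep (x k)

lemma onP_smul {k : Fin K} {c : 𝕜} (hc : c ≠ 0) {v : ∀ k, Fin (N k) → 𝕜} (h : OnP m v) :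
    OnP m (Function.update v k (c • v k)) := h.update (onX_smul hc (h k))

lemma mkP_smul {k : Fin K} {c : 𝕜} (hc : c ≠ 0) {v : ∀ k, Fin (N k) → 𝕜} (h : OnP m v) :
    mkP (Function.update v k (c • v k)) (onP_smul hc h) = mkP v h := by
  funext k'
  apply Subtype.ext
  by_cases hk : k' = k
  · subst hk
    refine (Projectivization.mk_eq_mk_iff' 𝕜 _ _ _ _).2 ⟨c, ?_⟩
    rw [Function.update_self]
  · refine (Projectivization.mk_eq_mk_iff' 𝕜 _ _ _ _).2 ⟨1, ?_⟩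
    rw [Function.update_of_ne hk, one_smul]

lemma segre_smul (a : Fin K → 𝕜) (v : ∀ k, Fin (N k) → 𝕜) :
    segre (fun k => a k • v k) = C (∏ k, a k) * segre v := by
  rw [segre, segre, mul_sum]
  refine sum_congr rfl fun l _ => ?_
  rw [← mul_assoc, ← C_mul, ← prod_mul_distrib]
  rfl

lemma rep_to_chowP {d : ℕ} {F : MvPolynomial (∀ k, Fin (N k)) 𝕜}
    {s : Multiset (∀ k, Fin (N k) → 𝕜)} (h : RepP m d F s) :
    ∃ r : Fin d → Pts 𝕜 N m, IsChowForm r F ∧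
      ∀ φ : Pts 𝕜 N m → 𝕜, (s.map (extP φ)).sum = ∑ k, φ (r k) := by
  obtain ⟨hs, hX, c, hc, hF⟩ := h
  obtain ⟨L, rfl⟩ := Quotient.exists_rep s
  change L.length = d at hs
  subst hs
  have hX' : ∀ j : Fin L.length, OnP m (L[j.1]) := fun j => hX _ (List.getElem_mem j.2)
  refine ⟨fun j => mkP (L[j.1]) (hX' j), ?_, ?_⟩
  · have h1 : ∀ j : Fin L.length, ∃ a : 𝕜, a ≠ 0 ∧
        segre (L[j.1]) = C a * segre fun k => (mkP (L[j.1]) (hX' j) k).1.rep := by
      intro j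
      choose a ha using fun k => Projectivization.exists_smul_eq_mk_rep 𝕜 (L[j.1] k) (hX' j k).1
      refine ⟨∏ k, ((a k)⁻¹ : 𝕜ˣ), prod_ne_zero_iff.2 fun k _ => ((a k)⁻¹ : 𝕜ˣ).ne_zero, ?_⟩
      rw [← segre_smul]
      congr 1
      funext k
      change _ = (((a k)⁻¹ : 𝕜ˣ) : 𝕜) • (Projectivization.mk 𝕜 (L[j.1] k) (hX' j k).1).rep
      rw [← ha]
      change _ = (((a k)⁻¹ : 𝕜ˣ) : 𝕜) • ((a k : 𝕜) • L[j.1] k)
      rw [smul_smul, Units.inv_mul, one_smul]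
    choose a ha0 ha using h1
    refine ⟨c * ∏ j, a j, mul_ne_zero hc (prod_ne_zero_iff.2 fun j _ => ha0 j), ?_⟩
    rw [hF]
    change C c * (L.map segre).prod = _
    rw [← Fin.prod_univ_fun_getElem, C_mul, mul_assoc, map_prod, ← prod_mul_distrib]
    congr 1
    exact prod_congr rfl fun j _ => ha j
  · intro φ
    change (L.map (extP φ)).sum = _
    rw [← Fin.sum_univ_fun_getElem]
    exact sum_congr rfl fun j _ => extP_of φ (hX' j)

lemma goodP_of (φ : (Pts 𝕜 N m →₀ ℤ) →+ 𝕜) (hφ : ∀ z ∈ RatEquivZero 𝕜 N m, φ z = 0) :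
    GoodP m (extP fun x : Pts 𝕜 N m => φ (Finsupp.single x 1)) := by
  constructor
  · intro k c v hc hv
    rw [extP_of _ hv, extP_of _ (onP_smul hc hv), mkP_smul hc hv]
  · intro d F hF hdec s s' hs hs'
    obtain ⟨P, hP⟩ := hF
    obtain ⟨r, hr, hr'⟩ := rep_to_chowP hs
    obtain ⟨q, hq, hq'⟩ := rep_to_chowP hs'
    rw [hr', hq']
    have h1 : Joined r q := by
      refine ⟨P, fun t => ?_, ?_, ?_⟩
      · obtain ⟨s'', hs''⟩ := hdec t
        obtain ⟨p, hp, _⟩ := rep_to_chowP hs''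
        rw [hP]
        exact ⟨p, hp⟩
      · rw [hP]
        exact hr
      · rw [hP]
        exact hq
    have h2 := hφ _ (AddSubgroup.subset_closure ⟨d, r, q, h1, rfl⟩)
    rw [map_sub, map_sum, map_sum, sub_eq_zero] at h2
    exact h2

/-- The main theorem. -/
theorem main (hm : 3 ≤ m) (hmN : ∀ k, m + 3 ≤ 2 * N k) (a : (∀ k, FermatGroup 𝕜 (N k) m) →₀ ℤ)
    (ha : KillsForms a) (z : Pts 𝕜 N m →₀ ℤ) (hz : (z.sum fun _ c => c) = 0) :
    ∃ k : ℕ, 0 < k ∧ k • (a.sum fun g c => c • z.mapDomain (act g)) ∈ RatEquivZero 𝕜 N m := by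
  have : NeZero m := ⟨by omega⟩
  have hN : ∀ k, 3 ≤ N k := by
    intro k
    have := hmN k
    omega
  set w : (Pts 𝕜 N m →₀ ℤ) ⧸ RatEquivZero 𝕜 N m :=
    QuotientAddGroup.mk (a.sum fun g c => c • z.mapDomain (act g)) with hw
  have key : ∀ φ : ((Pts 𝕜 N m →₀ ℤ) ⧸ RatEquivZero 𝕜 N m) →+ 𝕜, φ w = 0 := by
    intro φ
    set ψ : (Pts 𝕜 N m →₀ ℤ) →+ 𝕜 := φ.comp (QuotientAddGroup.mk' (RatEquivZero 𝕜 N m)) with hψ
    have hψ0 : ∀ z ∈ RatEquivZero 𝕜 N m, ψ z = 0 := by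
      intro z hz
      rw [hψ, AddMonoidHom.comp_apply, QuotientAddGroup.mk'_apply,
        (QuotientAddGroup.eq_zero_iff z).2 hz, map_zero]
    have h0 : ∀ x : Pts 𝕜 N m, ∑ g ∈ a.support, (a g : 𝕜) * ψ (Finsupp.single (act g x) 1) =
        wP a (extP fun x : Pts 𝕜 N m => ψ (Finsupp.single x 1)) fun k => (x k).1.rep := by
      intro x
      rw [wP, Finsupp.sum]
      refine sum_congr rfl fun g _ => ?_
      rw [extP_of _ (onP_actV g (onP_rep x))]
      rfl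
    obtain ⟨V, h1⟩ : ∃ V : 𝕜, ∀ x : Pts 𝕜 N m,
        ∑ g ∈ a.support, (a g : 𝕜) * ψ (Finsupp.single (act g x) 1) = V := by
      by_cases hne : Nonempty (Pts 𝕜 N m)
      · obtain ⟨x₀⟩ := hne
        refine ⟨∑ g ∈ a.support, (a g : 𝕜) * ψ (Finsupp.single (act g x₀) 1), fun x => ?_⟩
        rw [h0 x, h0 x₀]
        exact (goodP_of ψ hψ0).wP_const hm hN hmN a ha (onP_rep x) (onP_rep x₀)
      · exact ⟨0, fun x => absurd ⟨x⟩ hne⟩
    have h2 : φ w = ψ (a.sum fun g c => c • z.mapDomain (act g)) := rfl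
    rw [h2, Finsupp.sum, map_sum]
    have h3 : ∀ g : ∀ k, FermatGroup 𝕜 (N k) m, ψ (a g • z.mapDomain (act g)) =
        ∑ x ∈ z.support, (z x : 𝕜) * ((a g : 𝕜) * ψ (Finsupp.single (act g x) 1)) := by
      intro g
      rw [map_zsmul, Finsupp.mapDomain, Finsupp.sum, map_sum, zsmul_eq_mul, mul_sum]
      refine sum_congr rfl fun x _ => ?_
      have h4 : (Finsupp.single (act g x) (z x) : Pts 𝕜 N m →₀ ℤ) =
          z x • Finsupp.single (act g x) 1 := by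
        rw [Finsupp.smul_single, smul_eq_mul, mul_one]
      rw [h4, map_zsmul, zsmul_eq_mul]
      ring
    simp only [h3]
    rw [sum_comm]
    simp only [← mul_sum, h1]
    rw [← sum_mul]
    have h5 : ∑ x ∈ z.support, (z x : 𝕜) = 0 := by
      have h6 : ((z.sum fun _ c => c : ℤ) : 𝕜) = 0 := by rw [hz]; simp
      rw [Finsupp.sum] at h6
      rw [← h6]
      push_cast
      rfl
    rw [h5, zero_mul]
  obtain ⟨k, hk, hkw⟩ := torsion_of w key
  refine ⟨k, hk, ?_⟩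
  rw [hw, ← QuotientAddGroup.mk_nsmul] at hkw
  exact (QuotientAddGroup.eq_zero_iff _).1 hkw

end Pool.Agent.T2H37.PR
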