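import Pool.Agent.T2H37.PR.WKill
import Pool.Agent.T2H37.PR.Final

/-!
# The theorems on zero-cycles on products of Fermat hypersurfaces, with permutations of the factors
-/

set_option autoImplicit false
set_option linter.unusedSectionVars false
set_option linter.unusedSimpArgs false

namespace Pool.Agent.T2H37.PR

open MvPolynomial Finset Pool.Agent.T2H37.FK

section good

variable {𝕜 : Type*} [Field 𝕜] [IsAlgClosed 𝕜] [CharZero 𝕜]

variable {K : ℕ} {N : Fin K → ℕ} {m : ℕ} [NeZero m] {f : (∀ k, Fin (N k) → 𝕜) → 𝕜}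

/-- the characters whose component does not vanish -/
lemma GoodP.alpha_cases (hf : GoodP m f) (hm : 3 ≤ m) (hN : ∀ k, 3 ≤ N k)
    (hmN : ∀ k, m + 3 ≤ 2 * N k) (α : ∀ k, Fin (N k) → ZMod m) :
    (∀ w : ∀ k, Fin (N k) → 𝕜, OnP m w → PR.compP f α w = 0) ∨
      (∀ k, α k ≠ 0 → ∀ i, α k i ≠ 0) ∧
        ∃ t : (ZMod m)ˣ, ∀ k, α k ≠ 0 → ∑ i, ((t : ZMod m) * α k i).val = m := by
  classical
  by_cases hz : ∀ w : ∀ k, Fin (N k) → 𝕜, OnP m w → PR.compP f α w = 0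
  · exact Or.inl hz
  right
  have h0 : ∀ k, ∑ i, α k i = 0 := by
    intro k
    by_contra h
    exact hz fun w hw => hf.comp_sum_ne h hw
  have hmin : ∀ k, α k ≠ 0 → ∀ B : Finset (Fin (N k)), B.Nonempty → B ≠ univ →
      ∑ i ∈ B, α k i ≠ 0 := by
    intro k hk B hB hB' h
    exact hz fun w hw => hf.comp_B_zero hB hB' hk h hw
  have hne : ∀ k, α k ≠ 0 → ∀ i, α k i ≠ 0 := by
    intro k hk i
    have h1 := hmin k hk {i} (singleton_nonempty i) (by
      intro h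
      have h1 := congrArg Finset.card h
      rw [card_singleton, card_univ, Fintype.card_fin] at h1
      have := hN k
      omega)
    rwa [sum_singleton] at h1
  refine ⟨hne, ?_⟩
  have hone : ∀ k, ∃ t : (ZMod m)ˣ, α k ≠ 0 → ∑ i, ((t : ZMod m) * α k i).val = m := by
    intro k
    by_cases hk : α k = 0
    · exact ⟨1, fun h => absurd hk h⟩
    · obtain ⟨t, ht⟩ := Pool.Agent.T2H37.FB.index_one (by omega) (α k) (h0 k) (hmin k hk)
        (by rw [Fintype.card_fin]; have := hmN k; omega)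
      exact ⟨t, fun _ => ht⟩
  choose t ht using hone
  by_cases hex : ∃ k, α k ≠ 0
  · obtain ⟨k₀, hk₀⟩ := hex
    refine ⟨t k₀, fun k hk => ?_⟩
    by_cases hkt : t k = t k₀
    · rw [← hkt]
      exact ht k hk
    · exfalso
      apply hz
      intro w hw
      have hkk : k ≠ k₀ := by
        rintro rfl
        exact hkt rfl
      obtain ⟨b₁, b₂, h3, h4, h5⟩ := three_blocks hm (hne k hk) (hne k₀ hk₀) hkt (ht k hk)
        (ht k₀ hk₀) (hmN k) (hmN k₀)
      obtain ⟨b, hb₁, hb₂⟩ : ∃ b : ∀ k, Fin (N k) → Fin 3, b k = b₁ ∧ b k₀ = b₂ := by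
        refine ⟨Function.update (Function.update (fun _ _ => 0) k b₁) k₀ b₂, ?_, ?_⟩
        · rw [Function.update_of_ne hkk, Function.update_self]
        · rw [Function.update_self]
      refine hf.comp_three hkk (b := b) h0 ?_ ?_ ?_ (hne k hk) (hne k₀ hk₀) hw
      · intro B
        rw [hb₁, hb₂]
        exact h3 B
      · rw [hb₁]
        exact h4
      · rw [hb₂]
        exact h5
  · push Not at hex
    exact ⟨1, fun k hk => absurd (hex k) hk⟩

/-- the components with nontrivial characters exactly in the factors in `S` are killed -/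
theorem GoodP.wQ_type (hf : GoodP m f) (hm : 3 ≤ m) (hN : ∀ k, 3 ≤ N k)
    (hmN : ∀ k, m + 3 ≤ 2 * N k) (a : PAut 𝕜 N m →₀ ℤ) {α : ∀ k, Fin (N k) → ZMod m}
    {S : Finset (Fin K)} (hS : ∀ k, k ∈ S ↔ α k ≠ 0) (ha : KillsType a S)
    {v : ∀ k, Fin (N k) → 𝕜} (hv : OnP m v) : wQ a (PR.compP f α) v = 0 := by
  rcases hf.alpha_cases hm hN hmN α with h1 | ⟨h1, t, ht⟩
  · refine sum_eq_zero fun g _ => ?_
    simp only
    rw [h1 _ (onP_vec g hv), mul_zero]
  · exact hf.wQ_minimal hm hN a hS ha (fun k hk => h1 k ((hS k).1 hk)) t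
      (fun k hk => ht k ((hS k).1 hk)) hv

lemma sum_wQ (a : PAut 𝕜 N m →₀ ℤ) (w : ∀ k, Fin (N k) → 𝕜) :
    ∑ α : ∀ k, Fin (N k) → ZMod m, wQ a (PR.compP f α) w =
      (Fintype.card (∀ k, Fin (N k) → ZMod m) : 𝕜) * wQ a f w := by
  simp only [wQ, Finsupp.sum]
  rw [sum_comm]
  simp only [← mul_sum, sum_compP]
  rw [mul_sum]
  refine sum_congr rfl fun g _ => ?_
  ring

/-- the combinations are constant -/
theorem GoodP.wQ_const (hf : GoodP m f) (hm : 3 ≤ m) (hN : ∀ k, 3 ≤ N k)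
    (hmN : ∀ k, m + 3 ≤ 2 * N k) (a : PAut 𝕜 N m →₀ ℤ)
    (ha : ∀ S : Finset (Fin K), S.Nonempty → KillsType a S)
    {v v' : ∀ k, Fin (N k) → 𝕜} (hv : OnP m v) (hv' : OnP m v') : wQ a f v = wQ a f v' := by
  classical
  have hα : ∀ α : ∀ k, Fin (N k) → ZMod m, α ≠ 0 → ∀ v, OnP m v → wQ a (PR.compP f α) v = 0 := by
    intro α hα0 v hv
    obtain ⟨k₀, hk₀⟩ : ∃ k, α k ≠ 0 := by
      by_contra hcon
      push Not at hcon
      exact hα0 (funext hcon)
    have hS : ∀ k, k ∈ univ.filter (fun k => α k ≠ 0) ↔ α k ≠ 0 := by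
      intro k
      simp
    exact hf.wQ_type hm hN hmN a hS (ha _ ⟨k₀, (hS k₀).2 hk₀⟩) hv
  have h2 : ∀ w : ∀ k, Fin (N k) → 𝕜, OnP m w →
      ∑ α : ∀ k, Fin (N k) → ZMod m, wQ a (PR.compP f α) w =
        wQ a (PR.compP f (0 : ∀ k, Fin (N k) → ZMod m)) w := by
    intro w hw
    refine sum_eq_single 0 (fun α _ hα0 => hα α hα0 w hw) fun h => absurd (mem_univ _) h
  refine mul_left_cancel₀ (card_ne_zeroP (𝕜 := 𝕜) (N := N) (m := m)) ?_
  rw [← sum_wQ, ← sum_wQ, h2 v hv, h2 v' hv']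
  simp only [wQ, Finsupp.sum]
  refine sum_congr rfl fun g _ => ?_
  rw [hf.comp_zero (fun k => by have := hN k; omega) (onP_vec g hv) (onP_vec g hv')]

end good

section final

variable {𝕜 : Type*} [Field 𝕜] [IsAlgClosed 𝕜] [CharZero 𝕜]

variable {K : ℕ} {N : Fin K → ℕ} {m : ℕ}

/-- the zero-cycles killed by all additive functions with values in `𝕜` -/
lemma torsion_of' (w : Pts 𝕜 N m →₀ ℤ)
    (h : ∀ ψ : (Pts 𝕜 N m →₀ ℤ) →+ 𝕜, (∀ z ∈ RatEquivZero 𝕜 N m, ψ z = 0) → ψ w = 0) :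
    ∃ k : ℕ, 0 < k ∧ k • w ∈ RatEquivZero 𝕜 N m := by
  have key : ∀ φ : ((Pts 𝕜 N m →₀ ℤ) ⧸ RatEquivZero 𝕜 N m) →+ 𝕜,
      φ (QuotientAddGroup.mk w) = 0 := by
    intro φ
    refine h (φ.comp (QuotientAddGroup.mk' (RatEquivZero 𝕜 N m))) fun z hz => ?_
    rw [AddMonoidHom.comp_apply, QuotientAddGroup.mk'_apply,
      (QuotientAddGroup.eq_zero_iff z).2 hz, map_zero]
  obtain ⟨k, hk, hkw⟩ := torsion_of _ key
  refine ⟨k, hk, ?_⟩
  rw [← QuotientAddGroup.mk_nsmul] at hkw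
  exact (QuotientAddGroup.eq_zero_iff _).1 hkw

lemma wQ_ext [NeZero m] (a : PAut 𝕜 N m →₀ ℤ) (ψ : (Pts 𝕜 N m →₀ ℤ) →+ 𝕜) (x : Pts 𝕜 N m) :
    wQ a (extP fun x : Pts 𝕜 N m => ψ (Finsupp.single x 1)) (fun k => (x k).1.rep) =
      ∑ g ∈ a.support, (a g : 𝕜) * ψ (Finsupp.single (g.act x) 1) := by
  rw [wQ, Finsupp.sum]
  refine sum_congr rfl fun g _ => ?_
  rw [extP_of _ (onP_vec g (onP_rep x))]
  rfl

lemma psi_mapDomain (a : PAut 𝕜 N m →₀ ℤ) (ψ : (Pts 𝕜 N m →₀ ℤ) →+ 𝕜) (z : Pts 𝕜 N m →₀ ℤ) :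
    ψ (a.sum fun g c => c • z.mapDomain g.act) =
      ∑ x ∈ z.support, (z x : 𝕜) * ∑ g ∈ a.support, (a g : 𝕜) * ψ (Finsupp.single (g.act x) 1) := by
  rw [Finsupp.sum, map_sum]
  have h3 : ∀ g : PAut 𝕜 N m, ψ (a g • z.mapDomain g.act) =
      ∑ x ∈ z.support, (z x : 𝕜) * ((a g : 𝕜) * ψ (Finsupp.single (g.act x) 1)) := by
    intro g
    rw [map_zsmul, Finsupp.mapDomain, Finsupp.sum, map_sum, zsmul_eq_mul, mul_sum]
    refine sum_congr rfl fun x _ => ?_
    have h4 : (Finsupp.single (g.act x) (z x) : Pts 𝕜 N m →₀ ℤ) =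
        z x • Finsupp.single (g.act x) 1 := by
      rw [Finsupp.smul_single, smul_eq_mul, mul_one]
    rw [h4, map_zsmul, zsmul_eq_mul]
    ring
  simp only [h3]
  rw [sum_comm]
  simp only [← mul_sum]

/-- The theorem on all zero-cycles of degree zero. -/
theorem mainU (hm : 3 ≤ m) (hmN : ∀ k, m + 3 ≤ 2 * N k) (a : PAut 𝕜 N m →₀ ℤ)
    (ha : ∀ S : Finset (Fin K), S.Nonempty → KillsType a S) (z : Pts 𝕜 N m →₀ ℤ)
    (hz : (z.sum fun _ c => c) = 0) :
    ∃ k : ℕ, 0 < k ∧ k • (a.sum fun g c => c • z.mapDomain g.act) ∈ RatEquivZero 𝕜 N m := by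
  have : NeZero m := ⟨by omega⟩
  have hN : ∀ k, 3 ≤ N k := by
    intro k
    have := hmN k
    omega
  refine torsion_of' _ fun ψ hψ0 => ?_
  rw [psi_mapDomain]
  obtain ⟨V, h1⟩ : ∃ V : 𝕜, ∀ x : Pts 𝕜 N m,
      ∑ g ∈ a.support, (a g : 𝕜) * ψ (Finsupp.single (g.act x) 1) = V := by
    by_cases hne : Nonempty (Pts 𝕜 N m)
    · obtain ⟨x₀⟩ := hne
      refine ⟨∑ g ∈ a.support, (a g : 𝕜) * ψ (Finsupp.single (g.act x₀) 1), fun x => ?_⟩
      rw [← wQ_ext, ← wQ_ext]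
      exact (goodP_of ψ hψ0).wQ_const hm hN hmN a ha (onP_rep x) (onP_rep x₀)
    · exact ⟨0, fun x => absurd ⟨x⟩ hne⟩
  simp only [h1]
  rw [← sum_mul]
  have h5 : ∑ x ∈ z.support, (z x : 𝕜) = 0 := by
    have h6 : ((z.sum fun _ c => c : ℤ) : 𝕜) = 0 := by rw [hz]; simp
    rw [Finsupp.sum] at h6
    rw [← h6]
    push_cast
    rfl
  rw [h5, zero_mul]

/-! ### Products of cycles of degree zero -/

lemma sum_pi_zero {X : Fin K → Type*} (z : ∀ k, X k →₀ ℤ) (k₁ : Fin K)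
    (hz : ((z k₁).sum fun _ c => c) = 0) (G : (∀ k, X k) → 𝕜)
    (hG : ∀ (x : ∀ k, X k) (y : X k₁), G (Function.update x k₁ y) = G x) :
    ∑ x ∈ Fintype.piFinset fun k => (z k).support, (∏ k, (z k (x k) : 𝕜)) * G x = 0 := by
  classical
  set T := Fintype.piFinset fun k => (z k).support with hT
  set h : (∀ k, X k) → 𝕜 := fun x => (∏ k, (z k (x k) : 𝕜)) * G x with hh
  by_cases hse : (z k₁).support = ∅
  · have h1 : T = ∅ := by
      rw [Finset.eq_empty_iff_forall_notMem]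
      intro x hx
      have h2 := Fintype.mem_piFinset.1 hx k₁
      rw [hse] at h2
      exact absurd h2 (Finset.notMem_empty _)
    rw [h1, sum_empty]
  have hcard : ((z k₁).support.card : 𝕜) ≠ 0 := by
    rw [Nat.cast_ne_zero]
    exact (card_pos.2 (nonempty_iff_ne_empty.2 hse)).ne'
  have hmap : ∀ p ∈ T ×ˢ (z k₁).support,
      (Function.update p.1 k₁ p.2, p.1 k₁) ∈ T ×ˢ (z k₁).support := by
    rintro ⟨x, y⟩ hxy
    rw [mem_product] at hxy ⊢
    refine ⟨?_, Fintype.mem_piFinset.1 hxy.1 k₁⟩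
    rw [hT, Fintype.mem_piFinset]
    intro k
    by_cases hk : k = k₁
    · subst hk
      simp only [Function.update_self]
      exact hxy.2
    · simp only [Function.update_of_ne hk]
      exact Fintype.mem_piFinset.1 hxy.1 k
  have h1 : ∑ p ∈ T ×ˢ (z k₁).support, h (Function.update p.1 k₁ p.2) =
      ∑ p ∈ T ×ˢ (z k₁).support, h p.1 := by
    refine sum_nbij' (fun p => (Function.update p.1 k₁ p.2, p.1 k₁))
      (fun p => (Function.update p.1 k₁ p.2, p.1 k₁)) hmap hmap ?_ ?_ ?_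
    · rintro ⟨x, y⟩ _
      simp
    · rintro ⟨x, y⟩ _
      simp
    · rintro ⟨x, y⟩ _
      rfl
  rw [sum_product, sum_product] at h1
  simp only at h1
  have h2 : ∀ x : (∀ k, X k), ∑ y ∈ (z k₁).support, h (Function.update x k₁ y) = 0 := by
    intro x
    have h3 : ∀ y, h (Function.update x k₁ y) =
        (z k₁ y : 𝕜) * ((∏ k ∈ univ.erase k₁, (z k (x k) : 𝕜)) * G x) := by
      intro y
      rw [hh]
      simp only
      rw [hG, ← mul_prod_erase univ _ (mem_univ k₁), Function.update_self, mul_assoc]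
      congr 2
      refine prod_congr rfl fun k hk => ?_
      rw [Function.update_of_ne (mem_erase.1 hk).1]
    simp only [h3]
    rw [← sum_mul]
    have h5 : ∑ y ∈ (z k₁).support, (z k₁ y : 𝕜) = 0 := by
      have h6 : (((z k₁).sum fun _ c => c : ℤ) : 𝕜) = 0 := by rw [hz]; simp
      rw [Finsupp.sum] at h6
      rw [← h6]
      push_cast
      rfl
    rw [h5, zero_mul]
  rw [sum_eq_zero fun x _ => h2 x] at h1
  have h3 : ∑ x ∈ T, ∑ _y ∈ (z k₁).support, h x = ((z k₁).support.card : 𝕜) * ∑ x ∈ T, h x := by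
    rw [mul_sum]
    refine sum_congr rfl fun x _ => ?_
    rw [sum_const, nsmul_eq_mul]
  rw [← h1] at h3
  exact (mul_eq_zero.1 h3.symm).resolve_left hcard

lemma sum_supp_zero (z : ∀ k, Fermat 𝕜 (N k) m →₀ ℤ) (k₁ : Fin K)
    (hz : ((z k₁).sum fun _ c => c) = 0) (G : Pts 𝕜 N m → 𝕜)
    (hG : ∀ x x' : Pts 𝕜 N m, (∀ k, k ≠ k₁ → x k = x' k) → G x = G x') :
    ∑ x ∈ prodSupp z, (∏ k, (z k (x k) : 𝕜)) * G x = 0 :=
  sum_pi_zero z k₁ hz G fun x y => hG _ _ fun k hk => Function.update_of_ne hk y x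

/-- The theorem on the products of zero-cycles of degree zero. -/
theorem mainT (hm : 3 ≤ m) (hmN : ∀ k, m + 3 ≤ 2 * N k) (a : PAut 𝕜 N m →₀ ℤ)
    (ha : KillsType a univ) (z : ∀ k, Fermat 𝕜 (N k) m →₀ ℤ)
    (hz : ∀ k, ((z k).sum fun _ c => c) = 0) :
    ∃ k : ℕ, 0 < k ∧ k • (a.sum fun g c => c • (extProd z).mapDomain g.act) ∈
      RatEquivZero 𝕜 N m := by
  classical
  have : NeZero m := ⟨by omega⟩
  have hN : ∀ k, 3 ≤ N k := by
    intro k
    have := hmN k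
    omega
  refine torsion_of' _ fun ψ hψ0 => ?_
  set F : (∀ k, Fin (N k) → 𝕜) → 𝕜 := extP fun x : Pts 𝕜 N m => ψ (Finsupp.single x 1) with hF
  have hFG : GoodP m F := goodP_of ψ hψ0
  set T := prodSupp z with hT
  have h1 : ψ (a.sum fun g c => c • (extProd z).mapDomain g.act) =
      ∑ x ∈ T, (∏ k, (z k (x k) : 𝕜)) * wQ a F fun k => (x k).1.rep := by
    rw [Finsupp.sum, map_sum]
    have h3 : ∀ g : PAut 𝕜 N m, ψ (a g • (extProd z).mapDomain g.act) =
        ∑ x ∈ T, (∏ k, (z k (x k) : 𝕜)) * ((a g : 𝕜) * ψ (Finsupp.single (g.act x) 1)) := by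
      intro g
      rw [map_zsmul, extProd, Finsupp.mapDomain_finsetSum, map_sum, zsmul_eq_mul, mul_sum]
      refine sum_congr rfl fun x _ => ?_
      rw [Finsupp.mapDomain_single]
      have h4 : (Finsupp.single (g.act x) (∏ k, z k (x k)) : Pts 𝕜 N m →₀ ℤ) =
          (∏ k, z k (x k)) • Finsupp.single (g.act x) 1 := by
        rw [Finsupp.smul_single, smul_eq_mul, mul_one]
      rw [h4, map_zsmul, zsmul_eq_mul]
      push_cast
      ring
    simp only [h3]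
    rw [sum_comm]
    refine sum_congr rfl fun x _ => ?_
    rw [← mul_sum, hF, wQ_ext]
  rw [h1]
  refine mul_left_cancel₀ (card_ne_zeroP (𝕜 := 𝕜) (N := N) (m := m)) ?_
  rw [mul_zero, mul_sum]
  have h2 : ∀ x : Pts 𝕜 N m, (Fintype.card (∀ k, Fin (N k) → ZMod m) : 𝕜) *
      ((∏ k, (z k (x k) : 𝕜)) * wQ a F fun k => (x k).1.rep) =
      ∑ α : ∀ k, Fin (N k) → ZMod m, (∏ k, (z k (x k) : 𝕜)) *
        wQ a (PR.compP F α) fun k => (x k).1.rep := by
    intro x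
    rw [← mul_sum, sum_wQ]
    ring
  simp only [h2]
  rw [sum_comm]
  refine sum_eq_zero fun α _ => ?_
  by_cases hα : ∀ k, α k ≠ 0
  · refine sum_eq_zero fun x _ => ?_
    rw [hFG.wQ_type hm hN hmN a (S := univ) (fun k => ⟨fun _ => hα k, fun _ => mem_univ k⟩) ha
      (onP_rep x), mul_zero]
  · push Not at hα
    obtain ⟨k₀, hk₀⟩ := hα
    simp only [wQ, Finsupp.sum]
    simp only [mul_sum]
    rw [sum_comm]
    refine sum_eq_zero fun g _ => ?_
    refine sum_supp_zero z (g.perm k₀) (hz _) (fun x => (a g : 𝕜) *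
      PR.compP F α (g.vec fun k => (x k).1.rep)) fun x x' hxx => ?_
    congr 1
    refine hFG.comp_congr (fun k => by have := hN k; omega) (onP_vec g (onP_rep _))
      (onP_vec g (onP_rep _)) fun k hk => ?_
    have hkk : g.perm k ≠ g.perm k₀ := by
      intro h
      apply hk
      rw [g.perm.injective h, hk₀]
    rw [PAut.vec, PAut.vec, hxx _ hkk]

end final

end Pool.Agent.T2H37.PR
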