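import Pool.Agent.T2H37.PR.Dg1
import Pool.Agent.T2H37.PR.Dg2
import Pool.Agent.T2H37.PR.WFinal

/-!
# Tuples with two factors in one orbit
-/

set_option autoImplicit false
set_option linter.unusedSectionVars false
set_option linter.unusedSimpArgs false

namespace Pool.Agent.T2H37.PR

open MvPolynomial Finset Pool.Agent.T2H37.FK

section pigeon

/-- the weight of a pair -/
def wt (q : ℕ × ℕ) : ℕ := if q = (1, 1) then 2 else if q = (1, 2) ∨ q = (2, 1) then 1 else 0

lemma pigeon {m n : ℕ} (hmn : m + 3 ≤ 2 * n) (a b : Fin n → ℕ) (ha : ∀ i, 1 ≤ a i)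
    (hb : ∀ i, 1 ≤ b i) (hsa : ∑ i, a i = m) (hsb : ∑ i, b i = m) :
    ∃ i j, i ≠ j ∧ a i = a j ∧ b i = b j := by
  by_contra hcon
  push Not at hcon
  have hinj : Function.Injective fun i => (a i, b i) := by
    intro i j hij
    by_contra h
    exact hcon i j h (congrArg Prod.fst hij) (congrArg Prod.snd hij)
  have h1 : ∑ i, wt (a i, b i) = ∑ q ∈ univ.image fun i => (a i, b i), wt q := by
    rw [sum_image fun i _ j _ h => hinj h]
  have h2 : ∑ q ∈ univ.image (fun i => (a i, b i)), wt q ≤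
      ∑ q ∈ ({(1, 1), (1, 2), (2, 1)} : Finset (ℕ × ℕ)), wt q := by
    refine sum_le_sum_of_ne_zero fun q _ hq => ?_
    rw [wt] at hq
    simp only [mem_insert, mem_singleton]
    split_ifs at hq with h3 h4
    · exact Or.inl h3
    · exact Or.inr h4
    · exact absurd rfl hq
  have h3 : ∑ q ∈ ({(1, 1), (1, 2), (2, 1)} : Finset (ℕ × ℕ)), wt q = 4 := by decide
  have h4 : ∀ i, 4 ≤ a i + b i + wt (a i, b i) := by
    intro i
    have h5 := ha i
    have h6 := hb i
    rw [wt]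
    split_ifs with h7 h8
    · have := congrArg Prod.fst h7
      have := congrArg Prod.snd h7
      simp only at *
      omega
    · rcases h8 with h8 | h8
      · have := congrArg Prod.fst h8
        have := congrArg Prod.snd h8
        simp only at *
        omega
      · have := congrArg Prod.fst h8
        have := congrArg Prod.snd h8
        simp only at *
        omega
    · have h9 : ¬(a i = 1 ∧ b i = 1) := fun h => h7 (Prod.ext h.1 h.2)
      have h10 : ¬(a i = 1 ∧ b i = 2) := fun h => h8 (Or.inl (Prod.ext h.1 h.2))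
      have h11 : ¬(a i = 2 ∧ b i = 1) := fun h => h8 (Or.inr (Prod.ext h.1 h.2))
      omega
  have h5 : ∑ _i : Fin n, 4 ≤ ∑ i, (a i + b i + wt (a i, b i)) := sum_le_sum fun i _ => h4 i
  rw [sum_add_distrib, sum_add_distrib, hsa, hsb, h1, sum_const, card_univ, Fintype.card_fin,
    smul_eq_mul] at h5
  omega

end pigeon

variable {𝕜 : Type*} [Field 𝕜] [IsAlgClosed 𝕜] [CharZero 𝕜] {m n : ℕ} [NeZero m]

/-- pairs of equal points, the characters agree at two places -/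
lemma Good2.diag_swap' {F : (Fin n → 𝕜) → (Fin n → 𝕜) → 𝕜} (hF : Good2 m F)
    {β₁ β₂ : Fin n → ZMod m} (hE : Eig2 β₁ β₂ F) (hn : 3 ≤ n) {i j : Fin n} (hij : i ≠ j)
    (h₁ : β₁ i = β₁ j) (h₂ : β₂ i = β₂ j) (h0 : β₁ i + β₂ i ≠ 0) (hβ₁ : ∀ i, β₁ i ≠ 0)
    (hβ₂ : β₂ ≠ 0) {x : Fin n → 𝕜} (hx : OnX m x) : F x x = 0 := by
  obtain ⟨M, rfl⟩ : ∃ M, n = M + 3 := ⟨n - 3, by omega⟩
  obtain ⟨τ, hτ0, hτ1⟩ : ∃ τ : Equiv.Perm (Fin (M + 3)), τ 0 = i ∧ τ 1 = j := by
    have hj0 : Equiv.swap 0 i j ≠ 0 := by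
      intro h
      apply hij
      have h3 := congrArg (Equiv.swap 0 i) h
      rw [Equiv.swap_apply_self, Equiv.swap_apply_left] at h3
      exact h3.symm
    refine ⟨Equiv.swap 0 i * Equiv.swap 1 (Equiv.swap 0 i j), ?_, ?_⟩
    · rw [Equiv.Perm.mul_apply, Equiv.swap_apply_of_ne_of_ne Fin.zero_ne_one hj0.symm,
        Equiv.swap_apply_left]
    · rw [Equiv.Perm.mul_apply, Equiv.swap_apply_left, Equiv.swap_apply_self]
  have hG : Good2 m fun x y => F (relab τ x) (relab τ y) :=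
    hF.pull (relab τ) (relab τ) (fun x hx => onX_relab τ.symm hx) (fun x hx => onX_relab τ.symm hx)
  have hrd : ∀ (g : Fin (M + 3) → ZMod m) (x : Fin (M + 3) → 𝕜),
      relab τ (dg g x) = dg (fun j => g (τ.symm j)) (relab τ x) := fun g x => rfl
  have hE' : Eig2 (fun l => β₁ (τ l)) (fun l => β₂ (τ l)) fun x y => F (relab τ x) (relab τ y) := by
    intro g h x y
    simp only [hrd]
    rw [hE, pr_relab τ (β := fun l => β₁ (τ l)) (β' := β₁) (fun _ => rfl) g,
      pr_relab τ (β := fun l => β₂ (τ l)) (β' := β₂) (fun _ => rfl) h]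
  have h3 := hG.diag_swap hE' (by rw [hτ0, hτ1, h₁]) (by rw [hτ0, hτ1, h₂]) (by rw [hτ0]; exact h0)
    (fun l => hβ₁ _) (fun h => hβ₂ (funext fun l => by
      have h4 := congrFun h (τ.symm l)
      simp only [Equiv.apply_symm_apply] at h4
      exact h4)) (x := fun l => x (τ l)) (onX_relab τ hx)
  have h4 : relab τ (fun l => x (τ l)) = x := by
    funext l
    change x (τ (τ.symm l)) = x l
    rw [Equiv.apply_symm_apply]
  simp only [h4] at h3
  exact h3

/-- pairs of equal points, characters of index one -/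
lemma Good2.diag_core {F : (Fin n → 𝕜) → (Fin n → 𝕜) → 𝕜} (hF : Good2 m F)
    {β₁ β₂ : Fin n → ZMod m} (hE : Eig2 β₁ β₂ F) (hm : 3 ≤ m) (hmn : m + 3 ≤ 2 * n)
    (t : (ZMod m)ˣ) (h₁ : ∀ i, β₁ i ≠ 0) (h₂ : ∀ i, β₂ i ≠ 0)
    (hs₁ : ∑ i, ((t : ZMod m) * β₁ i).val = m) (hs₂ : ∑ i, ((t : ZMod m) * β₂ i).val = m)
    {x : Fin n → 𝕜} (hx : OnX m x) : F x x = 0 := by
  have hn : 3 ≤ n := by omega
  have hpos : ∀ β : Fin n → ZMod m, (∀ i, β i ≠ 0) → ∀ i, 1 ≤ ((t : ZMod m) * β i).val := by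
    intro β hβ i
    rw [Nat.one_le_iff_ne_zero, Ne, ZMod.val_eq_zero]
    intro h
    exact hβ i ((Units.mul_right_eq_zero t).1 h)
  have hinj : ∀ {a b : ZMod m}, ((t : ZMod m) * a).val = ((t : ZMod m) * b).val → a = b := by
    intro a b h
    exact t.isUnit.mul_left_cancel (ZMod.val_injective m h)
  have hsum : ∀ β : Fin n → ZMod m, ∑ i, ((t : ZMod m) * β i).val = m → ∑ i, β i = 0 := by
    intro β hβ
    have h3 := congrArg (Nat.cast : ℕ → ZMod m) hβ
    push_cast at h3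
    rw [ZMod.natCast_self] at h3
    simp only [ZMod.natCast_val, ZMod.cast_id', id_eq] at h3
    rw [← mul_sum] at h3
    exact (Units.mul_right_eq_zero t).1 h3
  obtain ⟨i, j, hij, h3, h4⟩ := pigeon hmn _ _ (hpos β₁ h₁) (hpos β₂ h₂) hs₁ hs₂
  by_cases h5 : β₁ i + β₂ i = 0
  · by_cases h6 : ∀ l, β₁ l + β₂ l = 0
    · exact hF.diag_const hE hn h6 (h₁ i) hx
    · push Not at h6
      obtain ⟨l, hl⟩ := h6
      refine hF.diag_turn hE hn ?_ h₁ h5 hl hx
      rw [sum_add_distrib, hsum β₁ hs₁, hsum β₂ hs₂, add_zero]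
  · exact hF.diag_swap' hE hn hij (hinj h3) (hinj h4) h5 h₁ (fun h => h₂ i (congrFun h i)) hx

section slices

variable {K : ℕ} {N : Fin K → ℕ} {f : (∀ k, Fin (N k) → 𝕜) → 𝕜}

lemma slice_eig {α : ∀ k, Fin (N k) → ZMod m} {k₁ k₂ : Fin K} (hk : k₁ ≠ k₂)
    (v : ∀ k, Fin (N k) → 𝕜) : Eig2 (α k₁) (α k₂) fun x y =>
      PR.compP f α (Function.update (Function.update v k₁ x) k₂ y) := by
  intro g h x y
  simp only
  set G : ∀ k, Fin (N k) → ZMod m := Pi.single k₁ g + Pi.single k₂ h with hG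
  have h1 : Function.update (Function.update v k₁ (dg g x)) k₂ (dg h y) =
      PR.dgP G (Function.update (Function.update v k₁ x) k₂ y) := by
    funext k
    by_cases h2 : k = k₂
    · subst h2
      rw [Function.update_self, PR.dgP, Function.update_self, hG, Pi.add_apply,
        Pi.single_eq_of_ne hk.symm, zero_add, Pi.single_eq_same]
    · rw [Function.update_of_ne h2, PR.dgP, Function.update_of_ne h2, hG, Pi.add_apply,
        Pi.single_eq_of_ne h2, add_zero]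
      by_cases h3 : k = k₁
      · subst h3
        rw [Function.update_self, Function.update_self, Pi.single_eq_same]
      · rw [Function.update_of_ne h3, Function.update_of_ne h3, Pi.single_eq_of_ne h3, dg_zero']
  have h2 : prP α G = pr (α k₁) g + pr (α k₂) h := by
    have h3 := pr_single_add α (Pi.single k₁ g) k₂ h
    have h4 := pr_single_add α 0 k₁ g
    rw [zero_add] at h4
    have h5 : prP α 0 = 0 := by simp [prP, pr]
    rw [hG, h3, h4, h5, zero_add]
  rw [h1, compP_dg, h2]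

end slices

/-- a matrix that preserves the Fermat form, as a linear map -/
noncomputable def mlin (g : FermatGroup 𝕜 n m) : (Fin n → 𝕜) →ₗ[𝕜] (Fin n → 𝕜) :=
  Matrix.mulVecLin g.1.1

lemma mlin_apply (g : FermatGroup 𝕜 n m) (x : Fin n → 𝕜) : mlin g x = g.1.1.mulVec x := rfl

variable {K : ℕ} {f : (∀ _ : Fin K, Fin n → 𝕜) → 𝕜}

/-- the components vanish at the tuples with two points in one orbit -/
theorem GoodP.diag_zero (hf : GoodP (N := fun _ : Fin K => n) m f) (hm : 3 ≤ m)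
    (hmn : m + 3 ≤ 2 * n) (α : ∀ _ : Fin K, Fin n → ZMod m) {k₁ k₂ : Fin K} (hk : k₁ ≠ k₂)
    (h₁ : α k₁ ≠ 0) (h₂ : α k₂ ≠ 0) {v : ∀ _ : Fin K, Fin n → 𝕜}
    (hv : OnP (N := fun _ : Fin K => n) m v) {x : Fin n → 𝕜} (hx : OnX m x)
    (g₁ g₂ : FermatGroup 𝕜 n m) (hv₁ : v k₁ = g₁.1.1.mulVec x) (hv₂ : v k₂ = g₂.1.1.mulVec x) :
    PR.compP (N := fun _ : Fin K => n) f α v = 0 := by
  have hn : 3 ≤ n := by omega
  rcases hf.alpha_cases hm (fun _ => hn) (fun _ => hmn) α with h3 | ⟨h3, t, ht⟩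
  · exact h3 v hv
  obtain ⟨κ₁, σ₁, hg₁⟩ := monomial_form hm g₁
  obtain ⟨κ₂, σ₂, hg₂⟩ := monomial_form hm g₂
  set F : (Fin n → 𝕜) → (Fin n → 𝕜) → 𝕜 := fun x y =>
    PR.compP (N := fun _ : Fin K => n) f α (Function.update (Function.update v k₁ x) k₂ y) with hF
  have hFG : Good2 m F := (hf.compP α).slice2 hv hk
  have hFE : Eig2 (α k₁) (α k₂) F := slice_eig (N := fun _ : Fin K => n) hk v
  have hG : Good2 m fun x y => F (mlin g₁ x) (mlin g₂ y) :=
    hFG.pull (mlin g₁) (mlin g₂) (fun x hx => onX_mulVec g₁ hx) (fun x hx => onX_mulVec g₂ hx)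
  have hmd : ∀ (g : FermatGroup 𝕜 n m) (κ : Fin n → ZMod m) (σ : Equiv.Perm (Fin n)),
      (∀ l j, g.1.1 l j = if j = σ l then e 𝕜 (κ l) else 0) → ∀ (h : Fin n → ZMod m)
      (x : Fin n → 𝕜), mlin g (dg h x) = dg (fun l => h (σ l)) (mlin g x) := by
    intro g κ σ hg h x
    rw [mlin_apply, mlin_apply, mulVec_of_mono hg, mulVec_of_mono hg]
    funext l
    simp only [dg]
    ring
  have hpr : ∀ (β h : Fin n → ZMod m) (σ : Equiv.Perm (Fin n)),
      pr β (fun l => h (σ l)) = pr (fun l => β (σ.symm l)) h := by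
    intro β h σ
    rw [pr, pr, ← Equiv.sum_comp σ fun l => β (σ.symm l) * h l]
    refine sum_congr rfl fun l _ => ?_
    rw [Equiv.symm_apply_apply]
  have hGE : Eig2 (fun l => α k₁ (σ₁.symm l)) (fun l => α k₂ (σ₂.symm l))
      fun x y => F (mlin g₁ x) (mlin g₂ y) := by
    intro g h x y
    simp only
    rw [hmd g₁ κ₁ σ₁ hg₁, hmd g₂ κ₂ σ₂ hg₂, hFE, hpr, hpr]
  have h4 := hG.diag_core hGE hm hmn t (fun l => h3 k₁ h₁ _) (fun l => h3 k₂ h₂ _)
    (by
      rw [Equiv.sum_comp σ₁.symm fun l => ((t : ZMod m) * α k₁ l).val]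
      exact ht k₁ h₁)
    (by
      rw [Equiv.sum_comp σ₂.symm fun l => ((t : ZMod m) * α k₂ l).val]
      exact ht k₂ h₂) hx
  simp only [mlin_apply, ← hv₁, ← hv₂, hF] at h4
  rw [Function.update_eq_self, Function.update_eq_self] at h4
  exact h4

end Pool.Agent.T2H37.PR
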