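import Pool.Agent.T2H37.PR.Dg3
import Pool.Agent.T2H37.PR.DDefs

/-!
# The theorems on tuples with two factors in one orbit
-/

set_option autoImplicit false
set_option linter.unusedSectionVars false
set_option linter.unusedSimpArgs false

namespace Pool.Agent.T2H37.PR

open MvPolynomial Finset Pool.Agent.T2H37.FK

section vec

variable {𝕜 : Type*} [Field 𝕜] [IsAlgClosed 𝕜] [CharZero 𝕜] {K m n : ℕ} [NeZero m]
  {f : (∀ _ : Fin K, Fin n → 𝕜) → 𝕜}

lemma GoodP.comp_o (hf : GoodP (N := fun _ : Fin K => n) m f) (hm : 3 ≤ m)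
    (hmn : m + 3 ≤ 2 * n) (α : ∀ _ : Fin K, Fin n → ZMod m) {k : Fin K} (h : α k ≠ 0)
    {v : ∀ _ : Fin K, Fin n → 𝕜} (hv : OnP (N := fun _ : Fin K => n) m v) {i : Fin n}
    (hi : v k i = 0) : PR.compP (N := fun _ : Fin K => n) f α v = 0 := by
  rcases hf.alpha_cases hm (fun _ => by omega) (fun _ => hmn) α with h3 | ⟨h3, _⟩
  · exact h3 v hv
  · exact compP_coord_zero (N := fun _ : Fin K => n) (h3 k h i) hi

/-- the value at a tuple of points in one orbit -/
theorem GoodP.diag_add (hf : GoodP (N := fun _ : Fin K => n) m f) (hm : 3 ≤ m)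
    (hmn : m + 3 ≤ 2 * n) {x : Fin n → 𝕜} (hx : OnX m x) {o : Fin n → 𝕜} (ho : OnX m o)
    {i₀ : Fin n} (hoi : o i₀ = 0) (g : Fin K → FermatGroup 𝕜 n m) :
    f (fun k => (g k).1.1.mulVec x) =
      ∑ k, f (Function.update (fun _ => o) k ((g k).1.1.mulVec x)) - ((K : 𝕜) - 1) * f fun _ => o := by
  classical
  set v : ∀ _ : Fin K, Fin n → 𝕜 := fun k => (g k).1.1.mulVec x with hvd
  have hv : OnP (N := fun _ : Fin K => n) m v := fun k => onX_mulVec (g k) hx
  have hō : OnP (N := fun _ : Fin K => n) m fun _ => o := fun k => ho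
  have hu : ∀ k, OnP (N := fun _ : Fin K => n) m (Function.update (fun _ => o) k (v k)) :=
    fun k => hō.update (hv k)
  have key : ∀ α : ∀ _ : Fin K, Fin n → ZMod m, PR.compP (N := fun _ : Fin K => n) f α v =
      ∑ k, PR.compP (N := fun _ : Fin K => n) f α (Function.update (fun _ => o) k (v k)) -
        ((K : 𝕜) - 1) * PR.compP (N := fun _ : Fin K => n) f α fun _ => o := by
    intro α
    by_cases h0 : α = 0
    · subst h0
      have hc := fun w hw => hf.comp_zero (fun _ => by omega) (v := w) (v' := v) hw hv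
      rw [hc _ hō]
      have h1 : ∀ k ∈ (univ : Finset (Fin K)), PR.compP (N := fun _ : Fin K => n) f 0
          (Function.update (fun _ => o) k (v k)) = PR.compP (N := fun _ : Fin K => n) f 0 v :=
        fun k _ => hc _ (hu k)
      rw [sum_congr rfl h1, sum_const, card_univ, Fintype.card_fin, nsmul_eq_mul]
      ring
    · obtain ⟨k₀, hk₀⟩ : ∃ k, α k ≠ 0 := by
        by_contra hcon
        push Not at hcon
        exact h0 (funext hcon)
      have h2 : PR.compP (N := fun _ : Fin K => n) f α (fun _ => o) = 0 :=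
        hf.comp_o hm hmn α hk₀ hō hoi
      have h3 : ∀ k, k ≠ k₀ → PR.compP (N := fun _ : Fin K => n) f α
          (Function.update (fun _ => o) k (v k)) = 0 := by
        intro k hk
        refine hf.comp_o hm hmn α hk₀ (hu k) (i := i₀) ?_
        rw [Function.update_of_ne hk.symm]
        exact hoi
      rw [h2, mul_zero, sub_zero, sum_eq_single k₀ (fun k _ hk => h3 k hk)
        (fun h => absurd (mem_univ _) h)]
      by_cases h4 : ∃ k, k ≠ k₀ ∧ α k ≠ 0
      · obtain ⟨k₁, hk₁, hk₁'⟩ := h4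
        rw [hf.diag_zero hm hmn α hk₁ hk₁' hk₀ hv hx (g k₁) (g k₀) rfl rfl]
        symm
        refine hf.comp_o hm hmn α hk₁' (hu k₀) (i := i₀) ?_
        rw [Function.update_of_ne hk₁]
        exact hoi
      · push Not at h4
        refine hf.comp_congr (fun _ => by omega) hv (hu k₀) fun k hk => ?_
        have h5 : k = k₀ := by
          by_contra h
          exact hk (h4 k h)
        subst h5
        rw [Function.update_self]
  refine mul_left_cancel₀ (card_ne_zeroP (𝕜 := 𝕜) (N := fun _ : Fin K => n) (m := m)) ?_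
  rw [mul_sub, ← sum_compP, mul_left_comm, ← sum_compP (N := fun _ : Fin K => n) f fun _ => o, mul_sum]
  have h1 : ∀ k, (Fintype.card (∀ _ : Fin K, Fin n → ZMod m) : 𝕜) *
      f (Function.update (fun _ => o) k ((g k).1.1.mulVec x)) =
      ∑ α : ∀ _ : Fin K, Fin n → ZMod m, PR.compP (N := fun _ : Fin K => n) f α
        (Function.update (fun _ => o) k (v k)) :=
    fun k => (sum_compP (N := fun _ : Fin K => n) f _).symm
  rw [sum_congr rfl fun k _ => h1 k, sum_comm, mul_sum, ← sum_sub_distrib]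
  exact sum_congr rfl fun α _ => key α

lemma exists_o (hn : 3 ≤ n) : ∃ (o : Fin n → 𝕜) (i : Fin n), OnX m o ∧ o i = 0 := by
  obtain ⟨M, rfl⟩ : ∃ M, n = M + 3 := ⟨n - 3, by omega⟩
  obtain ⟨ξ, hξ⟩ := IsAlgClosed.exists_pow_nat_eq (-1 : 𝕜) (NeZero.pos m)
  refine ⟨cc2 1 ξ fun _ : Fin (M + 1) => 0, 2, ⟨?_, ?_⟩, rfl⟩
  · intro h
    exact one_ne_zero (congrFun h 0)
  · rw [sum_cc2 1 ξ (fun _ : Fin (M + 1) => (0 : 𝕜)) fun a => a ^ m, one_pow, hξ]
    simp [zero_pow (NeZero.ne m)]

end vec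

section main

variable {𝕜 : Type*} [Field 𝕜] [IsAlgClosed 𝕜] [CharZero 𝕜] {K m n : ℕ}

/-- The theorem on the morphisms from the hypersurface to its powers. -/
theorem mainD (hm : 3 ≤ m) (hmn : m + 3 ≤ 2 * n) (a : (Fin K → FermatGroup 𝕜 n m) →₀ ℤ)
    (ha : KillsPull a) (z : Fermat 𝕜 n m →₀ ℤ) (hz : (z.sum fun _ c => c) = 0) :
    ∃ j : ℕ, 0 < j ∧ j • (a.sum fun g c => c • z.mapDomain (tup g)) ∈
      RatEquivZero 𝕜 (fun _ : Fin K => n) m := by
  classical
  have : NeZero m := ⟨by omega⟩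
  have hn : 3 ≤ n := by omega
  refine torsion_of' _ fun ψ hψ0 => ?_
  set F : (∀ _ : Fin K, Fin n → 𝕜) → 𝕜 :=
    extP fun x : Pts 𝕜 (fun _ : Fin K => n) m => ψ (Finsupp.single x 1) with hF
  have hFG : GoodP (N := fun _ : Fin K => n) m F := goodP_of ψ hψ0
  obtain ⟨o, i₀, ho, hoi⟩ := exists_o (𝕜 := 𝕜) (m := m) hn
  -- the slices
  have hslice : ∀ k : Fin K, ∃ V : 𝕜, ∀ x : Fin n → 𝕜, OnX m x →
      ∑ g ∈ a.support, (a g : 𝕜) * F (Function.update (fun _ => o) k ((g k).1.1.mulVec x)) = V := by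
    intro k
    have hō : OnP (N := fun _ : Fin K => n) m fun _ => o := fun k => ho
    obtain ⟨V, hV⟩ := (hFG.slice hō k).wavg_const hm hn hmn (a.mapDomain fun g => g k) (by
      intro d P hd hP v
      have h1 := ha k d P hd hP v
      rw [← h1, Finsupp.sum_mapDomain_index (by intro g; simp)
        (by intro g b c; push_cast; ring)])
    refine ⟨V, fun x hx => ?_⟩
    rw [← hV x hx, wavg, Finsupp.sum_mapDomain_index (by intro g; simp)
      (by intro g b c; push_cast; ring)]
    rfl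
  choose V hV using hslice
  have hconst : ∀ x : Fermat 𝕜 n m, ∑ g ∈ a.support, (a g : 𝕜) * ψ (Finsupp.single (tup g x) 1) =
      ∑ k, V k - (∑ g ∈ a.support, (a g : 𝕜)) * (((K : 𝕜) - 1) * F fun _ => o) := by
    intro x
    have hx : OnX m x.1.rep := onX_rep x
    have h1 : ∀ g : Fin K → FermatGroup 𝕜 n m, ψ (Finsupp.single (tup g x) 1) =
        F fun k => (g k).1.1.mulVec x.1.rep := by
      intro g
      rw [hF, extP_of _ (fun k => onX_mulVec (g k) hx)]
      rfl
    simp only [h1, hFG.diag_add hm hmn hx ho hoi, mul_sub, sum_sub_distrib]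
    rw [sum_mul]
    congr 1
    simp only [mul_sum]
    rw [sum_comm]
    exact sum_congr rfl fun k _ => hV k _ hx
  rw [Finsupp.sum, map_sum]
  have h3 : ∀ g : Fin K → FermatGroup 𝕜 n m, ψ (a g • z.mapDomain (tup g)) =
      ∑ x ∈ z.support, (z x : 𝕜) * ((a g : 𝕜) * ψ (Finsupp.single (tup g x) 1)) := by
    intro g
    rw [map_zsmul, Finsupp.mapDomain, Finsupp.sum, map_sum, zsmul_eq_mul, mul_sum]
    refine sum_congr rfl fun x _ => ?_
    have h4 : (Finsupp.single (tup g x) (z x) : Pts 𝕜 (fun _ : Fin K => n) m →₀ ℤ) =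
        z x • Finsupp.single (tup g x) 1 := by
      rw [Finsupp.smul_single, smul_eq_mul, mul_one]
    rw [h4, map_zsmul, zsmul_eq_mul]
    ring
  simp only [h3]
  rw [sum_comm]
  simp only [← mul_sum, hconst]
  rw [← sum_mul]
  have h5 : ∑ x ∈ z.support, (z x : 𝕜) = 0 := by
    have h6 : ((z.sum fun _ c => c : ℤ) : 𝕜) = 0 := by rw [hz]; simp
    rw [Finsupp.sum] at h6
    rw [← h6]
    push_cast
    rfl
  rw [h5, zero_mul]

/-- The theorem on the products of differences of points. -/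
theorem mainE (hm : 3 ≤ m) (hmn : m + 3 ≤ 2 * n) (x o : Fin K → Fermat 𝕜 n m)
    (ho : ∀ k, ∃ i, (o k).1.rep i = 0) {k₁ k₂ : Fin K} (hk : k₁ ≠ k₂) (g : FermatGroup 𝕜 n m)
    (hg : x k₂ = FK.act g (x k₁)) :
    ∃ j : ℕ, 0 < j ∧ j • extProd (N := fun _ : Fin K => n)
      (fun k => Finsupp.single (x k) 1 - Finsupp.single (o k) 1) ∈
      RatEquivZero 𝕜 (fun _ : Fin K => n) m := by
  classical
  have : NeZero m := ⟨by omega⟩
  have hn : 3 ≤ n := by omega
  set z : Fin K → (Fermat 𝕜 n m →₀ ℤ) :=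
    fun k => Finsupp.single (x k) 1 - Finsupp.single (o k) 1 with hz
  have hz0 : ∀ k, ((z k).sum fun _ c => c) = 0 := by
    intro k
    rw [hz]
    simp only
    rw [Finsupp.sum_sub_index (by intro _ b c; rfl), Finsupp.sum_single_index rfl,
      Finsupp.sum_single_index rfl, sub_self]
  refine torsion_of' _ fun ψ hψ0 => ?_
  set F : (∀ _ : Fin K, Fin n → 𝕜) → 𝕜 :=
    extP fun x : Pts 𝕜 (fun _ : Fin K => n) m => ψ (Finsupp.single x 1) with hF
  have hFG : GoodP (N := fun _ : Fin K => n) m F := goodP_of ψ hψ0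
  set T := prodSupp (N := fun _ : Fin K => n) z with hT
  have h1 : ψ (extProd (N := fun _ : Fin K => n) z) =
      ∑ y ∈ T, (∏ k, (z k (y k) : 𝕜)) * F fun k => (y k).1.rep := by
    rw [extProd, map_sum]
    refine sum_congr rfl fun y _ => ?_
    have h4 : (Finsupp.single y (∏ k, z k (y k)) : Pts 𝕜 (fun _ : Fin K => n) m →₀ ℤ) =
        (∏ k, z k (y k)) • Finsupp.single y 1 := by
      rw [Finsupp.smul_single, smul_eq_mul, mul_one]
    have h5 : mkP (N := fun _ : Fin K => n) (fun k => (y k).1.rep) (onP_rep y) = y := by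
      funext k
      exact mkX_rep (y k)
    rw [h4, map_zsmul, zsmul_eq_mul, hF, extP_of _ (onP_rep y), h5]
    push_cast
    ring
  rw [h1]
  refine mul_left_cancel₀ (card_ne_zeroP (𝕜 := 𝕜) (N := fun _ : Fin K => n) (m := m)) ?_
  rw [mul_zero, mul_sum]
  have h2 : ∀ y : Pts 𝕜 (fun _ : Fin K => n) m,
      (Fintype.card (∀ _ : Fin K, Fin n → ZMod m) : 𝕜) *
      ((∏ k, (z k (y k) : 𝕜)) * F fun k => (y k).1.rep) =
      ∑ α : ∀ _ : Fin K, Fin n → ZMod m, (∏ k, (z k (y k) : 𝕜)) *
        PR.compP (N := fun _ : Fin K => n) F α fun k => (y k).1.rep := by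
    intro y
    rw [← mul_sum, sum_compP]
    ring
  simp only [h2]
  rw [sum_comm]
  refine sum_eq_zero fun α _ => ?_
  by_cases hα : ∀ k, α k ≠ 0
  · refine sum_eq_zero fun y hy => ?_
    by_cases hyo : ∃ k, y k = o k
    · obtain ⟨k, hk'⟩ := hyo
      obtain ⟨i, hi⟩ := ho k
      rw [hFG.comp_o hm hmn α (hα k) (onP_rep y) (i := i) (by rw [hk']; exact hi), mul_zero]
    · push Not at hyo
      have hyx : ∀ k, y k = x k := by
        intro k
        have h3 := Fintype.mem_piFinset.1 hy k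
        rw [Finsupp.mem_support_iff] at h3
        by_contra h4
        apply h3
        rw [hz]
        simp only
        rw [Finsupp.sub_apply, Finsupp.single_eq_of_ne (Ne.symm fun h => h4 h.symm),
          Finsupp.single_eq_of_ne (Ne.symm fun h => hyo k h.symm), sub_zero]
      obtain ⟨c, hc⟩ := Projectivization.exists_smul_eq_mk_rep 𝕜 (g.1.1.mulVec (x k₁).1.rep)
        (mulVec_ne_zero g.1 (x k₁).1.rep_nonzero)
      have h3 : (y k₂).1.rep = (c : 𝕜) • g.1.1.mulVec (x k₁).1.rep := by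
        rw [hyx, hg]
        exact hc.symm
      set v : ∀ _ : Fin K, Fin n → 𝕜 :=
        Function.update (fun k => (y k).1.rep) k₂ (g.1.1.mulVec (x k₁).1.rep) with hv
      have hvP : OnP (N := fun _ : Fin K => n) m v :=
        OnP.update (N := fun _ : Fin K => n) (onP_rep y) (onX_mulVec g (onX_rep (x k₁)))
      have h4 : (fun k => (y k).1.rep) = Function.update v k₂ ((c : 𝕜) • v k₂) := by
        rw [hv, Function.update_self, Function.update_idem, ← h3, Function.update_eq_self]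
      have h5 := (hFG.compP α).smul k₂ (c : 𝕜) v c.ne_zero hvP
      rw [h4, h5, hFG.diag_zero hm hmn α hk (hα k₁) (hα k₂) hvP (onX_rep (x k₁)) 1 g ?_ ?_, mul_zero]
      · rw [hv, Function.update_of_ne hk, hyx]
        change _ = (1 : Matrix (Fin n) (Fin n) 𝕜).mulVec _
        rw [Matrix.one_mulVec]
      · rw [hv, Function.update_self]
  · push Not at hα
    obtain ⟨k₀, hk₀⟩ := hα
    refine sum_supp_zero (N := fun _ : Fin K => n) z k₀ (hz0 k₀)
      (fun y => PR.compP (N := fun _ : Fin K => n) F α fun k => (y k).1.rep) fun y y' hyy => ?_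
    refine hFG.comp_congr (fun _ => by omega) (onP_rep _) (onP_rep _) fun k hk => ?_
    rw [hyy k fun h => hk (by rw [h, hk₀])]

end main

end Pool.Agent.T2H37.PR
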