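import Pool.Agent.T2H37.PR.Swap

/-!
# Exchange of two points
-/

set_option autoImplicit false
set_option linter.unusedSectionVars false
set_option linter.unusedSimpArgs false

namespace Pool.Agent.T2H37.PR

open MvPolynomial Finset Pool.Agent.T2H37.FK

variable {𝕜 : Type*} [Field 𝕜] [IsAlgClosed 𝕜] [CharZero 𝕜] {m : ℕ} [NeZero m]

section eig

variable {N₁ N₂ : ℕ} {β₁ : Fin N₁ → ZMod m} {β₂ : Fin N₂ → ZMod m}
  {F : (Fin N₁ → 𝕜) → (Fin N₂ → 𝕜) → 𝕜}

lemma dg_zero' {n : ℕ} (x : Fin n → 𝕜) : dg (0 : Fin n → ZMod m) x = x := by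
  funext i
  simp [dg, e_zero]

lemma pr_zero' {n : ℕ} (β : Fin n → ZMod m) : pr β 0 = 0 := by simp [pr]

lemma pr_single' {n : ℕ} (β : Fin n → ZMod m) (i : Fin n) (c : ZMod m) :
    pr β (Pi.single i c) = β i * c := by
  rw [pr, sum_eq_single i]
  · rw [Pi.single_eq_same]
  · intro j _ hj
    rw [Pi.single_eq_of_ne hj, mul_zero]
  · intro h
    exact absurd (mem_univ _) h

lemma Eig2.symm (hE : Eig2 β₁ β₂ F) : Eig2 β₂ β₁ fun y x => F x y := by
  intro g h x y
  change F (dg h y) (dg g x) = e 𝕜 (pr β₂ g + pr β₁ h) * F y x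
  rw [hE h g y x, add_comm]

lemma Eig2.left (hE : Eig2 β₁ β₂ F) (g : Fin N₁ → ZMod m) (x : Fin N₁ → 𝕜) (y : Fin N₂ → 𝕜) :
    F (dg g x) y = e 𝕜 (pr β₁ g) * F x y := by
  have h1 := hE g 0 x y
  rw [dg_zero', pr_zero', add_zero] at h1
  exact h1

lemma Eig2.left_zero (hE : Eig2 β₁ β₂ F) {i : Fin N₁} (hi : β₁ i ≠ 0) {x : Fin N₁ → 𝕜}
    (hx : x i = 0) (y : Fin N₂ → 𝕜) : F x y = 0 := by
  have h1 : dg (Pi.single i (1 : ZMod m)) x = x := by
    funext j
    by_cases hj : j = i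
    · rw [hj, dg, hx, mul_zero]
    · rw [dg, Pi.single_eq_of_ne hj, e_zero, one_mul]
  have h2 := hE.left (Pi.single i 1) x y
  rw [h1, pr_single', mul_one] at h2
  have h3 : (e 𝕜 (β₁ i) - 1) * F x y = 0 := by
    rw [sub_mul, one_mul, ← h2, sub_self]
  exact (mul_eq_zero.1 h3).resolve_left (sub_ne_zero.2 fun h4 => hi (by
    rw [← e_zero (𝕜 := 𝕜) (m := m)] at h4
    exact e_inj h4))

lemma Eig2.comp (hE : Eig2 β₁ β₂ F) (x : Fin N₁ → 𝕜) (y : Fin N₂ → 𝕜) :
    FK.comp (fun x => F x y) β₁ x = (Fintype.card (Fin N₁ → ZMod m) : 𝕜) * F x y := by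
  rw [FK.comp, ← nsmul_eq_mul, ← card_univ, ← sum_const]
  refine sum_congr rfl fun g _ => ?_
  rw [hE.left, ← mul_assoc, ← e_add, neg_add_cancel, e_zero, one_mul]

lemma Good2.B_zero (hF : Good2 m F) (hE : Eig2 β₁ β₂ F) {B : Finset (Fin N₁)} (hB : B.Nonempty)
    (hB' : B ≠ univ) (hβ0 : β₁ ≠ 0) (hβ : ∑ i ∈ B, β₁ i = 0) {x : Fin N₁ → 𝕜} {y : Fin N₂ → 𝕜}
    (hx : OnX m x) (hy : OnX m y) : F x y = 0 := by
  have h1 := (hF.left hy).comp_B_zero hB hB' hβ0 hβ hx
  rw [hE.comp] at h1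
  exact (mul_eq_zero.1 h1).resolve_left (card_ne_zeroN _)

end eig

/-- if the first two coordinates of a point form a point of the hypersurface, then the function
vanishes -/
lemma Good2.Z_zero {M N₂ : ℕ} {β₁ : Fin (M + 3) → ZMod m} {β₂ : Fin N₂ → ZMod m}
    {F : (Fin (M + 3) → 𝕜) → (Fin N₂ → 𝕜) → 𝕜} (hF : Good2 m F) (hE : Eig2 β₁ β₂ F)
    (hβ : ∀ i, β₁ i ≠ 0) {x : Fin (M + 3) → 𝕜} {y : Fin N₂ → 𝕜} (hx : OnX m x) (hy : OnX m y)
    (hs : x 0 ^ m + x 1 ^ m = 0) : F x y = 0 := by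
  by_cases h2 : x 2 = 0
  · exact hE.left_zero (hβ 2) h2 y
  set v : Fin (M + 3) → 𝕜 := cc2 0 0 fun i : Fin (M + 1) => x i.succ.succ with hv
  have hseg : ∀ t, OnX m (seg v x t) := by
    intro t
    constructor
    · intro h
      have h3 := congrFun h 2
      rw [seg_apply] at h3
      have h4 : v 2 = x 2 := rfl
      rw [h4, sub_self, mul_zero, add_zero] at h3
      exact h2 h3
    · have h3 : ∑ i : Fin (M + 1), x i.succ.succ ^ m = 0 := by
        have h4 := hx.2
        rw [← cc2_eta x, sum_cc2 (x 0) (x 1) (fun i : Fin (M + 1) => x i.succ.succ) fun a => a ^ m,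
          hs, zero_add] at h4
        exact h4
      have h5 : seg v x t = cc2 (t * x 0) (t * x 1) fun i : Fin (M + 1) => x i.succ.succ := by
        funext i
        rw [seg_apply]
        refine Fin.cases ?_ (fun i => ?_) i
        · change 0 + t * (x 0 - 0) = t * x 0
          ring
        · refine Fin.cases ?_ (fun i => ?_) i
          · change 0 + t * (x 1 - 0) = t * x 1
            ring
          · change x i.succ.succ + t * (x i.succ.succ - x i.succ.succ) = x i.succ.succ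
            ring
      rw [h5, sum_cc2 (t * x 0) (t * x 1) (fun i : Fin (M + 1) => x i.succ.succ) fun a => a ^ m, h3,
        mul_pow, mul_pow, ← mul_add, hs, mul_zero, add_zero]
  have hrep : ∀ t, Rep m 1 (lin (seg v x t)) {seg v x t} := by
    intro t
    refine ⟨rfl, ?_, 1, one_ne_zero, ?_⟩
    · intro w hw
      rw [Multiset.mem_singleton] at hw
      rw [hw]
      exact hseg t
    · rw [Multiset.map_singleton, Multiset.prod_singleton, C_1, one_mul]
  have h3 := (hF.left hy).fam 1 (fun t => lin (seg v x t)) (FK.PF.seg_lin v x)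
    (fun t => ⟨_, hrep t⟩) _ _ (hrep 0) (hrep 1)
  rw [Multiset.map_singleton, Multiset.map_singleton, Multiset.sum_singleton,
    Multiset.sum_singleton, seg_zero, seg_one] at h3
  rw [← h3]
  exact hE.left_zero (hβ 0) rfl y

/-- the linear map that doubles the first coordinate -/
def dbl {M : ℕ} (p : Fin 2 → 𝕜) (c : 𝕜) : (Fin (M + 2) → 𝕜) →ₗ[𝕜] (Fin (M + 3) → 𝕜) where
  toFun w := cc2 (p 0 * w 0) (p 1 * w 0) fun i : Fin (M + 1) => c * w i.succ
  map_add' v w := by
    funext i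
    refine Fin.cases ?_ (fun i => ?_) i
    · change p 0 * (v 0 + w 0) = p 0 * v 0 + p 0 * w 0
      ring
    · refine Fin.cases ?_ (fun i => ?_) i
      · change p 1 * (v 0 + w 0) = p 1 * v 0 + p 1 * w 0
        ring
      · change c * (v i.succ + w i.succ) = c * v i.succ + c * w i.succ
        ring
  map_smul' a w := by
    funext i
    refine Fin.cases ?_ (fun i => ?_) i
    · change p 0 * (a * w 0) = a * (p 0 * w 0)
      ring
    · refine Fin.cases ?_ (fun i => ?_) i
      · change p 1 * (a * w 0) = a * (p 1 * w 0)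
        ring
      · change c * (a * w i.succ) = a * (c * w i.succ)
        ring

lemma dbl_apply {M : ℕ} (p : Fin 2 → 𝕜) (c : 𝕜) (w : Fin (M + 2) → 𝕜) :
    dbl p c w = cc2 (p 0 * w 0) (p 1 * w 0) fun i : Fin (M + 1) => c * w i.succ := rfl

lemma onX_dbl {M : ℕ} {p : Fin 2 → 𝕜} {c s : 𝕜} (hs : s ≠ 0) (hp : p 0 ^ m + p 1 ^ m = s)
    (hc : c ^ m = s) (w : Fin (M + 2) → 𝕜) (hw : OnX m w) : OnX m (dbl p c w) := by
  constructor
  · intro h
    apply hw.1
    funext i
    have h0 : p 0 * w 0 = 0 := congrFun h 0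
    have h1 : p 1 * w 0 = 0 := congrFun h 1
    refine Fin.cases ?_ (fun i => ?_) i
    · have h2 : s * w 0 ^ m = 0 := by
        rw [← hp, add_mul, ← mul_pow, ← mul_pow, h0, h1, zero_pow (NeZero.ne m), add_zero]
      exact (pow_eq_zero_iff (NeZero.ne m)).1 ((mul_eq_zero.1 h2).resolve_left hs)
    · have h2 : c * w i.succ = 0 := congrFun h i.succ.succ
      refine (mul_eq_zero.1 h2).resolve_left ?_
      rintro rfl
      rw [zero_pow (NeZero.ne m)] at hc
      exact hs hc.symm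
  · have h1 := hw.2
    rw [Fin.sum_univ_succ] at h1
    rw [dbl_apply, sum_cc2 (p 0 * w 0) (p 1 * w 0) (fun i : Fin (M + 1) => c * w i.succ)
      fun a => a ^ m]
    simp only [mul_pow]
    rw [← mul_sum, ← add_mul, hp, hc, ← mul_add, h1, mul_zero]

lemma dbl_dg {M : ℕ} (p : Fin 2 → 𝕜) (c : 𝕜) (g : Fin (M + 2) → ZMod m) (w : Fin (M + 2) → 𝕜) :
    dbl p c (dg g w) = dg (cc2 (g 0) (g 0) fun i : Fin (M + 1) => g i.succ) (dbl p c w) := by
  funext i
  refine Fin.cases ?_ (fun i => ?_) i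
  · change p 0 * (e 𝕜 (g 0) * w 0) = e 𝕜 (g 0) * (p 0 * w 0)
    ring
  · refine Fin.cases ?_ (fun i => ?_) i
    · change p 1 * (e 𝕜 (g 0) * w 0) = e 𝕜 (g 0) * (p 1 * w 0)
      ring
    · change c * (e 𝕜 (g i.succ) * w i.succ) = e 𝕜 (g i.succ) * (c * w i.succ)
      ring

/-- the character after doubling -/
def mrg {M : ℕ} (β : Fin (M + 3) → ZMod m) : Fin (M + 2) → ZMod m :=
  Fin.cons (β 0 + β 1) fun i : Fin (M + 1) => β i.succ.succ

lemma pr_mrg {M : ℕ} (β : Fin (M + 3) → ZMod m) (g : Fin (M + 2) → ZMod m) :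
    pr β (cc2 (g 0) (g 0) fun i : Fin (M + 1) => g i.succ) = pr (mrg β) g := by
  rw [pr, pr, Fin.sum_univ_succ, Fin.sum_univ_succ, Fin.sum_univ_succ (n := M + 1)]
  change β 0 * g 0 + (β 1 * g 0 + ∑ i : Fin (M + 1), β i.succ.succ * g i.succ) =
    (β 0 + β 1) * g 0 + ∑ i : Fin (M + 1), β i.succ.succ * g i.succ
  ring

/-- two points of the hypersurface of dimension zero -/
lemma pair_eq {x y : Fin 2 → 𝕜} (hx : OnX m x) (hy : OnX m y) :
    ∃ (c : 𝕜) (k : ZMod m), c ≠ 0 ∧ y = c • dg (Pi.single 1 k) x := by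
  have hx2 := hx.2
  have hy2 := hy.2
  rw [Fin.sum_univ_two] at hx2 hy2
  have key : ∀ z : Fin 2 → 𝕜, z ≠ 0 → z 0 ^ m + z 1 ^ m = 0 → z 0 ≠ 0 ∧ z 1 ≠ 0 := by
    intro z hz hz2
    constructor
    · intro h
      rw [h, zero_pow (NeZero.ne m), zero_add] at hz2
      have h1 := (pow_eq_zero_iff (NeZero.ne m)).1 hz2
      apply hz
      funext i
      fin_cases i
      · exact h
      · exact h1
    · intro h
      rw [h, zero_pow (NeZero.ne m), add_zero] at hz2
      have h1 := (pow_eq_zero_iff (NeZero.ne m)).1 hz2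
      apply hz
      funext i
      fin_cases i
      · exact h1
      · exact h
  obtain ⟨hx0, hx1⟩ := key x hx.1 hx2
  obtain ⟨hy0, hy1⟩ := key y hy.1 hy2
  obtain ⟨k, hk⟩ : ∃ k : ZMod m, e 𝕜 k = y 1 * x 0 / (y 0 * x 1) := by
    apply exists_e
    rw [div_pow, mul_pow, mul_pow, div_eq_one_iff_eq (mul_ne_zero (pow_ne_zero _ hy0)
      (pow_ne_zero _ hx1))]
    linear_combination hy2 * x 0 ^ m - hx2 * y 0 ^ m
  refine ⟨y 0 / x 0, k, div_ne_zero hy0 hx0, ?_⟩
  funext i
  fin_cases i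
  · change y 0 = y 0 / x 0 * (e 𝕜 ((Pi.single 1 k : Fin 2 → ZMod m) 0) * x 0)
    rw [Pi.single_eq_of_ne (by decide : (0 : Fin 2) ≠ 1), e_zero]
    field_simp
  · change y 1 = y 0 / x 0 * (e 𝕜 ((Pi.single 1 k : Fin 2 → ZMod m) 1) * x 1)
    rw [Pi.single_eq_same, hk]
    field_simp

/-- **Exchange of two points.** -/
theorem Good2.exch : ∀ (M : ℕ) (F : (Fin (M + 2) → 𝕜) → (Fin (M + 2) → 𝕜) → 𝕜), Good2 m F →
    ∀ β : Fin (M + 2) → ZMod m, (∀ i, β i ≠ 0) → Eig2 β β F →
      ∀ x y, OnX m x → OnX m y → F y x = (-1) ^ M * F x y := by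
  intro M
  induction M with
  | zero =>
    intro F hF β hβ hE x y hx hy
    obtain ⟨c, k, hc, rfl⟩ := pair_eq hx hy
    rw [hF.smul₁ c _ _ hc (onX_dg _ hx) hx, hF.smul₂ c _ _ hc hx (onX_dg _ hx), hE.left,
      hE.symm.left, pow_zero, one_mul]
  | succ M ih =>
    intro F hF β hβ hE x y hx hy
    -- the special cases
    by_cases hsx : x 0 ^ m + x 1 ^ m = 0
    · rw [hF.Z_zero hE hβ hx hy hsx, hF.symm.Z_zero hE.symm hβ hx hy hsx, mul_zero]
    by_cases hsy : y 0 ^ m + y 1 ^ m = 0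
    · rw [hF.Z_zero hE hβ hy hx hsy, hF.symm.Z_zero hE.symm hβ hy hx hsy, mul_zero]
    -- normalisation
    have key : ∀ y : Fin (M + 3) → 𝕜, OnX m y → y 0 ^ m + y 1 ^ m = x 0 ^ m + x 1 ^ m →
        F y x = (-1) ^ (M + 1) * F x y := by
      intro y hy hxy
      set s := x 0 ^ m + x 1 ^ m with hs
      set r : Fin (M + 1) → 𝕜 := fun i => x i.succ.succ with hr
      set r' : Fin (M + 1) → 𝕜 := fun i => y i.succ.succ with hr'
      have hrs : ∑ i, r i ^ m = -s := by
        have h4 := hx.2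
        rw [← cc2_eta x, sum_cc2 (x 0) (x 1) (fun i : Fin (M + 1) => x i.succ.succ) fun a => a ^ m]
          at h4
        linear_combination h4
      have hrs' : ∑ i, r' i ^ m = -s := by
        have h4 := hy.2
        rw [← cc2_eta y, sum_cc2 (y 0) (y 1) (fun i : Fin (M + 1) => y i.succ.succ) fun a => a ^ m]
          at h4
        linear_combination h4 - hxy
      have hps := hF.ps hE (hβ 0) hsx hrs hrs' (p := ![x 0, x 1]) (q := ![y 0, y 1]) rfl hxy
      by_cases h01 : β 0 + β 1 = 0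
      · have hβ0 : β ≠ 0 := fun h => hβ 0 (congrFun h 0)
        have hB : ({0, 1} : Finset (Fin (M + 3))) ≠ univ := by
          intro h
          have h1 : (2 : Fin (M + 3)) ∈ ({0, 1} : Finset (Fin (M + 3))) := by
            rw [h]
            exact mem_univ _
          rw [mem_insert, mem_singleton] at h1
          rcases h1 with h1 | h1
          · exact absurd (congrArg Fin.val h1) (by
              rw [Fin.val_zero, Fin.val_two]
              omega)
          · exact absurd (congrArg Fin.val h1) (by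
              rw [Fin.val_one, Fin.val_two]
              omega)
        have hB2 : ∑ i ∈ ({0, 1} : Finset (Fin (M + 3))), β i = 0 := by
          rw [sum_insert (by
            rw [mem_singleton]
            intro h
            exact absurd (congrArg Fin.val h) (by
              rw [Fin.val_zero, Fin.val_one]
              omega)), sum_singleton, h01]
        rw [hF.B_zero hE ⟨0, mem_insert_self _ _⟩ hB hβ0 hB2 hy hx,
          hF.B_zero hE ⟨0, mem_insert_self _ _⟩ hB hβ0 hB2 hx hy, mul_zero]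
      · obtain ⟨c, hc⟩ := IsAlgClosed.exists_pow_nat_eq s (NeZero.pos m)
        have hc0 : c ≠ 0 := by
          rintro rfl
          rw [zero_pow (NeZero.ne m)] at hc
          exact hsx hc.symm
        have hG : Good2 m fun w w' : Fin (M + 2) → 𝕜 =>
            F (dbl ![y 0, y 1] c w) (dbl ![x 0, x 1] c w') :=
          hF.pull (dbl ![y 0, y 1] c) (dbl ![x 0, x 1] c) (onX_dbl hsx hxy hc) (onX_dbl hsx rfl hc)
        have hGE : Eig2 (mrg β) (mrg β) fun w w' : Fin (M + 2) → 𝕜 =>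
            F (dbl ![y 0, y 1] c w) (dbl ![x 0, x 1] c w') := by
          intro g h w w'
          change F (dbl _ c (dg g w)) (dbl _ c (dg h w')) = _ * F (dbl _ c w) (dbl _ c w')
          rw [dbl_dg, dbl_dg, hE, pr_mrg, pr_mrg]
        have hβ' : ∀ i, mrg β i ≠ 0 := by
          intro i
          refine Fin.cases h01 (fun i => ?_) i
          exact hβ i.succ.succ
        set w : Fin (M + 2) → 𝕜 := Fin.cons 1 fun i => c⁻¹ * r i with hw
        set w' : Fin (M + 2) → 𝕜 := Fin.cons 1 fun i => c⁻¹ * r' i with hw'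
        have hon : ∀ a : Fin (M + 1) → 𝕜, ∑ i, a i ^ m = -s →
            OnX m (Fin.cons 1 fun i => c⁻¹ * a i : Fin (M + 2) → 𝕜) := by
          intro a ha
          constructor
          · intro h
            exact one_ne_zero (congrFun h 0)
          · rw [Fin.sum_univ_succ]
            simp only [Fin.cons_zero, Fin.cons_succ, mul_pow]
            rw [← mul_sum, ha, one_pow, inv_pow, hc, mul_neg, inv_mul_cancel₀ hsx, add_neg_cancel]
        have h5 := ih _ hG (mrg β) hβ' hGE w w' (hon r hrs) (hon r' hrs')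
        have h6 : ∀ (p : Fin 2 → 𝕜) (a : Fin (M + 1) → 𝕜),
            dbl p c (Fin.cons 1 fun i => c⁻¹ * a i : Fin (M + 2) → 𝕜) = cc2 (p 0) (p 1) a := by
          intro p a
          rw [dbl_apply]
          simp only [Fin.cons_zero, Fin.cons_succ, mul_one, ← mul_assoc, mul_inv_cancel₀ hc0,
            one_mul]
        rw [hw, hw', h6, h6, h6, h6] at h5
        have h7 : cc2 (![y 0, y 1] 0) (![y 0, y 1] 1) r' = y := cc2_eta y
        have h8 : cc2 (![x 0, x 1] 0) (![x 0, x 1] 1) r = x := cc2_eta x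
        rw [h7, h8, hps, h7, h8] at h5
        rw [h5, pow_succ]
        ring
    obtain ⟨c, hc⟩ := IsAlgClosed.exists_pow_nat_eq ((x 0 ^ m + x 1 ^ m) / (y 0 ^ m + y 1 ^ m))
      (NeZero.pos m)
    have hc0 : c ≠ 0 := by
      rintro rfl
      rw [zero_pow (NeZero.ne m)] at hc
      exact div_ne_zero hsx hsy hc.symm
    have h1 := key (c • y) (onX_smul hc0 hy) (by
      change (c * y 0) ^ m + (c * y 1) ^ m = _
      rw [mul_pow, mul_pow, ← mul_add, hc, div_mul_cancel₀ _ hsy])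
    rw [hF.smul₁ c _ _ hc0 hy hx, hF.smul₂ c _ _ hc0 hx hy] at h1
    exact h1

end Pool.Agent.T2H37.PR
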