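import Pool.Agent.T2H37.PR.Geo

/-!
# Norms and families of cycles on products
-/

set_option autoImplicit false
set_option linter.unusedSectionVars false
set_option linter.unusedSimpArgs false

namespace Pool.Agent.T2H37.PR

open MvPolynomial Finset Pool.Agent.T2H37.FK

variable {𝕜 : Type*} [Field 𝕜] [IsAlgClosed 𝕜] [CharZero 𝕜]

section norm

variable {m : ℕ} [NeZero m] {ι J : Type*} [Fintype ι] [DecidableEq ι] [Fintype J]

/-- multiplication of the variables `u i` by roots of unity -/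
noncomputable def tw (κ : ι → ZMod m) : MvPolynomial (ι ⊕ J) 𝕜 →ₐ[𝕜] MvPolynomial (ι ⊕ J) 𝕜 :=
  aeval fun x => C (Sum.elim (fun i => e 𝕜 (κ i)) (fun _ => (1 : 𝕜)) x) * X x

lemma tw_tw (κ κ' : ι → ZMod m) (P : MvPolynomial (ι ⊕ J) 𝕜) : tw κ (tw κ' P) = tw (κ + κ') P := by
  have h : (tw κ : MvPolynomial (ι ⊕ J) 𝕜 →ₐ[𝕜] _).comp (tw κ') = tw (κ + κ') := by
    apply MvPolynomial.algHom_ext
    intro x
    rw [AlgHom.comp_apply, tw, tw, tw, aeval_X, aeval_X, map_mul, algHom_C, algebraMap_eq, aeval_X,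
      ← mul_assoc, ← C_mul]
    congr 2
    rcases x with i | j
    · simp only [Sum.elim_inl, Pi.add_apply, e_add]
      ring
    · simp
  rw [← h]
  rfl

lemma tw_monomial (κ : ι → ZMod m) (d : ι ⊕ J →₀ ℕ) (a : 𝕜) :
    tw κ (monomial d a) = monomial d (a * ∏ i, e 𝕜 (κ i) ^ d (Sum.inl i)) := by
  rw [tw, aeval_monomial, Finsupp.prod_fintype _ _ (by intro i; rw [pow_zero])]
  simp only [mul_pow, prod_mul_distrib, ← C_pow]
  rw [← map_prod, ← mul_assoc, algebraMap_eq, ← C_mul]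
  have h1 : ∀ b : 𝕜, monomial d b = C b * ∏ x, X x ^ d x := by
    intro b
    rw [monomial_eq, Finsupp.prod_fintype _ _ (by intro i; rw [pow_zero])]
  rw [h1, Fintype.prod_sum_type (fun x => Sum.elim (fun i => e 𝕜 (κ i)) (fun _ => (1 : 𝕜)) x ^ d x)]
  simp

lemma coeff_tw (κ : ι → ZMod m) (P : MvPolynomial (ι ⊕ J) 𝕜) (d : ι ⊕ J →₀ ℕ) :
    coeff d (tw κ P) = coeff d P * ∏ i, e 𝕜 (κ i) ^ d (Sum.inl i) := by
  classical
  induction P using MvPolynomial.induction_on' with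
  | monomial d' a =>
    rw [tw_monomial, coeff_monomial, coeff_monomial]
    split_ifs with h
    · rw [h]
    · rw [zero_mul]
  | add p q hp hq => rw [map_add, coeff_add, coeff_add, hp, hq, add_mul]

/-- the norm of a polynomial for all multiplications of the `u i` by roots of unity -/
noncomputable def nrm (m : ℕ) [NeZero m] (H : MvPolynomial (ι ⊕ J) 𝕜) : MvPolynomial (ι ⊕ J) 𝕜 :=
  ∏ κ : ι → ZMod m, tw κ H

lemma tw_nrm (κ : ι → ZMod m) (H : MvPolynomial (ι ⊕ J) 𝕜) : tw κ (nrm m H) = nrm m H := by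
  rw [nrm, map_prod]
  refine Fintype.prod_equiv (Equiv.addLeft κ) _ _ fun κ' => ?_
  rw [tw_tw]
  rfl

lemma nrm_dvd {H : MvPolynomial (ι ⊕ J) 𝕜} {d : ι ⊕ J →₀ ℕ} (hd : coeff d (nrm m H) ≠ 0) (i₀ : ι) :
    m ∣ d (Sum.inl i₀) := by
  have h1 := congrArg (coeff d) (tw_nrm (Pi.single i₀ (1 : ZMod m)) H)
  rw [coeff_tw] at h1
  have h2 : ∏ i, e 𝕜 ((Pi.single i₀ (1 : ZMod m) : ι → ZMod m) i) ^ d (Sum.inl i) =
      e 𝕜 (1 : ZMod m) ^ d (Sum.inl i₀) := by
    rw [prod_eq_single i₀]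
    · rw [Pi.single_eq_same]
    · intro i _ hi
      rw [Pi.single_eq_of_ne hi, e_zero, one_pow]
    · intro h
      exact absurd (mem_univ _) h
  rw [h2] at h1
  have h3 : e 𝕜 (1 : ZMod m) ^ d (Sum.inl i₀) = 1 := by
    have h4 : coeff d (nrm m H) * (e 𝕜 (1 : ZMod m) ^ d (Sum.inl i₀) - 1) = 0 := by
      rw [mul_sub, h1, mul_one, sub_self]
    exact sub_eq_zero.1 ((mul_eq_zero.1 h4).resolve_left hd)
  exact (e_primitive (𝕜 := 𝕜) (m := m) 1).dvd_of_pow_eq_one _ h3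

/-- the norm is a polynomial in the `m`-th powers of the `u i` -/
lemma exists_nrm (m : ℕ) [NeZero m] (H : MvPolynomial (ι ⊕ J) 𝕜) : ∃ Q : MvPolynomial (ι ⊕ J) 𝕜,
    ∀ (R : Type _) [CommRing R] [Algebra 𝕜 R] (u : ι → R) (y : J → R),
      ∏ κ : ι → ZMod m, aeval (Sum.elim (fun i => algebraMap 𝕜 R (e 𝕜 (κ i)) * u i) y) H =
        aeval (Sum.elim (fun i => u i ^ m) y) Q := by
  refine ⟨∑ d ∈ (nrm m H).support,
    monomial (Finsupp.equivFunOnFinite.symm
      (Sum.elim (fun i => d (Sum.inl i) / m) fun j => d (Sum.inr j))) (coeff d (nrm m H)), ?_⟩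
  intro R _ _ u y
  have h1 : ∏ κ : ι → ZMod m, aeval (Sum.elim (fun i => algebraMap 𝕜 R (e 𝕜 (κ i)) * u i) y) H =
      aeval (Sum.elim u y) (nrm m H) := by
    rw [nrm, map_prod]
    refine prod_congr rfl fun κ _ => ?_
    have h2 : (aeval (Sum.elim u y) : MvPolynomial (ι ⊕ J) 𝕜 →ₐ[𝕜] R).comp (tw κ) =
        aeval (Sum.elim (fun i => algebraMap 𝕜 R (e 𝕜 (κ i)) * u i) y) := by
      apply MvPolynomial.algHom_ext
      intro x
      rw [AlgHom.comp_apply, tw, aeval_X, map_mul, aeval_C, aeval_X, aeval_X]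
      rcases x with i | j
      · simp
      · simp
    rw [← h2]
    rfl
  rw [h1, map_sum]
  conv_lhs => rw [(nrm m H).as_sum, map_sum]
  refine sum_congr rfl fun d hd => ?_
  rw [aeval_monomial, aeval_monomial]
  congr 1
  rw [Finsupp.prod_fintype _ _ (by intro i; rw [pow_zero]),
    Finsupp.prod_fintype _ _ (by intro i; rw [pow_zero]), Fintype.prod_sum_type,
    Fintype.prod_sum_type]
  congr 1
  refine prod_congr rfl fun i _ => ?_
  simp only [Sum.elim_inl, Finsupp.equivFunOnFinite_symm_apply_apply]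
  rw [← pow_mul, Nat.mul_div_cancel' (nrm_dvd (mem_support_iff.1 hd) i)]

end norm

section family

variable {K : ℕ} {N : Fin K → ℕ} {m : ℕ} [NeZero m] {ι : Type*} [Fintype ι] [DecidableEq ι]
  {f : (∀ k, Fin (N k) → 𝕜) → 𝕜}

/-- the Segre form with coordinates `u (blk k i) * y (k, i)` -/
noncomputable def univForm (𝕜 : Type*) [Field 𝕜] {K : ℕ} {N : Fin K → ℕ} {ι : Type*}
    (blk : ∀ k, Fin (N k) → ι) :
    MvPolynomial (ι ⊕ ((Σ k, Fin (N k)) ⊕ (∀ k, Fin (N k)))) 𝕜 :=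
  ∑ l : ∀ k, Fin (N k), (∏ k, (X (Sum.inl (blk k (l k))) * X (Sum.inr (Sum.inl ⟨k, l k⟩)))) *
    X (Sum.inr (Sum.inr l))

lemma aeval_univForm (blk : ∀ k, Fin (N k) → ι) (c : ι → 𝕜) (u : ι → 𝕜) (V : ∀ k, Fin (N k) → 𝕜) :
    aeval (Sum.elim (fun i => algebraMap 𝕜 (MvPolynomial (∀ k, Fin (N k)) 𝕜) (c i) * C (u i))
      (Sum.elim (fun x : Σ k, Fin (N k) => C (V x.1 x.2)) X)) (univForm 𝕜 blk) =
      segre fun k i => c (blk k i) * (u (blk k i) * V k i) := by
  rw [univForm, map_sum, segre]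
  refine sum_congr rfl fun l _ => ?_
  rw [map_mul, map_prod, aeval_X, map_prod]
  simp only [Sum.elim_inr]
  congr 1
  refine prod_congr rfl fun k _ => ?_
  rw [map_mul, aeval_X, aeval_X, Sum.elim_inl, Sum.elim_inr, Sum.elim_inl, algebraMap_eq, C_mul,
    C_mul]
  ring

/-- moving in a family -/
theorem GoodP.family (hf : GoodP m f) (blk : ∀ k, Fin (N k) → ι) (U : ι → 𝕜 → 𝕜)
    (V : ∀ k, Fin (N k) → 𝕜 → 𝕜)
    (hU : ∀ i, PF fun t => (C (U i t) : MvPolynomial (∀ k, Fin (N k)) 𝕜))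
    (hV : ∀ k i, PF fun t => (C (V k i t) : MvPolynomial (∀ k, Fin (N k)) 𝕜))
    (hX : ∀ t k, ∑ i, U (blk k i) t * V k i t ^ m = 0)
    (hne : ∀ t k, ∃ i, U (blk k i) t ≠ 0 ∧ V k i t ≠ 0)
    (u₀ u₁ : ι → 𝕜) (h0 : ∀ i, u₀ i ^ m = U i 0) (h1 : ∀ i, u₁ i ^ m = U i 1) :
    ∑ κ : ι → ZMod m, f (fun k i => e 𝕜 (κ (blk k i)) * (u₀ (blk k i) * V k i 0)) =
      ∑ κ : ι → ZMod m, f (fun k i => e 𝕜 (κ (blk k i)) * (u₁ (blk k i) * V k i 1)) := by
  obtain ⟨Q, hQ⟩ := exists_nrm m (univForm 𝕜 blk)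
  set F : 𝕜 → MvPolynomial (∀ k, Fin (N k)) 𝕜 := fun t =>
    aeval (fun x => Sum.elim (fun i => C (U i t))
      (Sum.elim (fun x : Σ k, Fin (N k) => C (V x.1 x.2 t)) X) x) Q with hF
  have hPF : PF F := by
    refine PF.aeval Q (G := fun x t => Sum.elim (fun i => C (U i t))
      (Sum.elim (fun x : Σ k, Fin (N k) => C (V x.1 x.2 t)) X) x) fun x => ?_
    rcases x with i | x | l
    · exact hU i
    · exact hV x.1 x.2
    · exact PF.const _
  have hrep : ∀ (t : 𝕜) (u : ι → 𝕜), (∀ i, u i ^ m = U i t) →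
      RepP m (Fintype.card (ι → ZMod m)) (F t)
        (univ.val.map fun κ : ι → ZMod m => fun k i => e 𝕜 (κ (blk k i)) * (u (blk k i) * V k i t)) := by
    intro t u hu
    refine ⟨?_, ?_, 1, one_ne_zero, ?_⟩
    · rw [Multiset.card_map, card_val, card_univ]
    · intro w hw
      rw [Multiset.mem_map] at hw
      obtain ⟨κ, _, rfl⟩ := hw
      intro k
      constructor
      · intro h
        obtain ⟨l, hl1, hl2⟩ := hne t k
        have h2 := congrFun h l
        have h3 : u (blk k l) ≠ 0 := by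
          intro h4
          apply hl1
          rw [← hu, h4, zero_pow (NeZero.ne m)]
        exact mul_ne_zero (e_ne_zero _) (mul_ne_zero h3 hl2) h2
      · rw [← hX t k]
        refine sum_congr rfl fun l _ => ?_
        rw [mul_pow, mul_pow, e_pow_m, hu, one_mul]
    · rw [Multiset.map_map]
      change _ = C 1 * ∏ κ : ι → ZMod m,
        segre (fun k i => e 𝕜 (κ (blk k i)) * (u (blk k i) * V k i t))
      have h2 : ∏ κ : ι → ZMod m,
          segre (fun k i => e 𝕜 (κ (blk k i)) * (u (blk k i) * V k i t)) =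
          aeval (Sum.elim (fun i => (C (u i) : MvPolynomial (∀ k, Fin (N k)) 𝕜) ^ m)
            (Sum.elim (fun x : Σ k, Fin (N k) => C (V x.1 x.2 t)) X)) Q := by
        rw [← hQ (MvPolynomial (∀ k, Fin (N k)) 𝕜) (fun i => C (u i))
          (Sum.elim (fun x : Σ k, Fin (N k) => C (V x.1 x.2 t)) X)]
        refine prod_congr rfl fun κ _ => ?_
        exact (aeval_univForm blk (fun i => e 𝕜 (κ i)) u fun k i => V k i t).symm
      have h3 : (fun x => Sum.elim (fun i => (C (U i t) : MvPolynomial (∀ k, Fin (N k)) 𝕜))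
          (Sum.elim (fun x : Σ k, Fin (N k) => C (V x.1 x.2 t)) X) x) =
          Sum.elim (fun i => (C (u i) : MvPolynomial (∀ k, Fin (N k)) 𝕜) ^ m)
            (Sum.elim (fun x : Σ k, Fin (N k) => C (V x.1 x.2 t)) X) := by
        funext x
        rcases x with i | x
        · rw [Sum.elim_inl, Sum.elim_inl, ← C_pow, hu]
        · rfl
      rw [C_1, one_mul, h2, ← h3]
  have hex : ∀ t, ∃ s, RepP m (Fintype.card (ι → ZMod m)) (F t) s := by
    intro t
    choose u hu using fun i => IsAlgClosed.exists_pow_nat_eq (U i t) (NeZero.pos m)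
    exact ⟨_, hrep t u hu⟩
  have h2 := hf.fam _ F hPF hex _ _ (hrep 0 u₀ h0) (hrep 1 u₁ h1)
  rw [Multiset.map_map, Multiset.map_map] at h2
  exact h2

end family

end Pool.Agent.T2H37.PR
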