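import Pool.Agent.T2H37.PR.Fam

/-!
# The components for the characters of the group of diagonal matrices
-/

set_option autoImplicit false
set_option linter.unusedSectionVars false
set_option linter.unusedSimpArgs false

namespace Pool.Agent.T2H37.PR

open MvPolynomial Finset Pool.Agent.T2H37.FK

variable {𝕜 : Type*} [Field 𝕜] [IsAlgClosed 𝕜] [CharZero 𝕜]

variable {K : ℕ} {N : Fin K → ℕ} {m : ℕ} [NeZero m]

/-- the action of the diagonal matrices -/
noncomputable def dgP (g : ∀ k, Fin (N k) → ZMod m) (v : ∀ k, Fin (N k) → 𝕜) :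
    ∀ k, Fin (N k) → 𝕜 := fun k => dg (g k) (v k)

lemma dgP_add (g h : ∀ k, Fin (N k) → ZMod m) (v : ∀ k, Fin (N k) → 𝕜) :
    dgP (g + h) v = dgP g (dgP h v) := by
  funext k
  exact dg_add (g k) (h k) (v k)

lemma dgP_comm (g h : ∀ k, Fin (N k) → ZMod m) (v : ∀ k, Fin (N k) → 𝕜) :
    dgP g (dgP h v) = dgP h (dgP g v) := by
  rw [← dgP_add, ← dgP_add, add_comm]

lemma onP_dg (g : ∀ k, Fin (N k) → ZMod m) {v : ∀ k, Fin (N k) → 𝕜} (hv : OnP m v) :
    OnP m (dgP g v) := fun k => onX_dg (g k) (hv k)

/-- the pairing of characters and group elements -/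
def prP (α g : ∀ k, Fin (N k) → ZMod m) : ZMod m := ∑ k, pr (α k) (g k)

lemma prP_add (α g h : ∀ k, Fin (N k) → ZMod m) : prP α (g + h) = prP α g + prP α h := by
  simp only [prP, ← sum_add_distrib]
  exact sum_congr rfl fun k _ => pr_add _ _ _

lemma prP_zero (g : ∀ k, Fin (N k) → ZMod m) : prP 0 g = 0 := by
  simp [prP, pr]

/-- the component of the character `α` -/
noncomputable def compP (f : (∀ k, Fin (N k) → 𝕜) → 𝕜) (α : ∀ k, Fin (N k) → ZMod m)
    (v : ∀ k, Fin (N k) → 𝕜) : 𝕜 :=
  ∑ g : ∀ k, Fin (N k) → ZMod m, e 𝕜 (-prP α g) * f (dgP g v)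

lemma compP_dg (f : (∀ k, Fin (N k) → 𝕜) → 𝕜) (α h : ∀ k, Fin (N k) → ZMod m)
    (v : ∀ k, Fin (N k) → 𝕜) : compP f α (dgP h v) = e 𝕜 (prP α h) * compP f α v := by
  rw [compP, compP, mul_sum]
  refine Fintype.sum_equiv (Equiv.addRight h) _ _ fun g => ?_
  rw [Equiv.coe_addRight, ← dgP_add, ← mul_assoc, ← e_add, prP_add]
  congr 2
  ring

lemma exists_ne {g : ∀ k, Fin (N k) → ZMod m} (hg : g ≠ 0) : ∃ h : ∀ k, Fin (N k) → ZMod m,
    ∀ α : ∀ k, Fin (N k) → ZMod m, e 𝕜 (-prP (α + h) g) = e 𝕜 (-prP α g) * e 𝕜 (-prP h g) ∧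
      e 𝕜 (-prP h g) ≠ 1 := by
  obtain ⟨k, hk⟩ : ∃ k, g k ≠ 0 := by
    by_contra hcon
    push Not at hcon
    exact hg (funext hcon)
  obtain ⟨i, hi⟩ : ∃ i, g k i ≠ 0 := by
    by_contra hcon
    push Not at hcon
    exact hk (funext hcon)
  set h : ∀ k, Fin (N k) → ZMod m := Pi.single k (Pi.single i 1) with hh
  have h1 : prP h g = g k i := by
    rw [prP, sum_eq_single k]
    · rw [hh, Pi.single_eq_same, pr, sum_eq_single i]
      · rw [Pi.single_eq_same, one_mul]
      · intro j _ hj
        rw [Pi.single_eq_of_ne hj, zero_mul]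
      · intro h
        exact absurd (mem_univ _) h
    · intro k' _ hk'
      rw [hh, Pi.single_eq_of_ne hk']
      simp [pr]
    · intro h
      exact absurd (mem_univ _) h
  refine ⟨h, fun α => ⟨?_, ?_⟩⟩
  · rw [← e_add]
    congr 1
    have h2 : prP (α + h) g = prP α g + prP h g := by
      simp only [prP, ← sum_add_distrib]
      refine sum_congr rfl fun k _ => ?_
      simp only [pr, ← sum_add_distrib, Pi.add_apply, add_mul]
    rw [h2]
    ring
  · rw [h1]
    intro h2
    rw [← e_zero (𝕜 := 𝕜) (m := m)] at h2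
    exact hi (neg_eq_zero.1 (e_inj h2))

lemma sum_charP' (g : ∀ k, Fin (N k) → ZMod m) :
    ∑ α : ∀ k, Fin (N k) → ZMod m, e 𝕜 (-prP α g) =
      if g = 0 then (Fintype.card (∀ k, Fin (N k) → ZMod m) : 𝕜) else 0 := by
  split_ifs with hg
  · subst hg
    have h1 : ∀ α : ∀ k, Fin (N k) → ZMod m, e 𝕜 (-prP α 0) = 1 := by
      intro α
      have h2 : prP α 0 = 0 := by simp [prP, pr]
      rw [h2, neg_zero, e_zero]
    simp only [h1, sum_const, card_univ, nsmul_eq_mul, mul_one]
  · obtain ⟨h, hh⟩ := exists_ne (𝕜 := 𝕜) hg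
    have h1 : ∑ α : ∀ k, Fin (N k) → ZMod m, e 𝕜 (-prP α g) =
        (∑ α : ∀ k, Fin (N k) → ZMod m, e 𝕜 (-prP α g)) * e 𝕜 (-prP h g) := by
      rw [sum_mul]
      symm
      refine Fintype.sum_equiv (Equiv.addRight h) _ _ fun α => ?_
      rw [Equiv.coe_addRight, (hh α).1]
    have h2 : (∑ α : ∀ k, Fin (N k) → ZMod m, e 𝕜 (-prP α g)) * (e 𝕜 (-prP h g) - 1) = 0 := by
      rw [mul_sub, ← h1, mul_one, sub_self]
    exact (mul_eq_zero.1 h2).resolve_right (sub_ne_zero.2 (hh 0).2)

lemma sum_compP (f : (∀ k, Fin (N k) → 𝕜) → 𝕜) (v : ∀ k, Fin (N k) → 𝕜) :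
    ∑ α : ∀ k, Fin (N k) → ZMod m, compP f α v =
      (Fintype.card (∀ k, Fin (N k) → ZMod m) : 𝕜) * f v := by
  simp only [compP]
  rw [sum_comm]
  simp only [← sum_mul, sum_charP', ite_mul, zero_mul]
  rw [sum_ite_eq' univ (0 : ∀ k, Fin (N k) → ZMod m), if_pos (mem_univ _)]
  congr 2
  funext k l
  simp [dgP, dg, e_zero]

lemma card_ne_zeroP : (Fintype.card (∀ k, Fin (N k) → ZMod m) : 𝕜) ≠ 0 :=
  Nat.cast_ne_zero.2 Fintype.card_ne_zero

/-! ### Slices -/

lemma pr_single_add (α g : ∀ k, Fin (N k) → ZMod m) (k : Fin K) (h : Fin (N k) → ZMod m) :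
    prP α (g + Pi.single k h) = prP α g + pr (α k) h := by
  rw [prP_add]
  congr 1
  rw [prP, sum_eq_single k]
  · rw [Pi.single_eq_same]
  · intro k' _ hk'
    rw [Pi.single_eq_of_ne hk']
    simp [pr]
  · intro h
    exact absurd (mem_univ _) h

lemma dgP_single_add (g : ∀ k, Fin (N k) → ZMod m) (k : Fin K) (h : Fin (N k) → ZMod m)
    (v : ∀ k, Fin (N k) → 𝕜) :
    dgP (g + Pi.single k h) v = Function.update (dgP g v) k (dg h (dgP g v k)) := by
  funext k'
  by_cases hk : k' = k
  · subst hk
    rw [Function.update_self, add_comm, dgP_add]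
    simp only [dgP, Pi.single_eq_same]
  · rw [Function.update_of_ne hk, dgP_add]
    simp only [dgP]
    rw [Pi.single_eq_of_ne hk]
    congr 1
    funext l
    simp [dg, e_zero]

lemma compP_shift (f : (∀ k, Fin (N k) → 𝕜) → 𝕜) (α : ∀ k, Fin (N k) → ZMod m)
    (v : ∀ k, Fin (N k) → 𝕜) (k : Fin K) (h : Fin (N k) → ZMod m) :
    compP f α v = ∑ g : ∀ k, Fin (N k) → ZMod m, e 𝕜 (-prP α g) * (e 𝕜 (-pr (α k) h) *
      f (Function.update (dgP g v) k (dg h (dgP g v k)))) := by
  rw [compP]
  symm
  refine Fintype.sum_equiv (Equiv.addRight (Pi.single k h)) _ _ fun g => ?_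
  rw [Equiv.coe_addRight, pr_single_add, dgP_single_add, ← mul_assoc, ← e_add]
  congr 2
  ring

/-- a component is a sum of components of slices -/
lemma slice_formula (f : (∀ k, Fin (N k) → 𝕜) → 𝕜) (α : ∀ k, Fin (N k) → ZMod m)
    (v : ∀ k, Fin (N k) → 𝕜) (k : Fin K) :
    (Fintype.card (Fin (N k) → ZMod m) : 𝕜) * compP f α v =
      ∑ g : ∀ k, Fin (N k) → ZMod m, e 𝕜 (-prP α g) *
        comp (fun w => f (Function.update (dgP g v) k w)) (α k) (dgP g v k) := by
  have h1 : ∀ c : 𝕜, (Fintype.card (Fin (N k) → ZMod m) : 𝕜) * c =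
      ∑ _h : Fin (N k) → ZMod m, c := by
    intro c
    rw [sum_const, card_univ, nsmul_eq_mul]
  have h3 : ∑ h : Fin (N k) → ZMod m, compP f α v = ∑ h : Fin (N k) → ZMod m,
      ∑ g : ∀ k, Fin (N k) → ZMod m, e 𝕜 (-prP α g) * (e 𝕜 (-pr (α k) h) *
      f (Function.update (dgP g v) k (dg h (dgP g v k)))) :=
    sum_congr rfl fun h _ => compP_shift f α v k h
  rw [h1, h3, sum_comm]
  refine sum_congr rfl fun g _ => ?_
  rw [comp, mul_sum]

lemma card_ne_zeroN (n : ℕ) : (Fintype.card (Fin n → ZMod m) : 𝕜) ≠ 0 :=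
  Nat.cast_ne_zero.2 Fintype.card_ne_zero

variable {f : (∀ k, Fin (N k) → 𝕜) → 𝕜}

/-- if the components of the slices vanish -/
lemma compP_zero_of_slice {α : ∀ k, Fin (N k) → ZMod m} (k : Fin K)
    (h : ∀ v : ∀ k, Fin (N k) → 𝕜, OnP m v →
      comp (fun w => f (Function.update v k w)) (α k) (v k) = 0)
    {v : ∀ k, Fin (N k) → 𝕜} (hv : OnP m v) : compP f α v = 0 := by
  have h1 := slice_formula f α v k
  rw [sum_eq_zero fun g _ => by rw [h _ (onP_dg g hv), mul_zero]] at h1
  exact (mul_eq_zero.1 h1).resolve_left (card_ne_zeroN _)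

/-- a component that is multiplied by a nontrivial root of unity is zero -/
lemma compP_zero_of {α h : ∀ k, Fin (N k) → ZMod m} {v : ∀ k, Fin (N k) → 𝕜} (hh : prP α h ≠ 0)
    (hc : compP f α (dgP h v) = compP f α v) : compP f α v = 0 := by
  rw [compP_dg] at hc
  have h4 : (e 𝕜 (prP α h) - 1) * compP f α v = 0 := by
    rw [sub_mul, one_mul, hc, sub_self]
  refine (mul_eq_zero.1 h4).resolve_left (sub_ne_zero.2 fun h5 => hh ?_)
  rw [← e_zero (𝕜 := 𝕜) (m := m)] at h5
  exact e_inj h5

/-- the component vanishes at tuples with a coordinate zero where the character is not trivial -/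
lemma compP_coord_zero {α : ∀ k, Fin (N k) → ZMod m} {v : ∀ k, Fin (N k) → 𝕜} {k : Fin K}
    {i : Fin (N k)} (hi : α k i ≠ 0) (hv : v k i = 0) : compP f α v = 0 := by
  refine compP_zero_of (h := Pi.single k (Pi.single i 1)) ?_ ?_
  · have h1 := pr_single_add α 0 k (Pi.single i 1)
    rw [zero_add] at h1
    have h2 : prP α 0 = 0 := by simp [prP, pr]
    have h3 : pr (α k) (Pi.single i 1) = α k i := by
      rw [pr, sum_eq_single i]
      · rw [Pi.single_eq_same, mul_one]
      · intro j _ hj
        rw [Pi.single_eq_of_ne hj, mul_zero]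
      · intro h
        exact absurd (mem_univ _) h
    rw [h1, h2, zero_add, h3]
    exact hi
  · congr 1
    funext k' l
    simp only [dgP, dg]
    by_cases hk : k' = k
    · subst hk
      rw [Pi.single_eq_same]
      by_cases hl : l = i
      · rw [hl, hv, mul_zero]
      · rw [Pi.single_eq_of_ne hl, e_zero, one_mul]
    · rw [Pi.single_eq_of_ne hk]
      simp [e_zero]

lemma GoodP.comp_sum_ne (hf : GoodP m f) {α : ∀ k, Fin (N k) → ZMod m} {k : Fin K}
    (hα : ∑ i, α k i ≠ 0) {v : ∀ k, Fin (N k) → 𝕜} (hv : OnP m v) : compP f α v = 0 :=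
  compP_zero_of_slice k (fun _ hv => (hf.slice hv k).comp_sum_ne hα (hv k)) hv

lemma GoodP.comp_B_zero (hf : GoodP m f) {α : ∀ k, Fin (N k) → ZMod m} {k : Fin K}
    {B : Finset (Fin (N k))} (hB : B.Nonempty) (hB' : B ≠ univ) (hα0 : α k ≠ 0)
    (hα : ∑ i ∈ B, α k i = 0) {v : ∀ k, Fin (N k) → 𝕜} (hv : OnP m v) : compP f α v = 0 :=
  compP_zero_of_slice k (fun _ hv => (hf.slice hv k).comp_B_zero hB hB' hα0 hα (hv k)) hv

/-- the components do not depend on the factors where the character is trivial -/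
lemma GoodP.comp_update (hf : GoodP m f) {α : ∀ k, Fin (N k) → ZMod m} {k : Fin K} (hN : 2 ≤ N k)
    (hα : α k = 0) {v : ∀ k, Fin (N k) → 𝕜} (hv : OnP m v) {w : Fin (N k) → 𝕜} (hw : OnX m w) :
    compP f α (Function.update v k w) = compP f α v := by
  refine mul_left_cancel₀ (card_ne_zeroN (m := m) (N k)) ?_
  rw [slice_formula, slice_formula]
  refine sum_congr rfl fun g _ => ?_
  congr 1
  obtain ⟨V, hV⟩ := (hf.slice (onP_dg g hv) k).comp_zero hN
  have h1 : (fun w' => f (Function.update (dgP g (Function.update v k w)) k w')) =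
      fun w' => f (Function.update (dgP g v) k w') := by
    funext w'
    congr 1
    funext k'
    by_cases hk : k' = k
    · subst hk
      rw [Function.update_self, Function.update_self]
    · rw [Function.update_of_ne hk, Function.update_of_ne hk]
      simp only [dgP]
      rw [Function.update_of_ne hk]
  rw [h1, hα, hV _ (onP_dg g hv k), hV]
  exact onP_dg g (hv.update hw) k

/-- the component of the trivial character is constant -/
lemma GoodP.comp_zero (hf : GoodP m f) (hN : ∀ k, 2 ≤ N k) {v v' : ∀ k, Fin (N k) → 𝕜}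
    (hv : OnP m v) (hv' : OnP m v') :
    compP f (0 : ∀ k, Fin (N k) → ZMod m) v = compP f (0 : ∀ k, Fin (N k) → ZMod m) v' := by
  have h1 : ∀ s : Finset (Fin K), compP f (0 : ∀ k, Fin (N k) → ZMod m)
      (fun k => if k ∈ s then v' k else v k) = compP f (0 : ∀ k, Fin (N k) → ZMod m) v := by
    intro s
    induction s using Finset.induction_on with
    | empty => simp
    | insert a s ha ih =>
      rw [← ih]
      have h2 : (fun k => if k ∈ insert a s then v' k else v k) =
          Function.update (fun k => if k ∈ s then v' k else v k) a (v' a) := by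
        funext k
        by_cases hk : k = a
        · subst hk
          rw [Function.update_self, if_pos (mem_insert_self _ _)]
        · rw [Function.update_of_ne hk]
          simp [hk]
      rw [h2]
      refine hf.comp_update (hN a) rfl ?_ (hv' a)
      intro k
      by_cases hk : k ∈ s
      · simp only [hk, if_true]
        exact hv' k
      · simp only [hk, if_false]
        exact hv k
  rw [← h1 univ]
  congr 1
  funext k
  rw [if_pos (mem_univ _)]

/-! ### Permutations of the coordinates -/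

lemma comp_perm_fun {n : ℕ} (F : (Fin n → 𝕜) → 𝕜) {β : Fin n → ZMod m} (σ : Equiv.Perm (Fin n))
    (hβ : ∀ l, β (σ l) = β l) (u : Fin n → 𝕜) :
    comp (fun w => F fun l => w (σ l)) β u = comp F β fun l => u (σ l) := by
  simp only [comp]
  refine Fintype.sum_equiv (Equiv.arrowCongr σ.symm (Equiv.refl _)) _ _ fun g => ?_
  have h1 : (Equiv.arrowCongr σ.symm (Equiv.refl (ZMod m))) g = fun l => g (σ l) := by
    funext l
    simp [Equiv.arrowCongr]
  rw [h1]
  have h2 : pr β (fun l => g (σ l)) = pr β g := by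
    have h3 : (fun l => β (σ l)) = β := funext hβ
    conv_lhs => rw [← h3]
    exact pr_comp σ β g
  rw [h2]
  rfl

/-- permutation of the values in one factor -/
def permEquiv (k : Fin K) (σ : Equiv.Perm (Fin (N k))) :
    (∀ k, Fin (N k) → ZMod m) ≃ (∀ k, Fin (N k) → ZMod m) where
  toFun g := Function.update g k fun l => g k (σ.symm l)
  invFun g := Function.update g k fun l => g k (σ l)
  left_inv g := by
    funext k'
    by_cases hk : k' = k
    · subst hk
      simp
    · simp [hk]
  right_inv g := by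
    funext k'
    by_cases hk : k' = k
    · subst hk
      simp
    · simp [hk]

lemma GoodP.comp_perm_one (hf : GoodP m f) {α : ∀ k, Fin (N k) → ZMod m} {k : Fin K}
    (hN : 3 ≤ N k) (hα : α k ≠ 0) (σ : Equiv.Perm (Fin (N k))) (hσ : ∀ l, α k (σ l) = α k l)
    {v : ∀ k, Fin (N k) → 𝕜} (hv : OnP m v) :
    compP f α (Function.update v k fun l => v k (σ l)) =
      ((Equiv.Perm.sign σ : ℤ) : 𝕜) * compP f α v := by
  have h1 : compP f α (Function.update v k fun l => v k (σ l)) =
      compP (fun w => f (Function.update w k fun l => w k (σ l))) α v := by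
    simp only [compP]
    refine Fintype.sum_equiv (permEquiv k σ) _ _ fun g => ?_
    set g' : ∀ k, Fin (N k) → ZMod m := Function.update g k fun l => g k (σ.symm l) with hg'
    have h2 : permEquiv k σ g = g' := rfl
    rw [h2]
    have h3 : prP α g' = prP α g := by
      simp only [prP]
      refine sum_congr rfl fun k' _ => ?_
      by_cases hk : k' = k
      · subst hk
        rw [hg', Function.update_self]
        have h4 : α k' = fun l => α k' (σ.symm l) := by
          funext l
          rw [← hσ (σ.symm l), Equiv.apply_symm_apply]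
        conv_lhs => rw [h4]
        exact pr_comp σ.symm (α k') (g k')
      · rw [hg', Function.update_of_ne hk]
    rw [h3]
    congr 2
    funext k'
    by_cases hk : k' = k
    · subst hk
      rw [Function.update_self]
      simp only [dgP, hg', Function.update_self]
      funext l
      simp [dg]
    · rw [Function.update_of_ne hk]
      simp only [dgP, hg']
      rw [Function.update_of_ne hk, Function.update_of_ne hk]
  rw [h1]
  refine mul_left_cancel₀ (card_ne_zeroN (m := m) (N k)) ?_
  rw [slice_formula, mul_left_comm, slice_formula, mul_sum]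
  refine sum_congr rfl fun g _ => ?_
  have h2 : (fun w => f (Function.update (Function.update (dgP g v) k w) k
      fun l => Function.update (dgP g v) k w k (σ l))) =
      fun w => (fun w' => f (Function.update (dgP g v) k w')) fun l => w (σ l) := by
    funext w
    rw [Function.update_idem, Function.update_self]
  rw [h2, comp_perm_fun (fun w' => f (Function.update (dgP g v) k w')) σ hσ,
    (hf.slice (onP_dg g hv) k).comp_perm hN hα _ σ rfl hσ _ (onP_dg g hv k)]
  ring

lemma onP_perm (σ : ∀ k, Equiv.Perm (Fin (N k))) {v : ∀ k, Fin (N k) → 𝕜} (hv : OnP m v) :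
    OnP m fun k l => v k (σ k l) := fun k => onX_perm (σ k) (hv k)

lemma GoodP.comp_perm (hf : GoodP m f) (hN : ∀ k, 3 ≤ N k) {α : ∀ k, Fin (N k) → ZMod m}
    (σ : ∀ k, Equiv.Perm (Fin (N k))) (hσ : ∀ k l, α k (σ k l) = α k l)
    {v : ∀ k, Fin (N k) → 𝕜} (hv : OnP m v) :
    compP f α (fun k l => v k (σ k l)) =
      (∏ k with α k ≠ 0, ((Equiv.Perm.sign (σ k) : ℤ) : 𝕜)) * compP f α v := by
  classical
  have h1 : ∀ s : Finset (Fin K),
      compP f α (fun k => if k ∈ s then (fun l => v k (σ k l)) else v k) =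
        (∏ k ∈ s with α k ≠ 0, ((Equiv.Perm.sign (σ k) : ℤ) : 𝕜)) * compP f α v := by
    intro s
    induction s using Finset.induction_on with
    | empty => simp
    | insert a s ha ih =>
      set w : ∀ k, Fin (N k) → 𝕜 := fun k => if k ∈ s then (fun l => v k (σ k l)) else v k with hw
      have hwa : w a = v a := by
        rw [hw]
        simp only [ha, if_false]
      have hwP : OnP m w := by
        intro k
        by_cases hk : k ∈ s
        · simp only [hw, hk, if_true]
          exact onX_perm (σ k) (hv k)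
        · simp only [hw, hk, if_false]
          exact hv k
      have h2 : (fun k => if k ∈ insert a s then (fun l => v k (σ k l)) else v k) =
          Function.update w a fun l => w a (σ a l) := by
        funext k
        by_cases hk : k = a
        · subst hk
          rw [Function.update_self, if_pos (mem_insert_self _ _), hwa]
        · rw [Function.update_of_ne hk, hw]
          simp [hk]
      rw [h2, filter_insert]
      by_cases hαa : α a = 0
      · rw [if_neg (not_not.2 hαa), ← ih]
        have h3 : (Function.update w a fun l => w a (σ a l)) =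
            Function.update w a (fun l => w a (σ a l)) := rfl
        rw [h3, hf.comp_update (by have := hN a; omega) hαa hwP (onX_perm (σ a) (hwP a))]
      · rw [if_pos hαa, prod_insert (fun h => ha (mem_filter.1 h).1),
          hf.comp_perm_one (hN a) hαa (σ a) (hσ a) hwP, ih]
        ring
  have h2 := h1 univ
  rw [← h2]
  congr 1
  funext k
  rw [if_pos (mem_univ _)]

end Pool.Agent.T2H37.PR
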