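import Pool.Agent.T2H37.PR.Defs
import Pool.Agent.T2H37.FK.Final

/-!
# Rational curves in the symmetric powers of products
-/

set_option autoImplicit false
set_option linter.unusedSectionVars false
set_option linter.unusedSimpArgs false

namespace Pool.Agent.T2H37.PR

open MvPolynomial Finset Pool.Agent.T2H37.FK

variable {𝕜 : Type*} [Field 𝕜]

section pf

variable {σ τ : Type*}

/-- the polynomial families -/
def PF (F : 𝕜 → MvPolynomial σ 𝕜) : Prop :=
  ∃ P : Polynomial (MvPolynomial σ 𝕜), ∀ t, P.eval (C t) = F t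

lemma PF.const (G : MvPolynomial σ 𝕜) : PF fun _ : 𝕜 => G :=
  ⟨Polynomial.C G, fun _ => Polynomial.eval_C⟩

lemma PF.id : PF fun t : 𝕜 => (C t : MvPolynomial σ 𝕜) :=
  ⟨Polynomial.X, fun _ => Polynomial.eval_X⟩

lemma PF.add {F G : 𝕜 → MvPolynomial σ 𝕜} (hF : PF F) (hG : PF G) : PF fun t => F t + G t := by
  obtain ⟨P, hP⟩ := hF
  obtain ⟨Q, hQ⟩ := hG
  exact ⟨P + Q, fun t => by rw [Polynomial.eval_add, hP, hQ]⟩

lemma PF.mul {F G : 𝕜 → MvPolynomial σ 𝕜} (hF : PF F) (hG : PF G) : PF fun t => F t * G t := by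
  obtain ⟨P, hP⟩ := hF
  obtain ⟨Q, hQ⟩ := hG
  exact ⟨P * Q, fun t => by rw [Polynomial.eval_mul, hP, hQ]⟩

lemma PF.neg {F : 𝕜 → MvPolynomial σ 𝕜} (hF : PF F) : PF fun t => - F t := by
  obtain ⟨P, hP⟩ := hF
  exact ⟨-P, fun t => by rw [Polynomial.eval_neg, hP]⟩

lemma PF.sub {F G : 𝕜 → MvPolynomial σ 𝕜} (hF : PF F) (hG : PF G) : PF fun t => F t - G t := by
  simp only [sub_eq_add_neg]
  exact hF.add hG.neg

lemma PF.pow {F : 𝕜 → MvPolynomial σ 𝕜} (hF : PF F) (n : ℕ) : PF fun t => F t ^ n := by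
  obtain ⟨P, hP⟩ := hF
  exact ⟨P ^ n, fun t => by rw [Polynomial.eval_pow, hP]⟩

lemma PF.aeval {ι : Type*} (Q : MvPolynomial ι 𝕜) {G : ι → 𝕜 → MvPolynomial σ 𝕜}
    (hG : ∀ i, PF (G i)) : PF fun t => MvPolynomial.aeval (fun i => G i t) Q := by
  induction Q using MvPolynomial.induction_on with
  | C a =>
    have h1 : (fun t : 𝕜 => MvPolynomial.aeval (fun i => G i t) (C a : MvPolynomial ι 𝕜)) =
        fun _ => C a := by
      funext t
      rw [aeval_C]
      rfl
    rw [h1]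
    exact PF.const _
  | add p q hp hq =>
    simp only [map_add]
    exact hp.add hq
  | mul_X p i hp =>
    simp only [map_mul, aeval_X]
    exact hp.mul (hG i)

lemma PF.map {F : 𝕜 → MvPolynomial σ 𝕜} (hF : PF F) (Φ : MvPolynomial σ 𝕜 →ₐ[𝕜] MvPolynomial τ 𝕜) :
    PF fun t => Φ (F t) := by
  obtain ⟨P, hP⟩ := hF
  refine ⟨P.map Φ.toRingHom, fun t => ?_⟩
  change _ = Φ (F t)
  rw [← hP t, Polynomial.eval_map]
  have h1 : (C t : MvPolynomial τ 𝕜) = Φ.toRingHom (C t) := by
    change C t = Φ (C t)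
    rw [algHom_C, algebraMap_eq]
  rw [h1, Polynomial.eval₂_hom]
  rfl

end pf

variable {K : ℕ} {N : Fin K → ℕ} {m : ℕ}

/-- the tuples of nonzero vectors on the cones over the Fermat hypersurfaces -/
def OnP (m : ℕ) (v : ∀ k, Fin (N k) → 𝕜) : Prop := ∀ k, OnX m (v k)

/-- `F` is the Chow form of the cycle `s` -/
def RepP (m d : ℕ) (F : MvPolynomial (∀ k, Fin (N k)) 𝕜) (s : Multiset (∀ k, Fin (N k) → 𝕜)) :
    Prop :=
  s.card = d ∧ (∀ v ∈ s, OnP m v) ∧ ∃ c : 𝕜, c ≠ 0 ∧ F = C c * (s.map segre).prod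

/-- the functions on tuples of vectors that come from additive functions on cycles modulo
rational equivalence -/
structure GoodP (m : ℕ) (f : (∀ k, Fin (N k) → 𝕜) → 𝕜) : Prop where
  smul : ∀ (k : Fin K) (c : 𝕜) (v : ∀ k, Fin (N k) → 𝕜), c ≠ 0 → OnP m v →
    f (Function.update v k (c • v k)) = f v
  fam : ∀ (d : ℕ) (F : 𝕜 → MvPolynomial (∀ k, Fin (N k)) 𝕜), PF F → (∀ t, ∃ s, RepP m d (F t) s) →
    ∀ s s' : Multiset (∀ k, Fin (N k) → 𝕜), RepP m d (F 0) s → RepP m d (F 1) s' →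
      (s.map f).sum = (s'.map f).sum

/-! ### Slices -/

/-- the linear forms of the points in a slice -/
noncomputable def slcHom (v : ∀ k, Fin (N k) → 𝕜) (k : Fin K) :
    MvPolynomial (Fin (N k)) 𝕜 →ₐ[𝕜] MvPolynomial (∀ k, Fin (N k)) 𝕜 :=
  aeval fun i => ∑ l with l k = i, C (∏ k' ∈ univ.erase k, v k' (l k')) * X l

lemma slcHom_lin (v : ∀ k, Fin (N k) → 𝕜) (k : Fin K) (w : Fin (N k) → 𝕜) :
    slcHom v k (lin w) = segre (Function.update v k w) := by
  rw [lin, map_sum, segre, ← sum_fiberwise univ fun l : ∀ k, Fin (N k) => l k]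
  refine sum_congr rfl fun i _ => ?_
  rw [map_mul, slcHom, aeval_X, algHom_C, algebraMap_eq, mul_sum]
  refine sum_congr rfl fun l hl => ?_
  rw [← mul_assoc, ← C_mul, ← mul_prod_erase univ _ (mem_univ k), Function.update_self,
    (mem_filter.1 hl).2]
  congr 3
  refine prod_congr rfl fun k' hk' => ?_
  rw [Function.update_of_ne (mem_erase.1 hk').1]

lemma OnP.update {v : ∀ k, Fin (N k) → 𝕜} (hv : OnP m v) {k : Fin K} {w : Fin (N k) → 𝕜}
    (hw : OnX m w) : OnP m (Function.update v k w) := by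
  intro k'
  by_cases h : k' = k
  · subst h
    rw [Function.update_self]
    exact hw
  · rw [Function.update_of_ne h]
    exact hv k'

/-- the slices of a good function are good -/
lemma GoodP.slice [CharZero 𝕜] {f : (∀ k, Fin (N k) → 𝕜) → 𝕜} (hf : GoodP m f)
    {v : ∀ k, Fin (N k) → 𝕜} (hv : OnP m v) (k : Fin K) :
    Good m fun w => f (Function.update v k w) := by
  constructor
  · intro c w hc hw
    have h1 := hf.smul k c (Function.update v k w) hc (hv.update hw)
    rw [Function.update_self, Function.update_idem] at h1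
    exact h1
  · intro d F hF hdec s s' hs hs'
    have hrep : ∀ (t : 𝕜) (s : Multiset (Fin (N k) → 𝕜)), Rep m d (F t) s →
        RepP m d (slcHom v k (F t)) (s.map fun w => Function.update v k w) := by
      intro t s hs
      obtain ⟨h1, h2, c, hc, h3⟩ := hs
      refine ⟨by rw [Multiset.card_map, h1], ?_, c, hc, ?_⟩
      · intro w hw
        rw [Multiset.mem_map] at hw
        obtain ⟨w', hw', rfl⟩ := hw
        exact hv.update (h2 w' hw')
      · rw [h3, map_mul, algHom_C, algebraMap_eq, map_multiset_prod, Multiset.map_map,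
          Multiset.map_map]
        congr 3
        funext w
        exact slcHom_lin v k w
    have hF' : PF F := by
      obtain ⟨P, hP⟩ := hF
      exact ⟨P, fun t => (hP t).symm⟩
    have h1 := hf.fam d (fun t => slcHom v k (F t)) (hF'.map (slcHom v k))
      (fun t => by
        obtain ⟨s, hs⟩ := hdec t
        exact ⟨_, hrep t s hs⟩) _ _ (hrep 0 s hs) (hrep 1 s' hs')
    rw [Multiset.map_map, Multiset.map_map] at h1
    exact h1

end Pool.Agent.T2H37.PR
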