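import Pool.Agent.T2H37.PR.Mix
import Pool.Agent.T2H37.PR.Comb

/-!
# Integral combinations of automorphisms of products
-/

set_option autoImplicit false
set_option linter.unusedSectionVars false
set_option linter.unusedSimpArgs false

namespace Pool.Agent.T2H37.PR

open MvPolynomial Finset Pool.Agent.T2H37.FK

variable {𝕜 : Type*} [Field 𝕜] [IsAlgClosed 𝕜] [CharZero 𝕜]

variable {K : ℕ} {N : Fin K → ℕ} {m : ℕ} [NeZero m] {f : (∀ k, Fin (N k) → 𝕜) → 𝕜}

/-- the action on tuples of vectors -/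
noncomputable def actV (g : ∀ k, FermatGroup 𝕜 (N k) m) (v : ∀ k, Fin (N k) → 𝕜) :
    ∀ k, Fin (N k) → 𝕜 := fun k => (g k).1.1.mulVec (v k)

lemma onP_actV (g : ∀ k, FermatGroup 𝕜 (N k) m) {v : ∀ k, Fin (N k) → 𝕜} (hv : OnP m v) :
    OnP m (actV g v) := fun k => onX_mulVec (g k) (hv k)

/-- the action of an integral combination of automorphisms on functions -/
noncomputable def wP (a : (∀ k, FermatGroup 𝕜 (N k) m) →₀ ℤ) (F : (∀ k, Fin (N k) → 𝕜) → 𝕜)
    (v : ∀ k, Fin (N k) → 𝕜) : 𝕜 :=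
  a.sum fun g c => (c : 𝕜) * F (actV g v)

/-- the components of weight one are killed -/
lemma GoodP.wP_minimal (hf : GoodP m f) (hm : 3 ≤ m) (hN : ∀ k, 3 ≤ N k)
    (a : (∀ k, FermatGroup 𝕜 (N k) m) →₀ ℤ) (ha : KillsForms a)
    {α : ∀ k, Fin (N k) → ZMod m} (hα0 : ∃ k, α k ≠ 0) (hα : ∀ k, α k ≠ 0 → ∀ i, α k i ≠ 0)
    (t : (ZMod m)ˣ) (ht : ∀ k, α k ≠ 0 → ∑ i, ((t : ZMod m) * α k i).val = m)
    {v : ∀ k, Fin (N k) → 𝕜} (hv : OnP m v) : wP a (compP f α) v = 0 := by
  classical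
  set S : Finset (Fin K) := univ.filter fun k => α k ≠ 0 with hS
  have hmS : ∀ k, k ∈ S ↔ α k ≠ 0 := by
    intro k
    simp [hS]
  have hSne : S.Nonempty := by
    obtain ⟨k, hk⟩ := hα0
    exact ⟨k, (hmS k).2 hk⟩
  have hpos : ∀ k ∈ S, ∀ l, 1 ≤ ((t : ZMod m) * α k l).val := by
    intro k hk l
    rw [Nat.one_le_iff_ne_zero, Ne, ZMod.val_eq_zero]
    intro h
    apply hα k ((hmS k).1 hk) l
    have := congrArg (fun y => ((t⁻¹ : (ZMod m)ˣ) : ZMod m) * y) h
    simpa using this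
  set b : ∀ k, Fin (N k) → ℕ := fun k l => ((t : ZMod m) * α k l).val - 1 with hb
  have hb0 : ∀ k, k ∉ S → ∀ l, b k l = 0 := by
    intro k hk l
    have h1 : α k = 0 := by
      by_contra h
      exact hk ((hmS k).2 h)
    simp [hb, h1]
  have hbα : ∀ k l l', b k l = b k l' ↔ α k l = α k l' := by
    intro k l l'
    by_cases hk : k ∈ S
    · constructor
      · intro h
        have h1 : ((t : ZMod m) * α k l).val = ((t : ZMod m) * α k l').val := by
          have h2 := hpos k hk l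
          have h3 := hpos k hk l'
          simp only [hb] at h
          omega
        have h2 := ZMod.val_injective m h1
        have := congrArg (fun y => ((t⁻¹ : (ZMod m)ˣ) : ZMod m) * y) h2
        simpa using this
      · intro h
        simp only [hb, h]
    · have h1 : α k = 0 := by
        by_contra h
        exact hk ((hmS k).2 h)
      rw [hb0 k hk, hb0 k hk, h1]
      simp
  have hdeg : ∀ k ∈ S, ∑ l, b k l + N k = m := by
    intro k hk
    have h1 : ∑ l, b k l + ∑ l : Fin (N k), 1 = m := by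
      rw [← sum_add_distrib]
      refine Eq.trans ?_ (ht k ((hmS k).1 hk))
      refine sum_congr rfl fun l _ => ?_
      have := hpos k hk l
      simp only [hb]
      omega
    simpa using h1
  choose κ σ hκσ using fun (g : ∀ k, FermatGroup 𝕜 (N k) m) (k : Fin K) => monomial_form hm (g k)
  have hact : ∀ (g : ∀ k, FermatGroup 𝕜 (N k) m) (w : ∀ k, Fin (N k) → 𝕜),
      actV g w = dgP (κ g) fun k l => w k (σ g k l) := by
    intro g w
    funext k
    exact mulVec_of_mono (hκσ g k) (w k)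
  -- the polynomial identity
  have hM : ∀ k, (∏ l, (X l : MvPolynomial (Fin (N k)) 𝕜) ^ b k l).IsHomogeneous (∑ l, b k l) := by
    intro k
    refine IsHomogeneous.prod _ _ _ fun l _ => ?_
    have h2 := (isHomogeneous_X 𝕜 l).pow (b k l)
    rwa [one_mul] at h2
  set E : (∀ k, FermatGroup 𝕜 (N k) m) → ((Σ k, Fin (N k)) →₀ ℕ) := fun g =>
    Finsupp.equivFunOnFinite.symm fun x => b x.1 ((σ g x.1).symm x.2) with hE
  have hterm : ∀ (g : ∀ k, FermatGroup 𝕜 (N k) m), ∀ k ∈ S, ∀ w : Fin (N k) → 𝕜,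
      (g k).1.1.det * eval ((g k).1.1.mulVec w) (∏ l, (X l : MvPolynomial (Fin (N k)) 𝕜) ^ b k l) =
        ((Equiv.Perm.sign (σ g k) : ℤ) : 𝕜) * e 𝕜 ((t : ZMod m) * pr (α k) (κ g k)) *
          ∏ l, w l ^ b k ((σ g k).symm l) := by
    intro g k hk w
    rw [map_prod]
    simp only [map_pow, eval_X]
    have h1 : (g k).1.1.mulVec w = dg (κ g k) fun l => w (σ g k l) := mulVec_of_mono (hκσ g k) w
    rw [h1]
    simp only [dg, mul_pow]
    rw [prod_mul_distrib, det_of_mono (hκσ g k)]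
    have h2 : ∏ l, w (σ g k l) ^ b k l = ∏ l, w l ^ b k ((σ g k).symm l) := by
      rw [← Equiv.prod_comp (σ g k) fun l => w l ^ b k ((σ g k).symm l)]
      refine prod_congr rfl fun l _ => ?_
      rw [Equiv.symm_apply_apply]
    have h4 : ∏ l, e 𝕜 (κ g k l) * e 𝕜 (κ g k l) ^ b k l = e 𝕜 ((t : ZMod m) * pr (α k) (κ g k)) := by
      rw [pr, mul_sum, e_sum]
      refine prod_congr rfl fun l _ => ?_
      have h5 : e 𝕜 (κ g k l) * e 𝕜 (κ g k l) ^ b k l =
          e 𝕜 (κ g k l) ^ (((t : ZMod m) * α k l).val) := by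
        rw [← pow_succ']
        congr 1
        have := hpos k hk l
        simp only [hb]
        omega
      rw [h5, e_def, e_def, ← AddChar.map_nsmul_eq_pow, nsmul_eq_mul, ZMod.natCast_zmod_val]
      congr 1
      ring
    rw [h2, ← h4, prod_mul_distrib]
    ring
  have hprS : ∀ g : ∀ k, FermatGroup 𝕜 (N k) m, ∀ c : ZMod m,
      ∏ k ∈ S, e 𝕜 (c * pr (α k) (κ g k)) = e 𝕜 (c * prP α (κ g)) := by
    intro g c
    rw [← e_sum, ← mul_sum, prP]
    congr 2
    refine sum_subset (subset_univ S) fun k _ hk => ?_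
    have h1 : α k = 0 := by
      by_contra h
      exact hk ((hmS k).2 h)
    rw [h1]
    simp [pr]
  have hpoly : ∑ g ∈ a.support, C ((a g : 𝕜) * ((∏ k ∈ S, ((Equiv.Perm.sign (σ g k) : ℤ) : 𝕜)) *
      e 𝕜 ((t : ZMod m) * prP α (κ g)))) * monomial (E g) (1 : 𝕜) = 0 := by
    apply MvPolynomial.funext
    intro u
    have h1 := ha S hSne (fun k => ∑ l, b k l) (fun k => ∏ l, X l ^ b k l)
      (fun k hk => ⟨hdeg k hk, hM k⟩) (fun k l => u ⟨k, l⟩)
    rw [Finsupp.sum] at h1
    rw [map_zero, map_sum, ← h1]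
    refine sum_congr rfl fun g _ => ?_
    rw [map_mul, eval_C, mul_assoc]
    congr 1
    rw [prod_congr rfl fun k hk => hterm g k hk _, prod_mul_distrib, prod_mul_distrib, hprS]
    congr 1
    rw [eval_monomial, one_mul, Finsupp.prod_fintype _ _ (by intro i; rw [pow_zero]),
      Fintype.prod_sigma]
    symm
    refine prod_subset (subset_univ S) fun k _ hk => ?_
    refine prod_eq_one fun l _ => ?_
    rw [hb0 k hk, pow_zero]
  have hEq : ∀ g g₀ : ∀ k, FermatGroup 𝕜 (N k) m,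
      E g = E g₀ ↔ (fun k j => α k ((σ g k).symm j)) = fun k j => α k ((σ g₀ k).symm j) := by
    intro g g₀
    constructor
    · intro h
      have h1 := Finsupp.equivFunOnFinite.symm.injective h
      funext k j
      exact (hbα k _ _).1 (congrFun h1 ⟨k, j⟩)
    · intro h
      rw [hE]
      simp only
      congr 1
      funext x
      exact (hbα x.1 _ _).2 (congrFun (congrFun h x.1) x.2)
  have hcoef : ∀ g₀ : ∀ k, FermatGroup 𝕜 (N k) m,
      ∑ g ∈ a.support with (fun k j => α k ((σ g k).symm j)) = fun k j => α k ((σ g₀ k).symm j),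
        (a g : 𝕜) * (∏ k ∈ S, ((Equiv.Perm.sign (σ g k) : ℤ) : 𝕜)) *
          e 𝕜 ((t : ZMod m) * prP α (κ g)) = 0 := by
    intro g₀
    have h1 := congrArg (coeff (E g₀)) hpoly
    rw [coeff_zero, coeff_sum] at h1
    rw [← h1, sum_filter]
    refine sum_congr rfl fun g _ => ?_
    rw [coeff_C_mul, coeff_monomial]
    by_cases hst : (fun k j => α k ((σ g k).symm j)) = fun k j => α k ((σ g₀ k).symm j)
    · rw [if_pos hst, if_pos ((hEq g g₀).2 hst), mul_one, mul_assoc]
    · rw [if_neg hst, if_neg fun h => hst ((hEq g g₀).1 h), mul_zero]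
  have hcoef2 : ∀ g₀ : ∀ k, FermatGroup 𝕜 (N k) m,
      ∑ g ∈ a.support with (fun k j => α k ((σ g k).symm j)) = fun k j => α k ((σ g₀ k).symm j),
        (a g : 𝕜) * (∏ k ∈ S, ((Equiv.Perm.sign (σ g k) : ℤ) : 𝕜)) * e 𝕜 (prP α (κ g)) = 0 := by
    intro g₀
    have h1 := galois (𝕜 := 𝕜) (a.support.filter fun g =>
      (fun k j => α k ((σ g k).symm j)) = fun k j => α k ((σ g₀ k).symm j))
      (fun g => a g * ∏ k ∈ S, (Equiv.Perm.sign (σ g k) : ℤ)) (fun g => prP α (κ g)) t (by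
        rw [← hcoef g₀]
        refine sum_congr rfl fun g _ => ?_
        push_cast
        rfl)
    rw [← h1]
    refine sum_congr rfl fun g _ => ?_
    push_cast
    rfl
  -- the sum
  rw [wP, Finsupp.sum]
  rw [← sum_fiberwise_of_maps_to (s := a.support)
    (t := a.support.image fun g => (fun k j => α k ((σ g k).symm j)))
    (g := fun g => (fun k j => α k ((σ g k).symm j))) (fun g hg => mem_image_of_mem _ hg)]
  refine sum_eq_zero fun β hβ => ?_
  rw [mem_image] at hβ
  obtain ⟨g₀, _, rfl⟩ := hβ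
  have h1 : ∀ g ∈ a.support.filter (fun g => (fun k j => α k ((σ g k).symm j)) =
      fun k j => α k ((σ g₀ k).symm j)),
      (a g : 𝕜) * compP f α (actV g v) =
        ((a g : 𝕜) * (∏ k ∈ S, ((Equiv.Perm.sign (σ g k) : ℤ) : 𝕜)) * e 𝕜 (prP α (κ g))) *
          ((∏ k ∈ S, ((Equiv.Perm.sign (σ g₀ k) : ℤ) : 𝕜)) *
            compP f α fun k l => v k (σ g₀ k l)) := by
    intro g hg
    rw [mem_filter] at hg
    have hst := hg.2
    rw [hact, compP_dg]
    set π : ∀ k, Equiv.Perm (Fin (N k)) := fun k => (σ g₀ k)⁻¹ * σ g k with hπ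
    have hαπ : ∀ k l, α k (π k l) = α k l := by
      intro k l
      have h2 := congrFun (congrFun hst k) (σ g k l)
      simp only [Equiv.symm_apply_apply] at h2
      rw [h2]
      rfl
    have hσg : ∀ k l, σ g k l = σ g₀ k (π k l) := by
      intro k l
      rw [hπ, Equiv.Perm.mul_apply]
      exact ((σ g₀ k).apply_symm_apply _).symm
    have h3 : (fun k l => v k (σ g k l)) = fun k l => (fun k l' => v k (σ g₀ k l')) k (π k l) := by
      funext k l
      rw [hσg]
    rw [h3, hf.comp_perm hN π hαπ (onP_perm (σ g₀) hv)]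
    have h4 : ∏ k ∈ S, ((Equiv.Perm.sign (π k) : ℤ) : 𝕜) =
        (∏ k ∈ S, ((Equiv.Perm.sign (σ g₀ k) : ℤ) : 𝕜)) *
          ∏ k ∈ S, ((Equiv.Perm.sign (σ g k) : ℤ) : 𝕜) := by
      rw [← prod_mul_distrib]
      refine prod_congr rfl fun k _ => ?_
      rw [hπ, Equiv.Perm.sign_mul, Equiv.Perm.sign_inv]
      push_cast
      rfl
    rw [← hS, h4]
    ring
  rw [sum_congr rfl h1, ← sum_mul, hcoef2 g₀, zero_mul]

/-- the combinations are constant -/
theorem GoodP.wP_const (hf : GoodP m f) (hm : 3 ≤ m) (hN : ∀ k, 3 ≤ N k)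
    (hmN : ∀ k, m + 3 ≤ 2 * N k) (a : (∀ k, FermatGroup 𝕜 (N k) m) →₀ ℤ) (ha : KillsForms a)
    {v v' : ∀ k, Fin (N k) → 𝕜} (hv : OnP m v) (hv' : OnP m v') : wP a f v = wP a f v' := by
  classical
  have hα : ∀ α : ∀ k, Fin (N k) → ZMod m, α ≠ 0 → ∀ v, OnP m v → wP a (compP f α) v = 0 := by
    intro α hα0 v hv
    obtain ⟨k₀, hk₀⟩ : ∃ k, α k ≠ 0 := by
      by_contra hcon
      push Not at hcon
      exact hα0 (funext hcon)
    by_cases hz : ∀ w : ∀ k, Fin (N k) → 𝕜, OnP m w → compP f α w = 0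
    · refine sum_eq_zero fun g _ => ?_
      simp only
      rw [hz _ (onP_actV g hv), mul_zero]
    -- the sums
    have h0 : ∀ k, ∑ i, α k i = 0 := by
      intro k
      by_contra h
      exact hz fun w hw => hf.comp_sum_ne h hw
    have hmin : ∀ k, α k ≠ 0 → ∀ B : Finset (Fin (N k)), B.Nonempty → B ≠ univ →
        ∑ i ∈ B, α k i ≠ 0 := by
      intro k hk B hB hB' h
      exact hz fun w hw => hf.comp_B_zero hB hB' hk h hw
    have hne : ∀ k, α k ≠ 0 → ∀ i, α k i ≠ 0 := by
      intro k hk i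
      have h1 := hmin k hk {i} (singleton_nonempty i) (by
        intro h
        have h1 := congrArg Finset.card h
        rw [card_singleton, card_univ, Fintype.card_fin] at h1
        have := hN k
        omega)
      rwa [sum_singleton] at h1
    have hone : ∀ k, ∃ t : (ZMod m)ˣ, α k ≠ 0 → ∑ i, ((t : ZMod m) * α k i).val = m := by
      intro k
      by_cases hk : α k = 0
      · exact ⟨1, fun h => absurd hk h⟩
      · obtain ⟨t, ht⟩ := Pool.Agent.T2H37.FB.index_one (by omega) (α k) (h0 k) (hmin k hk)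
          (by rw [Fintype.card_fin]; have := hmN k; omega)
        exact ⟨t, fun _ => ht⟩
    choose t ht using hone
    by_cases hall : ∀ k, α k ≠ 0 → t k = t k₀
    · refine hf.wP_minimal hm hN a ha ⟨k₀, hk₀⟩ hne (t k₀) (fun k hk => ?_) hv
      rw [← hall k hk]
      exact ht k hk
    · push Not at hall
      obtain ⟨k, hk, hkt⟩ := hall
      exfalso
      apply hz
      intro w hw
      have hkk : k ≠ k₀ := by
        rintro rfl
        exact hkt rfl
      obtain ⟨b₁, b₂, h3, h4, h5⟩ := three_blocks hm (hne k hk) (hne k₀ hk₀) hkt (ht k hk)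
        (ht k₀ hk₀) (hmN k) (hmN k₀)
      obtain ⟨b, hb₁, hb₂⟩ : ∃ b : ∀ k, Fin (N k) → Fin 3, b k = b₁ ∧ b k₀ = b₂ := by
        refine ⟨Function.update (Function.update (fun _ _ => 0) k b₁) k₀ b₂, ?_, ?_⟩
        · rw [Function.update_of_ne hkk, Function.update_self]
        · rw [Function.update_self]
      refine hf.comp_three hkk (b := b) h0 ?_ ?_ ?_ (hne k hk) (hne k₀ hk₀) hw
      · intro B
        rw [hb₁, hb₂]
        exact h3 B
      · rw [hb₁]
        exact h4
      · rw [hb₂]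
        exact h5
  have h1 : ∀ w : ∀ k, Fin (N k) → 𝕜, ∑ α : ∀ k, Fin (N k) → ZMod m, wP a (compP f α) w =
      (Fintype.card (∀ k, Fin (N k) → ZMod m) : 𝕜) * wP a f w := by
    intro w
    simp only [wP, Finsupp.sum]
    rw [sum_comm]
    simp only [← mul_sum, sum_compP]
    rw [mul_sum]
    refine sum_congr rfl fun g _ => ?_
    ring
  have h2 : ∀ w : ∀ k, Fin (N k) → 𝕜, OnP m w →
      ∑ α : ∀ k, Fin (N k) → ZMod m, wP a (compP f α) w =
        wP a (compP f (0 : ∀ k, Fin (N k) → ZMod m)) w := by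
    intro w hw
    refine sum_eq_single 0 (fun α _ hα0 => hα α hα0 w hw) fun h => absurd (mem_univ _) h
  refine mul_left_cancel₀ (card_ne_zeroP (𝕜 := 𝕜) (N := N) (m := m)) ?_
  rw [← h1, ← h1, h2 v hv, h2 v' hv']
  simp only [wP, Finsupp.sum]
  refine sum_congr rfl fun g _ => ?_
  rw [hf.comp_zero (fun k => by have := hN k; omega) (onP_actV g hv) (onP_actV g hv')]

end Pool.Agent.T2H37.PR
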