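import Pool.Agent.T2H37.PR.Fam

/-!
# Norms for antidiagonal actions of roots of unity, and symmetric products
-/

set_option autoImplicit false
set_option linter.unusedSectionVars false
set_option linter.unusedSimpArgs false

namespace Pool.Agent.T2H37.PR

open MvPolynomial Finset Pool.Agent.T2H37.FK

variable {𝕜 : Type*} [Field 𝕜] [IsAlgClosed 𝕜] [CharZero 𝕜]

section anti

variable {m : ℕ} [NeZero m] {ι J : Type*} [Fintype ι] [DecidableEq ι] [Fintype J]

/-- multiplication of `u i` and `v i` by a root of unity and its inverse -/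
noncomputable def twa (κ : ι → ZMod m) :
    MvPolynomial ((ι ⊕ ι) ⊕ J) 𝕜 →ₐ[𝕜] MvPolynomial ((ι ⊕ ι) ⊕ J) 𝕜 :=
  aeval fun x => C (Sum.elim (Sum.elim (fun i => e 𝕜 (κ i)) fun i => e 𝕜 (-κ i))
    (fun _ => (1 : 𝕜)) x) * X x

lemma twa_twa (κ κ' : ι → ZMod m) (P : MvPolynomial ((ι ⊕ ι) ⊕ J) 𝕜) :
    twa κ (twa κ' P) = twa (κ + κ') P := by
  have h : (twa κ : MvPolynomial ((ι ⊕ ι) ⊕ J) 𝕜 →ₐ[𝕜] _).comp (twa κ') = twa (κ + κ') := by
    apply MvPolynomial.algHom_ext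
    intro x
    rw [AlgHom.comp_apply, twa, twa, twa, aeval_X, aeval_X, map_mul, algHom_C, algebraMap_eq,
      aeval_X, ← mul_assoc, ← C_mul]
    congr 2
    rcases x with (i | i) | j
    · simp only [Sum.elim_inl, Pi.add_apply, e_add]
      ring
    · simp only [Sum.elim_inl, Sum.elim_inr, Pi.add_apply, neg_add, e_add]
      ring
    · simp
  rw [← h]
  rfl

lemma twa_monomial (κ : ι → ZMod m) (d : (ι ⊕ ι) ⊕ J →₀ ℕ) (a : 𝕜) :
    twa κ (monomial d a) = monomial d (a * ((∏ i, e 𝕜 (κ i) ^ d (Sum.inl (Sum.inl i))) *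
      ∏ i, e 𝕜 (-κ i) ^ d (Sum.inl (Sum.inr i)))) := by
  rw [twa, aeval_monomial, Finsupp.prod_fintype _ _ (by intro i; rw [pow_zero])]
  simp only [mul_pow, prod_mul_distrib, ← C_pow]
  rw [← map_prod, ← mul_assoc, algebraMap_eq, ← C_mul]
  have h1 : ∀ b : 𝕜, monomial d b = C b * ∏ x, X x ^ d x := by
    intro b
    rw [monomial_eq, Finsupp.prod_fintype _ _ (by intro i; rw [pow_zero])]
  rw [h1, Fintype.prod_sum_type (fun x => Sum.elim (Sum.elim (fun i => e 𝕜 (κ i))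
    fun i => e 𝕜 (-κ i)) (fun _ => (1 : 𝕜)) x ^ d x), Fintype.prod_sum_type]
  simp

lemma coeff_twa (κ : ι → ZMod m) (P : MvPolynomial ((ι ⊕ ι) ⊕ J) 𝕜) (d : (ι ⊕ ι) ⊕ J →₀ ℕ) :
    coeff d (twa κ P) = coeff d P * ((∏ i, e 𝕜 (κ i) ^ d (Sum.inl (Sum.inl i))) *
      ∏ i, e 𝕜 (-κ i) ^ d (Sum.inl (Sum.inr i))) := by
  classical
  induction P using MvPolynomial.induction_on' with
  | monomial d' a =>
    rw [twa_monomial, coeff_monomial, coeff_monomial]
    split_ifs with h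
    · rw [h]
    · rw [zero_mul]
  | add p q hp hq => rw [map_add, coeff_add, coeff_add, hp, hq, add_mul]

/-- the norm -/
noncomputable def nrma (m : ℕ) [NeZero m] (H : MvPolynomial ((ι ⊕ ι) ⊕ J) 𝕜) :
    MvPolynomial ((ι ⊕ ι) ⊕ J) 𝕜 := ∏ κ : ι → ZMod m, twa κ H

lemma twa_nrma (κ : ι → ZMod m) (H : MvPolynomial ((ι ⊕ ι) ⊕ J) 𝕜) :
    twa κ (nrma m H) = nrma m H := by
  rw [nrma, map_prod]
  refine Fintype.prod_equiv (Equiv.addLeft κ) _ _ fun κ' => ?_
  rw [twa_twa]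
  rfl

lemma nrma_modEq {H : MvPolynomial ((ι ⊕ ι) ⊕ J) 𝕜} {d : (ι ⊕ ι) ⊕ J →₀ ℕ}
    (hd : coeff d (nrma m H) ≠ 0) (i₀ : ι) :
    d (Sum.inl (Sum.inl i₀)) ≡ d (Sum.inl (Sum.inr i₀)) [MOD m] := by
  have h1 := congrArg (coeff d) (twa_nrma (Pi.single i₀ (1 : ZMod m)) H)
  rw [coeff_twa] at h1
  have h2 : ∏ i, e 𝕜 ((Pi.single i₀ (1 : ZMod m) : ι → ZMod m) i) ^ d (Sum.inl (Sum.inl i)) =
      e 𝕜 (1 : ZMod m) ^ d (Sum.inl (Sum.inl i₀)) := by
    rw [prod_eq_single i₀]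
    · rw [Pi.single_eq_same]
    · intro i _ hi
      rw [Pi.single_eq_of_ne hi, e_zero, one_pow]
    · intro h
      exact absurd (mem_univ _) h
  have h3 : ∏ i, e 𝕜 (-(Pi.single i₀ (1 : ZMod m) : ι → ZMod m) i) ^ d (Sum.inl (Sum.inr i)) =
      e 𝕜 (-(1 : ZMod m)) ^ d (Sum.inl (Sum.inr i₀)) := by
    rw [prod_eq_single i₀]
    · rw [Pi.single_eq_same]
    · intro i _ hi
      rw [Pi.single_eq_of_ne hi, neg_zero, e_zero, one_pow]
    · intro h
      exact absurd (mem_univ _) h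
  rw [h2, h3, e_neg] at h1
  set ζ : 𝕜 := e 𝕜 (1 : ZMod m) with hζ
  have hζ0 : ζ ≠ 0 := e_ne_zero _
  have h4 : ζ ^ d (Sum.inl (Sum.inl i₀)) * ζ⁻¹ ^ d (Sum.inl (Sum.inr i₀)) = 1 := by
    have h4 : coeff d (nrma m H) *
        (ζ ^ d (Sum.inl (Sum.inl i₀)) * ζ⁻¹ ^ d (Sum.inl (Sum.inr i₀)) - 1) = 0 := by
      rw [mul_sub, h1, mul_one, sub_self]
    exact sub_eq_zero.1 ((mul_eq_zero.1 h4).resolve_left hd)
  have h5 : ζ ^ d (Sum.inl (Sum.inl i₀)) = ζ ^ d (Sum.inl (Sum.inr i₀)) := by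
    rw [inv_pow] at h4
    exact (mul_inv_eq_one₀ (pow_ne_zero _ hζ0)).1 h4
  have h6 : IsPrimitiveRoot ζ m := e_primitive (𝕜 := 𝕜) (m := m) 1
  have h7 : Units.mk0 ζ hζ0 ^ d (Sum.inl (Sum.inl i₀)) = Units.mk0 ζ hζ0 ^ d (Sum.inl (Sum.inr i₀)) := by
    apply Units.ext
    rw [Units.val_pow_eq_pow_val, Units.val_pow_eq_pow_val, Units.val_mk0]
    exact h5
  have h8 := pow_eq_pow_iff_modEq.1 h7
  rw [← orderOf_units, Units.val_mk0, ← h6.eq_orderOf] at h8
  exact h8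

lemma pow_split {R : Type*} [CommRing R] (a b : R) {p q : ℕ} (h : p ≡ q [MOD m]) :
    (a ^ m) ^ ((p - q) / m) * (b ^ m) ^ ((q - p) / m) * (a * b) ^ min p q = a ^ p * b ^ q := by
  rcases le_total p q with hpq | hpq
  · have h1 : m ∣ q - p := (Nat.modEq_iff_dvd' hpq).1 h
    rw [Nat.sub_eq_zero_of_le hpq, Nat.zero_div, pow_zero, one_mul, min_eq_left hpq, ← pow_mul,
      Nat.mul_div_cancel' h1, mul_pow, mul_left_comm, ← pow_add, Nat.sub_add_cancel hpq]
  · have h1 : m ∣ p - q := (Nat.modEq_iff_dvd' hpq).1 h.symm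
    rw [Nat.sub_eq_zero_of_le hpq, Nat.zero_div, pow_zero, mul_one, min_eq_right hpq, ← pow_mul,
      Nat.mul_div_cancel' h1, mul_pow, ← mul_assoc, ← pow_add, Nat.sub_add_cancel hpq]

/-- the norm is a polynomial in the `u i ^ m`, `v i ^ m` and `u i * v i` -/
lemma exists_nrma (m : ℕ) [NeZero m] (H : MvPolynomial ((ι ⊕ ι) ⊕ J) 𝕜) :
    ∃ Q : MvPolynomial ((ι ⊕ ι) ⊕ (ι ⊕ J)) 𝕜,
    ∀ (R : Type _) [CommRing R] [Algebra 𝕜 R] (u v : ι → R) (y : J → R),
      ∏ κ : ι → ZMod m, aeval (Sum.elim (Sum.elim (fun i => algebraMap 𝕜 R (e 𝕜 (κ i)) * u i)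
        fun i => algebraMap 𝕜 R (e 𝕜 (-κ i)) * v i) y) H =
        aeval (Sum.elim (Sum.elim (fun i => u i ^ m) fun i => v i ^ m)
          (Sum.elim (fun i => u i * v i) y)) Q := by
  refine ⟨∑ d ∈ (nrma m H).support,
    monomial (Finsupp.equivFunOnFinite.symm
      (Sum.elim (Sum.elim (fun i => (d (Sum.inl (Sum.inl i)) - d (Sum.inl (Sum.inr i))) / m)
        (fun i => (d (Sum.inl (Sum.inr i)) - d (Sum.inl (Sum.inl i))) / m))
        (Sum.elim (fun i => min (d (Sum.inl (Sum.inl i))) (d (Sum.inl (Sum.inr i))))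
          fun j => d (Sum.inr j)))) (coeff d (nrma m H)), ?_⟩
  intro R _ _ u v y
  have h1 : ∏ κ : ι → ZMod m, aeval (Sum.elim (Sum.elim (fun i => algebraMap 𝕜 R (e 𝕜 (κ i)) * u i)
        fun i => algebraMap 𝕜 R (e 𝕜 (-κ i)) * v i) y) H =
      aeval (Sum.elim (Sum.elim u v) y) (nrma m H) := by
    rw [nrma, map_prod]
    refine prod_congr rfl fun κ _ => ?_
    have h2 : (aeval (Sum.elim (Sum.elim u v) y) : MvPolynomial ((ι ⊕ ι) ⊕ J) 𝕜 →ₐ[𝕜] R).comp
        (twa κ) = aeval (Sum.elim (Sum.elim (fun i => algebraMap 𝕜 R (e 𝕜 (κ i)) * u i)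
        fun i => algebraMap 𝕜 R (e 𝕜 (-κ i)) * v i) y) := by
      apply MvPolynomial.algHom_ext
      intro x
      rw [AlgHom.comp_apply, twa, aeval_X, map_mul, aeval_C, aeval_X, aeval_X]
      rcases x with (i | i) | j
      · simp
      · simp
      · simp
    rw [← h2]
    rfl
  rw [h1, map_sum]
  conv_lhs => rw [(nrma m H).as_sum, map_sum]
  refine sum_congr rfl fun d hd => ?_
  rw [aeval_monomial, aeval_monomial]
  congr 1
  rw [Finsupp.prod_fintype _ _ (by intro i; rw [pow_zero]),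
    Finsupp.prod_fintype _ _ (by intro i; rw [pow_zero]), Fintype.prod_sum_type,
    Fintype.prod_sum_type, Fintype.prod_sum_type, Fintype.prod_sum_type, Fintype.prod_sum_type,
    ← mul_assoc, ← prod_mul_distrib, ← prod_mul_distrib, ← prod_mul_distrib]
  congr 1
  refine prod_congr rfl fun i _ => ?_
  simp only [Sum.elim_inl, Sum.elim_inr, Finsupp.equivFunOnFinite_symm_apply_apply]
  rw [pow_split _ _ (nrma_modEq (mem_support_iff.1 hd) i)]

end anti

section symm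

variable {J : Type*}

/-- the function with the values `z` and `w` -/
def bsel {R : Type*} (z w : R) : Bool → R
  | false => z
  | true => w

/-- Polynomials in two elements `z, w` in terms of `z + w`, `z * w` and `z`. -/
lemma exists_AB (H : MvPolynomial (Bool ⊕ J) 𝕜) : ∃ A B : MvPolynomial (Bool ⊕ J) 𝕜,
    ∀ (R : Type _) [CommRing R] [Algebra 𝕜 R] (z w : R) (y : J → R),
      aeval (Sum.elim (bsel z w) y) H =
        aeval (Sum.elim (bsel (z + w) (z * w)) y) A +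
          z * aeval (Sum.elim (bsel (z + w) (z * w)) y) B := by
  induction H using MvPolynomial.induction_on with
  | C a =>
    refine ⟨C a, 0, fun R _ _ z w y => ?_⟩
    rw [aeval_C, aeval_C, map_zero, mul_zero, add_zero]
  | add p q hp hq =>
    obtain ⟨A, B, h⟩ := hp
    obtain ⟨A', B', h'⟩ := hq
    refine ⟨A + A', B + B', fun R _ _ z w y => ?_⟩
    rw [map_add, map_add, map_add, h, h']
    ring
  | mul_X p x hp =>
    obtain ⟨A, B, h⟩ := hp
    rcases x with (_ | _) | j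
    · refine ⟨-(X (Sum.inl true) * B), A + X (Sum.inl false) * B, fun R _ _ z w y => ?_⟩
      rw [map_mul, h, aeval_X, map_neg, map_mul, aeval_X, map_add, map_mul, aeval_X]
      simp only [Sum.elim_inl, bsel]
      ring
    · refine ⟨X (Sum.inl false) * A + X (Sum.inl true) * B, -A, fun R _ _ z w y => ?_⟩
      rw [map_mul, h, aeval_X, map_add, map_mul, aeval_X, map_mul, aeval_X, map_neg]
      simp only [Sum.elim_inl, bsel]
      ring
    · refine ⟨X (Sum.inr j) * A, X (Sum.inr j) * B, fun R _ _ z w y => ?_⟩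
      rw [map_mul, h, aeval_X, map_mul, aeval_X, map_mul, aeval_X]
      simp only [Sum.elim_inr]
      ring

/-- the product of a polynomial and the polynomial with `z` and `w` exchanged -/
lemma exists_symm (H : MvPolynomial (Bool ⊕ J) 𝕜) : ∃ W : MvPolynomial (Bool ⊕ J) 𝕜,
    ∀ (R : Type _) [CommRing R] [Algebra 𝕜 R] (z w : R) (y : J → R),
      aeval (Sum.elim (bsel z w) y) H * aeval (Sum.elim (bsel w z) y) H =
        aeval (Sum.elim (bsel (z + w) (z * w)) y) W := by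
  obtain ⟨A, B, h⟩ := exists_AB H
  refine ⟨A ^ 2 + X (Sum.inl false) * A * B + X (Sum.inl true) * B ^ 2, fun R _ _ z w y => ?_⟩
  rw [h R z w y, h R w z y, add_comm w z, mul_comm w z, map_add, map_add, map_pow, map_mul, map_mul,
    aeval_X, map_mul, map_pow, aeval_X]
  simp only [Sum.elim_inl, bsel]
  ring

end symm

end Pool.Agent.T2H37.PR
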