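import Pool.Agent.T2H37.PR.Blk

/-!
# Permutations of the coordinates and of the factors
-/

set_option autoImplicit false
set_option linter.unusedSectionVars false
set_option linter.unusedSimpArgs false

namespace Pool.Agent.T2H37.PR

open MvPolynomial Finset Pool.Agent.T2H37.FK

section blk

variable {K : ℕ} {N : Fin K → ℕ}

/-- a permutation of the coordinates that permutes the blocks -/
def Blk (τ : Equiv.Perm (Σ k, Fin (N k))) (π : Equiv.Perm (Fin K)) : Prop := ∀ x, (τ x).1 = π x.1

/-- the coordinates in another order -/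
def rl {R : Type*} (τ : Equiv.Perm (Σ k, Fin (N k))) (v : ∀ k, Fin (N k) → R) :
    ∀ k, Fin (N k) → R := fun k i => v (τ ⟨k, i⟩).1 (τ ⟨k, i⟩).2

lemma rl_rl {R : Type*} (τ τ' : Equiv.Perm (Σ k, Fin (N k))) (v : ∀ k, Fin (N k) → R) :
    rl τ (rl τ' v) = rl (τ' * τ) v := rfl

lemma Blk.exists_equiv {τ : Equiv.Perm (Σ k, Fin (N k))} {π : Equiv.Perm (Fin K)} (h : Blk τ π)
    (k : Fin K) : ∃ b : Fin (N k) ≃ Fin (N (π k)), ∀ i, τ ⟨k, i⟩ = ⟨π k, b i⟩ := by
  have h1 : ∀ i, ∃ j : Fin (N (π k)), τ ⟨k, i⟩ = ⟨π k, j⟩ := by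
    intro i
    have h2 := h ⟨k, i⟩
    generalize τ ⟨k, i⟩ = y at h2
    obtain ⟨y1, y2⟩ := y
    simp only at h2
    subst h2
    exact ⟨y2, rfl⟩
  choose b hb using h1
  refine ⟨Equiv.ofBijective b ⟨?_, ?_⟩, hb⟩
  · intro i j hij
    have h2 : τ ⟨k, i⟩ = τ ⟨k, j⟩ := by rw [hb, hb, hij]
    have h3 := τ.injective h2
    simpa using h3
  · intro j
    have h2 : (τ.symm ⟨π k, j⟩).1 = k := by
      have h3 := h (τ.symm ⟨π k, j⟩)
      rw [Equiv.apply_symm_apply] at h3
      exact (π.injective h3).symm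
    obtain ⟨i, hi⟩ : ∃ i : Fin (N k), τ.symm ⟨π k, j⟩ = ⟨k, i⟩ := by
      generalize τ.symm ⟨π k, j⟩ = y at h2
      obtain ⟨y1, y2⟩ := y
      simp only at h2
      subst h2
      exact ⟨y2, rfl⟩
    refine ⟨i, ?_⟩
    have h3 : τ ⟨k, i⟩ = ⟨π k, j⟩ := by rw [← hi, Equiv.apply_symm_apply]
    rw [hb] at h3
    simpa using h3

lemma Blk.mul {τ τ' : Equiv.Perm (Σ k, Fin (N k))} {π π' : Equiv.Perm (Fin K)} (h : Blk τ π)
    (h' : Blk τ' π') : Blk (τ * τ') (π * π') := by
  intro x
  rw [Equiv.Perm.mul_apply, h, h', Equiv.Perm.mul_apply]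

lemma Blk.inv {τ : Equiv.Perm (Σ k, Fin (N k))} {π : Equiv.Perm (Fin K)} (h : Blk τ π) :
    Blk τ⁻¹ π⁻¹ := by
  intro x
  have h1 := h (τ.symm x)
  rw [Equiv.apply_symm_apply] at h1
  change (τ.symm x).1 = π.symm x.1
  rw [h1, Equiv.symm_apply_apply]

lemma rl_apply_of {R : Type*} {τ : Equiv.Perm (Σ k, Fin (N k))} (v : ∀ k, Fin (N k) → R)
    {k k' : Fin K} {i : Fin (N k)} {j : Fin (N k')} (h : τ ⟨k, i⟩ = ⟨k', j⟩) :
    rl τ v k i = v k' j := by
  rw [rl, h]

end blk

variable {𝕜 : Type*} [Field 𝕜] [IsAlgClosed 𝕜] [CharZero 𝕜]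

variable {K : ℕ} {N : Fin K → ℕ} {m : ℕ} [NeZero m] {f : (∀ k, Fin (N k) → 𝕜) → 𝕜}

lemma onP_rl {τ : Equiv.Perm (Σ k, Fin (N k))} {π : Equiv.Perm (Fin K)} (hτ : Blk τ π)
    {v : ∀ k, Fin (N k) → 𝕜} (hv : OnP m v) : OnP m (rl τ v) := by
  intro k
  obtain ⟨b, hb⟩ := hτ.exists_equiv k
  have h1 : rl τ v k = fun i => v (π k) (b i) := by
    funext i
    exact rl_apply_of v (hb i)
  rw [h1]
  exact onX_relab b (hv (π k))

/-- the components under the permutations that fix the character -/
theorem GoodP.stab (hf : GoodP m f) (hN : ∀ k, 3 ≤ N k) {α : ∀ k, Fin (N k) → ZMod m}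
    {S : Finset (Fin K)} (hS : ∀ k, k ∈ S ↔ α k ≠ 0) (hα : ∀ k ∈ S, ∀ i, α k i ≠ 0) :
    ∀ (n : ℕ) (τ : Equiv.Perm (Σ k, Fin (N k))) (π : Equiv.Perm (Fin K)) (_ : Blk τ π)
      (_ : ∀ x, α (τ x).1 (τ x).2 = α x.1 x.2)
      (θ : Equiv.Perm {x : Σ k, Fin (N k) // x.1 ∈ S}) (_ : ∀ x, (θ x).1 = τ x.1)
      (_ : θ.support.card = n) (v : ∀ k, Fin (N k) → 𝕜) (_ : OnP m v),
      PR.compP f α (rl τ v) = ((Equiv.Perm.sign θ : ℤ) : 𝕜) * PR.compP f α v := by
  intro n
  induction n using Nat.strong_induction_on with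
  | _ n ih =>
  intro τ π hτ hατ θ hθ hn v hv
  by_cases hid : ∀ x, θ x = x
  · have h1 : θ = 1 := Equiv.ext hid
    rw [h1, Equiv.Perm.sign_one]
    simp only [Units.val_one, Int.cast_one, one_mul]
    refine hf.comp_congr (fun k => by have := hN k; omega) (onP_rl hτ hv) hv fun k hk => ?_
    funext i
    refine rl_apply_of v ?_
    rw [← hθ ⟨⟨k, i⟩, (hS k).2 hk⟩, hid]
  push Not at hid
  obtain ⟨x, hx⟩ := hid
  have hxτ : τ x.1 ≠ x.1 := by
    rw [← hθ]
    exact fun h => hx (Subtype.ext h)
  by_cases hblk : (τ x.1).1 = x.1.1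
  · -- two coordinates in one block
    set s : Equiv.Perm (Σ k, Fin (N k)) := Equiv.swap x.1 (τ x.1) with hs
    have hs1 : Blk s 1 := by
      intro z
      rw [Equiv.Perm.one_apply, hs]
      by_cases h1 : z = x.1
      · rw [h1, Equiv.swap_apply_left, hblk]
      · by_cases h2 : z = τ x.1
        · rw [h2, Equiv.swap_apply_right, hblk]
        · rw [Equiv.swap_apply_of_ne_of_ne h1 h2]
    have hsα : ∀ z, α (s z).1 (s z).2 = α z.1 z.2 := by
      intro z
      rw [hs]
      by_cases h1 : z = x.1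
      · rw [h1, Equiv.swap_apply_left, hατ]
      · by_cases h2 : z = τ x.1
        · rw [h2, Equiv.swap_apply_right, hατ]
        · rw [Equiv.swap_apply_of_ne_of_ne h1 h2]
    have hτ' : Blk (s * τ) π := by
      have h1 := hs1.mul hτ
      rwa [one_mul] at h1
    have hcard : (Equiv.swap x (θ x) * θ).support.card < n := by
      rw [← hn]
      exact Equiv.Perm.card_support_swap_mul hx
    have h1 := ih _ hcard (s * τ) π hτ' (fun z => by
      rw [Equiv.Perm.mul_apply, hsα, hατ]) (Equiv.swap x (θ x) * θ) (fun z => by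
        rw [Equiv.Perm.mul_apply, Equiv.Perm.mul_apply, ← hθ, hs, ← hθ]
        by_cases h1 : θ z = x
        · rw [h1, Equiv.swap_apply_left, Equiv.swap_apply_left]
        · by_cases h2 : θ z = θ x
          · rw [h2, Equiv.swap_apply_right, Equiv.swap_apply_right]
          · rw [Equiv.swap_apply_of_ne_of_ne h1 h2, Equiv.swap_apply_of_ne_of_ne
              (fun h => h1 (Subtype.ext h)) fun h => h2 (Subtype.ext h)]) rfl (rl s v)
        (onP_rl hs1 hv)
    have h2 : s * (s * τ) = τ := by
      rw [← mul_assoc, hs, Equiv.swap_mul_self, one_mul]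
    rw [rl_rl, h2] at h1
    rw [h1]
    -- the transposition
    obtain ⟨⟨k, i⟩, hk⟩ := x
    have hkS := hk
    simp only at hk hblk hs hxτ
    obtain ⟨j, hj⟩ : ∃ j : Fin (N k), τ ⟨k, i⟩ = ⟨k, j⟩ := by
      generalize τ ⟨k, i⟩ = y at hblk
      obtain ⟨y1, y2⟩ := y
      simp only at hblk
      subst hblk
      exact ⟨y2, rfl⟩
    have hij : i ≠ j := by
      rintro rfl
      exact hxτ hj
    have hαij : α k i = α k j := by
      have h3 := hατ ⟨k, i⟩
      rw [hj] at h3
      exact h3.symm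
    have h3 : rl s v = Function.update v k fun l => v k (Equiv.swap i j l) := by
      funext k' l
      by_cases hk' : k' = k
      · subst hk'
        rw [Function.update_self]
        refine rl_apply_of v ?_
        rw [hs, hj]
        by_cases h4 : l = i
        · rw [h4, Equiv.swap_apply_left, Equiv.swap_apply_left]
        · by_cases h5 : l = j
          · rw [h5, Equiv.swap_apply_right, Equiv.swap_apply_right]
          · rw [Equiv.swap_apply_of_ne_of_ne h4 h5, Equiv.swap_apply_of_ne_of_ne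
              (fun h => h4 (by simpa using h)) fun h => h5 (by simpa using h)]
      · rw [Function.update_of_ne hk']
        refine rl_apply_of v ?_
        rw [hs, hj, Equiv.swap_apply_of_ne_of_ne (fun h => hk' (congrArg Sigma.fst h))
          fun h => hk' (congrArg Sigma.fst h)]
    have h4 := hf.comp_perm_one (hN k) ((hS k).1 hkS) (Equiv.swap i j) (fun l => by
      by_cases h4 : l = i
      · rw [h4, Equiv.swap_apply_left, hαij]
      · by_cases h5 : l = j
        · rw [h5, Equiv.swap_apply_right, hαij]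
        · rw [Equiv.swap_apply_of_ne_of_ne h4 h5]) hv
    rw [h3, h4, Equiv.Perm.sign_swap hij, Equiv.Perm.sign_mul, Equiv.Perm.sign_swap (Ne.symm hx)]
    push_cast
    ring
  · -- two blocks
    obtain ⟨⟨k₁, i₁⟩, hk₁⟩ := x
    simp only at hk₁ hblk hxτ
    set k₂ := π k₁ with hk₂
    have hk : k₁ ≠ k₂ := by
      intro h
      apply hblk
      rw [hτ, ← hk₂, ← h]
    obtain ⟨b, hb⟩ : ∃ b : Fin (N k₁) ≃ Fin (N k₂), ∀ i, τ ⟨k₁, i⟩ = ⟨k₂, b i⟩ :=
      hτ.exists_equiv k₁
    have hk₂S : k₂ ∈ S := by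
      rw [hS]
      intro h
      have h1 := hατ ⟨k₁, i₁⟩
      rw [hb] at h1
      simp only at h1
      rw [h] at h1
      exact hα k₁ hk₁ i₁ h1.symm
    set sF : (Σ k, Fin (N k)) → (Σ k, Fin (N k)) := fun z =>
      if z.1 = k₁ then τ z else if z.1 = k₂ then τ.symm z else z with hsF
    have hF1 : ∀ z, z.1 = k₁ → sF z = τ z := by
      intro z hz
      rw [hsF]
      simp only [hz, if_true]
    have hF2 : ∀ z, z.1 = k₂ → sF z = τ.symm z := by
      intro z hz
      rw [hsF]
      simp only [hz, if_true, if_neg hk.symm]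
    have hF3 : ∀ z, z.1 ≠ k₁ → z.1 ≠ k₂ → sF z = z := by
      intro z h1 h2
      rw [hsF]
      simp only [h1, h2, if_false]
    have hblk1 : ∀ z, z.1 = k₁ → (τ z).1 = k₂ := by
      intro z hz
      rw [hτ, hz]
    have hblk2 : ∀ z, z.1 = k₂ → (τ.symm z).1 = k₁ := by
      intro z hz
      have h1 := hτ (τ.symm z)
      rw [Equiv.apply_symm_apply, hz, hk₂] at h1
      exact (π.injective h1).symm
    have hinv : Function.Involutive sF := by
      intro z
      by_cases h1 : z.1 = k₁
      · rw [hF1 z h1, hF2 _ (hblk1 z h1), Equiv.symm_apply_apply]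
      · by_cases h2 : z.1 = k₂
        · rw [hF2 z h2, hF1 _ (hblk2 z h2), Equiv.apply_symm_apply]
        · rw [hF3 z h1 h2, hF3 z h1 h2]
    set s : Equiv.Perm (Σ k, Fin (N k)) := hinv.toPerm with hs
    have hsa : ∀ z, s z = sF z := fun z => rfl
    have hss : s * s = 1 := by
      ext1 z
      rw [Equiv.Perm.mul_apply, hsa, hsa, hinv, Equiv.Perm.one_apply]
    have hsB : Blk s (Equiv.swap k₁ k₂) := by
      intro z
      rw [hsa]
      by_cases h1 : z.1 = k₁
      · rw [hF1 z h1, hblk1 z h1, h1, Equiv.swap_apply_left]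
      · by_cases h2 : z.1 = k₂
        · rw [hF2 z h2, hblk2 z h2, h2, Equiv.swap_apply_right]
        · rw [hF3 z h1 h2, Equiv.swap_apply_of_ne_of_ne h1 h2]
    have hsα : ∀ z, α (s z).1 (s z).2 = α z.1 z.2 := by
      intro z
      rw [hsa]
      by_cases h1 : z.1 = k₁
      · rw [hF1 z h1, hατ]
      · by_cases h2 : z.1 = k₂
        · rw [hF2 z h2, ← hατ (τ.symm z), Equiv.apply_symm_apply]
        · rw [hF3 z h1 h2]
    have hsS : ∀ z, (s z).1 ∈ S ↔ z.1 ∈ S := by
      intro z
      rw [hsB]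
      by_cases h1 : z.1 = k₁
      · rw [h1, Equiv.swap_apply_left]
        exact ⟨fun _ => hk₁, fun _ => hk₂S⟩
      · by_cases h2 : z.1 = k₂
        · rw [h2, Equiv.swap_apply_right]
          exact ⟨fun _ => hk₂S, fun _ => hk₁⟩
        · rw [Equiv.swap_apply_of_ne_of_ne h1 h2]
    set θs : Equiv.Perm {x : Σ k, Fin (N k) // x.1 ∈ S} := s.subtypePerm hsS with hθs
    have hθsa : ∀ z, (θs z).1 = s z.1 := fun z => rfl
    have hsign : (Equiv.Perm.sign θs : ℤˣ) = (-1) ^ N k₁ := by
      rw [hθs, Equiv.Perm.sign_subtypePerm]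
      · have h1 : Equiv.Perm.sign (Equiv.prodCongrRight fun _ : Fin (N k₁) =>
            Equiv.swap false true) = (-1) ^ N k₁ := by
          rw [Equiv.Perm.sign_prodCongrRight]
          simp [Equiv.Perm.sign_swap]
        rw [← h1]
        symm
        refine Equiv.Perm.sign_bij (fun x _ => if x.2 = false then ⟨k₁, x.1⟩ else ⟨k₂, b x.1⟩)
          ?_ ?_ ?_
        · rintro ⟨i, c⟩ h2 h3
          cases c
          · simp only [Equiv.prodCongrRight_apply, Equiv.swap_apply_left, if_true,
              Bool.true_eq_false, if_false]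
            rw [hsa, hF1 _ rfl, hb]
          · simp only [Equiv.prodCongrRight_apply, Equiv.swap_apply_right, if_true,
              Bool.true_eq_false, if_false]
            rw [hsa, hF2 _ rfl, ← hb, Equiv.symm_apply_apply]
        · rintro ⟨i, c⟩ ⟨i', c'⟩ h2 h3 h4
          cases c <;> cases c'
          · simp only [if_true] at h4
            have h5 : i = i' := by simpa using h4
            rw [h5]
          · simp only [if_true, Bool.true_eq_false, if_false] at h4
            exact absurd (congrArg Sigma.fst h4) hk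
          · simp only [if_true, Bool.true_eq_false, if_false] at h4
            exact absurd (congrArg Sigma.fst h4) hk.symm
          · simp only [Bool.true_eq_false, if_false] at h4
            have h5 : b i = b i' := by simpa using h4
            rw [b.injective h5]
        · rintro ⟨k, i⟩ h2
          have h3 : k = k₁ ∨ k = k₂ := by
            by_contra hcon
            push Not at hcon
            exact h2 (hF3 ⟨k, i⟩ hcon.1 hcon.2)
          rcases h3 with h3 | h3
          · subst h3
            exact ⟨(i, false), by simp, by simp⟩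
          · subst h3
            exact ⟨(b.symm i, true), by simp, by simp⟩
      · intro z hz
        by_contra hcon
        apply hz
        refine hF3 z ?_ ?_
        · intro h
          exact hcon (h ▸ hk₁)
        · intro h
          exact hcon (h ▸ hk₂S)
    have hcard : (θs * θ).support.card < n := by
      rw [← hn]
      refine Finset.card_lt_card ?_
      rw [Finset.ssubset_iff_of_subset]
      · refine ⟨⟨⟨k₁, i₁⟩, hk₁⟩, Equiv.Perm.mem_support.2 hx, ?_⟩
        rw [Equiv.Perm.mem_support, not_not]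
        apply Subtype.ext
        rw [Equiv.Perm.mul_apply, hθsa, hθ, hsa, hF2 _ (hblk1 _ rfl), Equiv.symm_apply_apply]
      · intro z hz
        rw [Equiv.Perm.mem_support] at hz ⊢
        intro h
        apply hz
        rw [Equiv.Perm.mul_apply, h]
        apply Subtype.ext
        rw [hθsa, hsa]
        have h1 : τ z.1 = z.1 := by rw [← hθ, h]
        refine hF3 _ ?_ ?_
        · intro h2
          have h3 := hblk1 _ h2
          rw [h1, h2] at h3
          exact hk h3
        · intro h2
          have h3 := hτ z.1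
          rw [h1, h2, hk₂] at h3
          exact hk (π.injective h3)
    have h1 := ih _ hcard (s * τ) (Equiv.swap k₁ k₂ * π) (hsB.mul hτ) (fun z => by
      rw [Equiv.Perm.mul_apply, hsα, hατ]) (θs * θ) (fun z => by
        rw [Equiv.Perm.mul_apply, Equiv.Perm.mul_apply, hθsa, hθ]) rfl (rl s v) (onP_rl hsB hv)
    rw [rl_rl, ← mul_assoc, hss, one_mul] at h1
    rw [h1]
    have h2 : rl s v = Function.update (Function.update v k₁ fun i => v k₂ (b i)) k₂
        fun j => v k₁ (b.symm j) := by
      funext k' l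
      by_cases h3 : k' = k₂
      · subst h3
        rw [Function.update_self]
        refine rl_apply_of v ?_
        rw [hsa, hF2 _ rfl, Equiv.symm_apply_eq, hb, Equiv.apply_symm_apply]
      · rw [Function.update_of_ne h3]
        by_cases h4 : k' = k₁
        · subst h4
          rw [Function.update_self]
          refine rl_apply_of v ?_
          rw [hsa, hF1 _ rfl, hb]
        · rw [Function.update_of_ne h4]
          refine rl_apply_of v ?_
          rw [hsa, hF3 _ h4 h3]
    have h3 := hf.exch_block hk (by have := hN k₁; omega) b (fun i => by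
      have h4 := hατ ⟨k₁, i⟩
      rw [hb] at h4
      exact h4) (hα k₁ hk₁) hv
    rw [h2, h3, Equiv.Perm.sign_mul, hsign]
    push_cast
    have h4 : ((-1 : 𝕜) ^ N k₁) * (-1) ^ N k₁ = 1 := by
      rw [← mul_pow]
      norm_num
    linear_combination ((Equiv.Perm.sign θ : ℤ) : 𝕜) * PR.compP f α v * h4

end Pool.Agent.T2H37.PR
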