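import Pool.Agent.T2H37.PR.Two
import Pool.Agent.T2H37.PR.Four

/-!
# Exchange of two coordinates between two points
-/

set_option autoImplicit false
set_option linter.unusedSectionVars false
set_option linter.unusedSimpArgs false

namespace Pool.Agent.T2H37.PR

open MvPolynomial Finset Pool.Agent.T2H37.FK

variable {𝕜 : Type*} [Field 𝕜]

/-- the vector with the coordinates `a`, `b` and `r` -/
def cc2 {R : Type*} {M : ℕ} (a b : R) (r : Fin M → R) : Fin (M + 2) → R := Fin.cons a (Fin.cons b r)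

lemma cc2_zero {R : Type*} {M : ℕ} (a b : R) (r : Fin M → R) : cc2 a b r 0 = a := rfl

lemma cc2_one {R : Type*} {M : ℕ} (a b : R) (r : Fin M → R) : cc2 a b r 1 = b := rfl

lemma cc2_succ {R : Type*} {M : ℕ} (a b : R) (r : Fin M → R) (i : Fin M) :
    cc2 a b r i.succ.succ = r i := rfl

lemma cc2_eta {R : Type*} {M : ℕ} (x : Fin (M + 2) → R) :
    cc2 (x 0) (x 1) (fun i => x i.succ.succ) = x := by
  funext i
  refine Fin.cases rfl (fun i => ?_) i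
  exact Fin.cases rfl (fun i => rfl) i

lemma sum_cc2 {R : Type*} [CommRing R] {M : ℕ} (a b : R) (r : Fin M → R) (f : R → R) :
    ∑ i, f (cc2 a b r i) = f a + f b + ∑ i, f (r i) := by
  rw [Fin.sum_univ_succ, Fin.sum_univ_succ]
  change f a + (f b + ∑ i, f (r i)) = _
  rw [add_assoc]

lemma cc2_congr {R : Type*} {M : ℕ} {a a' b b' : R} {r r' : Fin M → R} (ha : a = a') (hb : b = b')
    (hr : ∀ i, r i = r' i) (i : Fin (M + 2)) : cc2 a b r i = cc2 a' b' r' i := by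
  rw [ha, hb, funext hr]

lemma map_cc2 {R S : Type*} {M : ℕ} (φ : R → S) (a b : R) (r : Fin M → R) (i : Fin (M + 2)) :
    φ (cc2 a b r i) = cc2 (φ a) (φ b) (fun i => φ (r i)) i := by
  refine Fin.cases rfl (fun i => ?_) i
  exact Fin.cases rfl (fun i => rfl) i

lemma onX_cc2 {M m : ℕ} [NeZero m] {a b s : 𝕜} {r : Fin M → 𝕜} (hs : s ≠ 0) (hab : a ^ m + b ^ m = s)
    (hr : ∑ i, r i ^ m = -s) : OnX m (cc2 a b r) := by
  constructor
  · intro h
    apply hs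
    have h1 : ∀ i, r i = 0 := fun i => congrFun h i.succ.succ
    rw [sum_eq_zero fun i _ => by rw [h1, zero_pow (NeZero.ne m)]] at hr
    exact neg_eq_zero.1 hr.symm
  · rw [sum_cc2 a b r fun x => x ^ m, hab, hr, add_neg_cancel]

section family

variable [IsAlgClosed 𝕜] [CharZero 𝕜] {m M : ℕ} [NeZero m]

/-- the universal form -/
noncomputable def uF (r r' : Fin M → 𝕜) :
    MvPolynomial ((Fin 2 ⊕ Fin 2) ⊕ (Fin (M + 2) × Fin (M + 2))) 𝕜 :=
  ∑ i, ∑ j, cc2 (X (Sum.inl (Sum.inl 0))) (X (Sum.inl (Sum.inl 1))) (fun l => C (r l)) i *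
    cc2 (X (Sum.inl (Sum.inr 0))) (X (Sum.inl (Sum.inr 1))) (fun l => C (r' l)) j * X (Sum.inr (i, j))

lemma aeval_uF (r r' : Fin M → 𝕜) (p q : Fin 2 → 𝕜) (κ : Fin 2 → ZMod m) :
    aeval (Sum.elim (Sum.elim
      (fun i => algebraMap 𝕜 (MvPolynomial (Fin (M + 2) × Fin (M + 2)) 𝕜) (e 𝕜 (κ i)) * C (p i))
      fun i => algebraMap 𝕜 (MvPolynomial (Fin (M + 2) × Fin (M + 2)) 𝕜) (e 𝕜 (-κ i)) * C (q i)) X)
      (uF r r') = seg2 (cc2 (e 𝕜 (κ 0) * p 0) (e 𝕜 (κ 1) * p 1) r)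
        (cc2 (e 𝕜 (-κ 0) * q 0) (e 𝕜 (-κ 1) * q 1) r') := by
  rw [uF, map_sum, seg2]
  refine sum_congr rfl fun i _ => ?_
  rw [map_sum]
  refine sum_congr rfl fun j _ => ?_
  rw [map_mul, map_mul, aeval_X, C_mul, Sum.elim_inr]
  congr 2
  · rw [map_cc2 (fun x => aeval _ x), map_cc2 (fun x => (C x : MvPolynomial _ 𝕜))]
    refine cc2_congr ?_ ?_ (fun l => ?_) i
    · rw [aeval_X, Sum.elim_inl, Sum.elim_inl, algebraMap_eq, C_mul]
    · rw [aeval_X, Sum.elim_inl, Sum.elim_inl, algebraMap_eq, C_mul]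
    · rw [aeval_C, algebraMap_eq]
  · rw [map_cc2 (fun x => aeval _ x), map_cc2 (fun x => (C x : MvPolynomial _ 𝕜))]
    refine cc2_congr ?_ ?_ (fun l => ?_) j
    · rw [aeval_X, Sum.elim_inl, Sum.elim_inr, algebraMap_eq, C_mul]
    · rw [aeval_X, Sum.elim_inl, Sum.elim_inr, algebraMap_eq, C_mul]
    · rw [aeval_C, algebraMap_eq]

/-- the orbit of a pair of points under the antidiagonal action -/
noncomputable def orb2 (m : ℕ) [NeZero m] (r r' : Fin M → 𝕜) (p q : Fin 2 → 𝕜) :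
    Multiset ((Fin (M + 2) → 𝕜) × (Fin (M + 2) → 𝕜)) :=
  univ.val.map fun κ : Fin 2 → ZMod m => (cc2 (e 𝕜 (κ 0) * p 0) (e 𝕜 (κ 1) * p 1) r,
    cc2 (e 𝕜 (-κ 0) * q 0) (e 𝕜 (-κ 1) * q 1) r')

/-- The Chow form of the orbits of `(p, q)` and `(q, p)` is a polynomial in the products
`p i * q i`. -/
lemma exists_chow (m : ℕ) [NeZero m] (r r' : Fin M → 𝕜) {s : 𝕜} (hs : s ≠ 0) :
    ∃ W : MvPolynomial (Bool ⊕ (Fin 2 ⊕ (Fin (M + 2) × Fin (M + 2)))) 𝕜,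
      ∀ p q : Fin 2 → 𝕜, p 0 ^ m + p 1 ^ m = s → q 0 ^ m + q 1 ^ m = s →
        ((orb2 m r r' p q + orb2 m r r' q p).map fun v => seg2 v.1 v.2).prod =
          aeval (Sum.elim (bsel
            (C (s⁻¹ * (s ^ 2 + (p 0 * q 0) ^ m - (p 1 * q 1) ^ m))) (C ((p 0 * q 0) ^ m)))
            (Sum.elim (fun i => C (p i * q i)) X)) W := by
  obtain ⟨Q, hQ⟩ := exists_nrma m (uF r r')
  set Q' : MvPolynomial (Bool ⊕ (Fin 2 ⊕ (Fin (M + 2) × Fin (M + 2)))) 𝕜 :=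
    aeval (Sum.elim (Sum.elim ![X (Sum.inl false), C s - X (Sum.inl false)]
      ![X (Sum.inl true), C s - X (Sum.inl true)])
      (Sum.elim (fun i => X (Sum.inr (Sum.inl i))) fun x => X (Sum.inr (Sum.inr x)))) Q with hQ'
  obtain ⟨W, hW⟩ := exists_symm Q'
  refine ⟨W, fun p q hp hq => ?_⟩
  have key : ∀ p q : Fin 2 → 𝕜, p 0 ^ m + p 1 ^ m = s → q 0 ^ m + q 1 ^ m = s →
      ((orb2 m r r' p q).map fun v => seg2 v.1 v.2).prod =
        aeval (Sum.elim (bsel (C (p 0 ^ m)) (C (q 0 ^ m)))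
          (Sum.elim (fun i => C (p i * q i)) X)) Q' := by
    intro p q hp hq
    rw [orb2, Multiset.map_map]
    change ∏ κ : Fin 2 → ZMod m, seg2 (cc2 (e 𝕜 (κ 0) * p 0) (e 𝕜 (κ 1) * p 1) r)
        (cc2 (e 𝕜 (-κ 0) * q 0) (e 𝕜 (-κ 1) * q 1) r') = _
    have h1 := hQ (MvPolynomial (Fin (M + 2) × Fin (M + 2)) 𝕜) (fun i => C (p i)) (fun i => C (q i)) X
    rw [prod_congr rfl fun κ _ => (aeval_uF r r' p q κ).symm, h1, hQ', comp_aeval_apply]
    congr 2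
    funext x
    have hp1 : p 1 ^ m = s - p 0 ^ m := by rw [← hp]; ring
    have hq1 : q 1 ^ m = s - q 0 ^ m := by rw [← hq]; ring
    rcases x with (i | i) | (i | x)
    · fin_cases i
      · change C (p 0) ^ m = aeval _ (X (Sum.inl false))
        rw [aeval_X, ← C_pow]
        rfl
      · change C (p 1) ^ m = aeval _ (C s - X (Sum.inl false))
        rw [map_sub, aeval_C, aeval_X, ← C_pow, hp1, C_sub]
        rfl
    · fin_cases i
      · change C (q 0) ^ m = aeval _ (X (Sum.inl true))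
        rw [aeval_X, ← C_pow]
        rfl
      · change C (q 1) ^ m = aeval _ (C s - X (Sum.inl true))
        rw [map_sub, aeval_C, aeval_X, ← C_pow, hq1, C_sub]
        rfl
    · change C (p i) * C (q i) = aeval _ (X (Sum.inr (Sum.inl i)))
      rw [aeval_X, ← C_mul]
      rfl
    · change X x = aeval _ (X (Sum.inr (Sum.inr x)))
      rw [aeval_X]
      rfl
  rw [Multiset.map_add, Multiset.prod_add, key p q hp hq, key q p hq hp]
  have h2 : (fun i => (C (q i * p i) : MvPolynomial (Fin (M + 2) × Fin (M + 2)) 𝕜)) =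
      fun i => C (p i * q i) := by
    funext i
    rw [mul_comm]
  rw [h2, hW, ← C_add, ← C_mul, ← mul_pow]
  have h3 : s⁻¹ * (s ^ 2 + (p 0 * q 0) ^ m - (p 1 * q 1) ^ m) = p 0 ^ m + q 0 ^ m := by
    have hp1 : p 1 ^ m = s - p 0 ^ m := by rw [← hp]; ring
    have hq1 : q 1 ^ m = s - q 0 ^ m := by rw [← hq]; ring
    rw [mul_pow, mul_pow, hp1, hq1]
    field_simp
    ring
  rw [h3]

lemma onX_orb2 {r r' : Fin M → 𝕜} {s : 𝕜} (hs : s ≠ 0) (hr : ∑ i, r i ^ m = -s)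
    (hr' : ∑ i, r' i ^ m = -s) {p q : Fin 2 → 𝕜} (hp : p 0 ^ m + p 1 ^ m = s)
    (hq : q 0 ^ m + q 1 ^ m = s) : ∀ v ∈ orb2 m r r' p q, OnX m v.1 ∧ OnX m v.2 := by
  intro v hv
  rw [orb2, Multiset.mem_map] at hv
  obtain ⟨κ, _, rfl⟩ := hv
  constructor
  · refine onX_cc2 hs ?_ hr
    rw [mul_pow, mul_pow, e_pow_m, e_pow_m, one_mul, one_mul, hp]
  · refine onX_cc2 hs ?_ hr'
    rw [mul_pow, mul_pow, e_pow_m, e_pow_m, one_mul, one_mul, hq]

/-- every pair of products occurs -/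
lemma exists_pq {s : 𝕜} (hs : s ≠ 0) (P : Fin 2 → 𝕜) : ∃ p q : Fin 2 → 𝕜,
    p 0 ^ m + p 1 ^ m = s ∧ q 0 ^ m + q 1 ^ m = s ∧ ∀ i, p i * q i = P i := by
  obtain ⟨z, w, hzw, hzw'⟩ := exists_sum_mul (s⁻¹ * (s ^ 2 + P 0 ^ m - P 1 ^ m)) (P 0 ^ m)
  have key : ∀ z w P : 𝕜, z * w = P ^ m → ∃ a b : 𝕜, a ^ m = z ∧ b ^ m = w ∧ a * b = P := by
    intro z w P h
    by_cases hz : z = 0
    · obtain ⟨b, hb⟩ := IsAlgClosed.exists_pow_nat_eq w (NeZero.pos m)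
      refine ⟨0, b, ?_, hb, ?_⟩
      · rw [zero_pow (NeZero.ne m), hz]
      · rw [hz, zero_mul] at h
        rw [zero_mul]
        exact (pow_eq_zero_iff (NeZero.ne m)).1 h.symm |>.symm
    · obtain ⟨a, ha⟩ := IsAlgClosed.exists_pow_nat_eq z (NeZero.pos m)
      have ha0 : a ≠ 0 := by
        rintro rfl
        rw [zero_pow (NeZero.ne m)] at ha
        exact hz ha.symm
      refine ⟨a, P / a, ha, ?_, ?_⟩
      · rw [div_pow, ← h, ha]
        field_simp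
      · field_simp
  obtain ⟨a, b, ha, hb, hab⟩ := key z w (P 0) hzw'
  have h1 : (s - z) * (s - w) = P 1 ^ m := by
    have h2 : s * (z + w) = s ^ 2 + P 0 ^ m - P 1 ^ m := by
      rw [hzw, ← mul_assoc, mul_inv_cancel₀ hs, one_mul]
    linear_combination hzw' - h2
  obtain ⟨c, d, hc, hd, hcd⟩ := key (s - z) (s - w) (P 1) h1
  refine ⟨![a, c], ![b, d], ?_, ?_, ?_⟩
  · simp [ha, hc]
  · simp [hb, hd]
  · intro i
    fin_cases i
    · simpa using hab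
    · simpa using hcd

/-- the characters of a function of two factors -/
def Eig2 {N₁ N₂ : ℕ} (β₁ : Fin N₁ → ZMod m) (β₂ : Fin N₂ → ZMod m)
    (F : (Fin N₁ → 𝕜) → (Fin N₂ → 𝕜) → 𝕜) : Prop :=
  ∀ g h x y, F (dg g x) (dg h y) = e 𝕜 (pr β₁ g + pr β₂ h) * F x y

lemma dg_cc2 (a b : ZMod m) (x y : 𝕜) (r : Fin M → 𝕜) :
    dg (cc2 a b fun _ => 0) (cc2 x y r) = cc2 (e 𝕜 a * x) (e 𝕜 b * y) r := by
  funext i
  rw [dg]
  refine Fin.cases rfl (fun i => ?_) i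
  refine Fin.cases rfl (fun i => ?_) i
  rw [cc2_succ, cc2_succ, cc2_succ, e_zero, one_mul]

lemma pr_cc2 (β : Fin (M + 2) → ZMod m) (a b : ZMod m) :
    pr β (cc2 a b fun _ => 0) = β 0 * a + β 1 * b := by
  rw [pr, Fin.sum_univ_succ, Fin.sum_univ_succ]
  have h1 : ∑ i : Fin M, β i.succ.succ * (cc2 a b fun _ => 0) i.succ.succ = 0 :=
    sum_eq_zero fun i _ => by rw [cc2_succ, mul_zero]
  rw [h1, add_zero]
  rfl

/-- the sum over the orbits is constant -/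
lemma Good2.orb_const {F : (Fin (M + 2) → 𝕜) → (Fin (M + 2) → 𝕜) → 𝕜} (hF : Good2 m F)
    {r r' : Fin M → 𝕜} {s : 𝕜} (hs : s ≠ 0) (hr : ∑ i, r i ^ m = -s)
    (hr' : ∑ i, r' i ^ m = -s) {p q p' q' : Fin 2 → 𝕜} (hp : p 0 ^ m + p 1 ^ m = s)
    (hq : q 0 ^ m + q 1 ^ m = s) (hp' : p' 0 ^ m + p' 1 ^ m = s)
    (hq' : q' 0 ^ m + q' 1 ^ m = s) :
    ((orb2 m r r' p q + orb2 m r r' q p).map fun v => F v.1 v.2).sum =
      ((orb2 m r r' p' q' + orb2 m r r' q' p').map fun v => F v.1 v.2).sum := by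
  obtain ⟨W, hW⟩ := exists_chow m r r' hs
  set P : Fin 2 → 𝕜 → 𝕜 := fun i t => p i * q i + t * (p' i * q' i - p i * q i) with hP
  set G : 𝕜 → MvPolynomial (Fin (M + 2) × Fin (M + 2)) 𝕜 := fun t =>
    aeval (fun x => Sum.elim (bsel
      (C (s⁻¹ * (s ^ 2 + P 0 t ^ m - P 1 t ^ m))) (C (P 0 t ^ m)))
      (Sum.elim (fun i => C (P i t)) X) x) W with hG
  have hPP : ∀ i, PF fun t => (C (P i t) : MvPolynomial (Fin (M + 2) × Fin (M + 2)) 𝕜) := by
    intro i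
    have h1 : (fun t => (C (P i t) : MvPolynomial (Fin (M + 2) × Fin (M + 2)) 𝕜)) =
        fun t => C (p i * q i) + C t * C (p' i * q' i - p i * q i) := by
      funext t
      rw [hP, ← C_mul, ← C_add]
    rw [h1]
    exact (PF.const _).add (PF.id.mul (PF.const _))
  have hPF : PF G := by
    refine PF.aeval W (G := fun x t => Sum.elim (bsel
      (C (s⁻¹ * (s ^ 2 + P 0 t ^ m - P 1 t ^ m))) (C (P 0 t ^ m)))
      (Sum.elim (fun i => C (P i t)) X) x) fun x => ?_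
    rcases x with (_ | _) | (i | x)
    · have h1 : PF fun t => (C s⁻¹ : MvPolynomial (Fin (M + 2) × Fin (M + 2)) 𝕜) *
          (C (s ^ 2) + C (P 0 t) ^ m - C (P 1 t) ^ m) :=
        (PF.const (C s⁻¹)).mul (((PF.const (C (s ^ 2))).add ((hPP 0).pow m)).sub ((hPP 1).pow m))
      have h2 : (fun t => (C s⁻¹ : MvPolynomial (Fin (M + 2) × Fin (M + 2)) 𝕜) *
          (C (s ^ 2) + C (P 0 t) ^ m - C (P 1 t) ^ m)) =
          fun t => C (s⁻¹ * (s ^ 2 + P 0 t ^ m - P 1 t ^ m)) := by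
        have h3 : ∀ a b : 𝕜, (C s⁻¹ : MvPolynomial (Fin (M + 2) × Fin (M + 2)) 𝕜) *
            (C (s ^ 2) + C a ^ m - C b ^ m) = C (s⁻¹ * (s ^ 2 + a ^ m - b ^ m)) := by
          intro a b
          rw [C_mul, C_sub, C_add, C_pow a, C_pow b]
        funext t
        exact h3 _ _
      rw [h2] at h1
      exact h1
    · have h1 : PF fun t => (C (P 0 t) : MvPolynomial (Fin (M + 2) × Fin (M + 2)) 𝕜) ^ m :=
        (hPP 0).pow m
      have h2 : (fun t => (C (P 0 t) : MvPolynomial (Fin (M + 2) × Fin (M + 2)) 𝕜) ^ m) =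
          fun t => C (P 0 t ^ m) := by
        funext t
        rw [C_pow]
      rw [h2] at h1
      exact h1
    · exact hPP i
    · exact PF.const (X x)
  have hrep : ∀ (t : 𝕜) (a b : Fin 2 → 𝕜), a 0 ^ m + a 1 ^ m = s → b 0 ^ m + b 1 ^ m = s →
      (∀ i, a i * b i = P i t) → Rep2 m (2 * Fintype.card (Fin 2 → ZMod m)) (G t)
        (orb2 m r r' a b + orb2 m r r' b a) := by
    intro t a b ha hb hab
    refine ⟨?_, ?_, 1, one_ne_zero, ?_⟩
    · rw [Multiset.card_add, orb2, orb2, Multiset.card_map, Multiset.card_map, card_val, card_univ,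
        two_mul]
    · intro v hv
      rw [Multiset.mem_add] at hv
      rcases hv with hv | hv
      · exact onX_orb2 hs hr hr' ha hb v hv
      · exact onX_orb2 hs hr hr' hb ha v hv
    · rw [C_1, one_mul, hW a b ha hb]
      simp only [hab]
      rfl
  have hex : ∀ t, ∃ s, Rep2 m (2 * Fintype.card (Fin 2 → ZMod m)) (G t) s := by
    intro t
    obtain ⟨a, b, ha, hb, hab⟩ := exists_pq (m := m) hs fun i => P i t
    exact ⟨_, hrep t a b ha hb hab⟩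
  exact hF.fam _ G hPF hex _ _ (hrep 0 p q hp hq fun i => by simp [hP])
    (hrep 1 p' q' hp' hq' fun i => by simp [hP])

/-- exchange of two coordinates between two points -/
theorem Good2.ps {F : (Fin (M + 2) → 𝕜) → (Fin (M + 2) → 𝕜) → 𝕜} (hF : Good2 m F)
    {β : Fin (M + 2) → ZMod m} (hE : Eig2 β β F) (hβ : β 0 ≠ 0) {r r' : Fin M → 𝕜} {s : 𝕜}
    (hs : s ≠ 0) (hr : ∑ i, r i ^ m = -s) (hr' : ∑ i, r' i ^ m = -s) {p q : Fin 2 → 𝕜}
    (hp : p 0 ^ m + p 1 ^ m = s) (hq : q 0 ^ m + q 1 ^ m = s) :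
    F (cc2 (q 0) (q 1) r) (cc2 (p 0) (p 1) r') = -F (cc2 (p 0) (p 1) r) (cc2 (q 0) (q 1) r') := by
  have horb : ∀ p q : Fin 2 → 𝕜, ((orb2 m r r' p q).map fun v => F v.1 v.2).sum =
      (Fintype.card (Fin 2 → ZMod m) : 𝕜) * F (cc2 (p 0) (p 1) r) (cc2 (q 0) (q 1) r') := by
    intro p q
    rw [orb2, Multiset.map_map]
    change ∑ κ : Fin 2 → ZMod m, F (cc2 (e 𝕜 (κ 0) * p 0) (e 𝕜 (κ 1) * p 1) r)
        (cc2 (e 𝕜 (-κ 0) * q 0) (e 𝕜 (-κ 1) * q 1) r') = _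
    rw [← nsmul_eq_mul, ← card_univ, ← sum_const]
    refine sum_congr rfl fun κ _ => ?_
    rw [← dg_cc2, ← dg_cc2, hE, pr_cc2, pr_cc2]
    have h1 : β 0 * κ 0 + β 1 * κ 1 + (β 0 * -κ 0 + β 1 * -κ 1) = 0 := by ring
    rw [h1, e_zero, one_mul]
  set p' : Fin 2 → 𝕜 := ![e 𝕜 (1 : ZMod m) * p 0, p 1] with hp'
  have hp'' : p' 0 ^ m + p' 1 ^ m = s := by
    rw [hp']
    simp only [Matrix.cons_val_zero, Matrix.cons_val_one]
    rw [mul_pow, e_pow_m, one_mul, hp]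
  have h1 := hF.orb_const hs hr hr' hp hq hp'' hq
  rw [Multiset.map_add, Multiset.map_add, Multiset.sum_add, Multiset.sum_add, horb, horb, horb, horb,
    ← mul_add, ← mul_add] at h1
  have h2 := mul_left_cancel₀ (card_ne_zeroN (𝕜 := 𝕜) (m := m) 2) h1
  have h3 : ∀ a : Fin M → 𝕜, cc2 (p' 0) (p' 1) a =
      dg (cc2 (1 : ZMod m) 0 fun _ => 0) (cc2 (p 0) (p 1) a) := by
    intro a
    rw [dg_cc2, e_zero, one_mul]
    rfl
  have h4 : ∀ x : Fin (M + 2) → 𝕜, dg (0 : Fin (M + 2) → ZMod m) x = x := by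
    intro x
    funext i
    simp [dg, e_zero]
  have h5 : F (cc2 (p' 0) (p' 1) r) (cc2 (q 0) (q 1) r') =
      e 𝕜 (β 0) * F (cc2 (p 0) (p 1) r) (cc2 (q 0) (q 1) r') := by
    rw [h3, ← h4 (cc2 (q 0) (q 1) r'), hE, h4, pr_cc2]
    simp [pr]
  have h6 : F (cc2 (q 0) (q 1) r) (cc2 (p' 0) (p' 1) r') =
      e 𝕜 (β 0) * F (cc2 (q 0) (q 1) r) (cc2 (p 0) (p 1) r') := by
    rw [h3, ← h4 (cc2 (q 0) (q 1) r), hE, h4, pr_cc2]
    simp [pr]
  rw [h5, h6, ← mul_add] at h2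
  have h7 : (e 𝕜 (β 0) - 1) * (F (cc2 (p 0) (p 1) r) (cc2 (q 0) (q 1) r') +
      F (cc2 (q 0) (q 1) r) (cc2 (p 0) (p 1) r')) = 0 := by
    rw [sub_mul, one_mul, ← h2, sub_self]
  have h8 := (mul_eq_zero.1 h7).resolve_left (sub_ne_zero.2 fun h9 => hβ (by
    rw [← e_zero (𝕜 := 𝕜) (m := m)] at h9
    exact e_inj h9))
  exact eq_neg_of_add_eq_zero_right h8

end family

end Pool.Agent.T2H37.PR
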