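import Pool.Agent.T2H37.PR.Norm2

/-!
# Functions of two factors
-/

set_option autoImplicit false
set_option linter.unusedSectionVars false
set_option linter.unusedSimpArgs false

namespace Pool.Agent.T2H37.PR

open MvPolynomial Finset Pool.Agent.T2H37.FK

variable {𝕜 : Type*} [Field 𝕜]

section two

variable {N₁ N₂ M₁ M₂ m : ℕ}

/-- the form with coefficients `x i * y j` -/
noncomputable def seg2 (x : Fin N₁ → 𝕜) (y : Fin N₂ → 𝕜) : MvPolynomial (Fin N₁ × Fin N₂) 𝕜 :=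
  ∑ i, ∑ j, C (x i * y j) * X (i, j)

/-- `F` is the Chow form of the cycle `s` -/
def Rep2 (m d : ℕ) (F : MvPolynomial (Fin N₁ × Fin N₂) 𝕜)
    (s : Multiset ((Fin N₁ → 𝕜) × (Fin N₂ → 𝕜))) : Prop :=
  s.card = d ∧ (∀ v ∈ s, OnX m v.1 ∧ OnX m v.2) ∧
    ∃ c : 𝕜, c ≠ 0 ∧ F = C c * (s.map fun v => seg2 v.1 v.2).prod

/-- the functions of two factors that come from additive functions on cycles modulo rational
equivalence -/
structure Good2 (m : ℕ) (F : (Fin N₁ → 𝕜) → (Fin N₂ → 𝕜) → 𝕜) : Prop where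
  smul₁ : ∀ (c : 𝕜) (x : Fin N₁ → 𝕜) (y : Fin N₂ → 𝕜), c ≠ 0 → OnX m x → OnX m y →
    F (c • x) y = F x y
  smul₂ : ∀ (c : 𝕜) (x : Fin N₁ → 𝕜) (y : Fin N₂ → 𝕜), c ≠ 0 → OnX m x → OnX m y →
    F x (c • y) = F x y
  fam : ∀ (d : ℕ) (G : 𝕜 → MvPolynomial (Fin N₁ × Fin N₂) 𝕜), PF G → (∀ t, ∃ s, Rep2 m d (G t) s) →
    ∀ s s' : Multiset ((Fin N₁ → 𝕜) × (Fin N₂ → 𝕜)), Rep2 m d (G 0) s → Rep2 m d (G 1) s' →
      (s.map fun v => F v.1 v.2).sum = (s'.map fun v => F v.1 v.2).sum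

/-! ### Linear maps -/

lemma vec_eq_sum (x : Fin N₁ → 𝕜) : x = ∑ i, x i • Pi.single i (1 : 𝕜) := by
  funext j
  rw [Finset.sum_apply, sum_eq_single j]
  · simp
  · intro i _ hij
    simp [Pi.single_eq_of_ne (Ne.symm hij)]
  · intro h
    exact absurd (mem_univ _) h

lemma seg2_lin (Φ : (Fin M₁ → 𝕜) →ₗ[𝕜] (Fin N₁ → 𝕜)) (Ψ : (Fin M₂ → 𝕜) →ₗ[𝕜] (Fin N₂ → 𝕜))
    (x : Fin M₁ → 𝕜) (y : Fin M₂ → 𝕜) :
    seg2 (Φ x) (Ψ y) = ∑ i, ∑ j, C (x i * y j) * seg2 (Φ (Pi.single i 1)) (Ψ (Pi.single j 1)) := by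
  have h1 : ∀ k, Φ x k = ∑ i, x i * Φ (Pi.single i 1) k := by
    intro k
    conv_lhs => rw [vec_eq_sum x]
    rw [map_sum, Finset.sum_apply]
    simp only [map_smul, Pi.smul_apply, smul_eq_mul]
  have h2 : ∀ k, Ψ y k = ∑ i, y i * Ψ (Pi.single i 1) k := by
    intro k
    conv_lhs => rw [vec_eq_sum y]
    rw [map_sum, Finset.sum_apply]
    simp only [map_smul, Pi.smul_apply, smul_eq_mul]
  have h3 : ∀ (k : Fin N₁) (l : Fin N₂), C (Φ x k * Ψ y l) * (X (k, l) : MvPolynomial _ 𝕜) =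
      ∑ i : Fin M₁, ∑ j : Fin M₂, C (x i * y j) *
        (C (Φ (Pi.single i 1) k * Ψ (Pi.single j 1) l) * X (k, l)) := by
    intro k l
    rw [h1, h2, sum_mul_sum, map_sum, sum_mul]
    refine sum_congr rfl fun i _ => ?_
    rw [map_sum, sum_mul]
    refine sum_congr rfl fun j _ => ?_
    simp only [C_mul]
    ring
  have h4 : seg2 (Φ x) (Ψ y) = ∑ k, ∑ l, ∑ i : Fin M₁, ∑ j : Fin M₂, C (x i * y j) *
        (C (Φ (Pi.single i 1) k * Ψ (Pi.single j 1) l) * (X (k, l) : MvPolynomial _ 𝕜)) := by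
    rw [seg2]
    exact sum_congr rfl fun k _ => sum_congr rfl fun l _ => h3 k l
  rw [h4]
  simp only [seg2, mul_sum]
  calc ∑ k, ∑ l, ∑ i : Fin M₁, ∑ j : Fin M₂, C (x i * y j) *
        (C (Φ (Pi.single i 1) k * Ψ (Pi.single j 1) l) * (X (k, l) : MvPolynomial _ 𝕜)) =
      ∑ k, ∑ i : Fin M₁, ∑ l, ∑ j : Fin M₂, C (x i * y j) *
        (C (Φ (Pi.single i 1) k * Ψ (Pi.single j 1) l) * (X (k, l) : MvPolynomial _ 𝕜)) :=
        sum_congr rfl fun k _ => sum_comm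
    _ = ∑ i : Fin M₁, ∑ k, ∑ l, ∑ j : Fin M₂, C (x i * y j) *
        (C (Φ (Pi.single i 1) k * Ψ (Pi.single j 1) l) * (X (k, l) : MvPolynomial _ 𝕜)) := sum_comm
    _ = ∑ i : Fin M₁, ∑ k, ∑ j : Fin M₂, ∑ l, C (x i * y j) *
        (C (Φ (Pi.single i 1) k * Ψ (Pi.single j 1) l) * (X (k, l) : MvPolynomial _ 𝕜)) :=
        sum_congr rfl fun i _ => sum_congr rfl fun k _ => sum_comm
    _ = _ := sum_congr rfl fun i _ => sum_comm

/-- the homomorphism that belongs to a pair of linear maps -/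
noncomputable def linHom (Φ : (Fin M₁ → 𝕜) →ₗ[𝕜] (Fin N₁ → 𝕜))
    (Ψ : (Fin M₂ → 𝕜) →ₗ[𝕜] (Fin N₂ → 𝕜)) :
    MvPolynomial (Fin M₁ × Fin M₂) 𝕜 →ₐ[𝕜] MvPolynomial (Fin N₁ × Fin N₂) 𝕜 :=
  aeval fun i => seg2 (Φ (Pi.single i.1 1)) (Ψ (Pi.single i.2 1))

lemma linHom_seg2 (Φ : (Fin M₁ → 𝕜) →ₗ[𝕜] (Fin N₁ → 𝕜)) (Ψ : (Fin M₂ → 𝕜) →ₗ[𝕜] (Fin N₂ → 𝕜))
    (x : Fin M₁ → 𝕜) (y : Fin M₂ → 𝕜) : linHom Φ Ψ (seg2 x y) = seg2 (Φ x) (Ψ y) := by
  rw [seg2_lin, seg2, map_sum]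
  refine sum_congr rfl fun i _ => ?_
  rw [map_sum]
  refine sum_congr rfl fun j _ => ?_
  rw [map_mul, algHom_C, algebraMap_eq, linHom, aeval_X]

/-- composition with linear maps -/
lemma Good2.pull {F : (Fin N₁ → 𝕜) → (Fin N₂ → 𝕜) → 𝕜} (hF : Good2 m F)
    (Φ : (Fin M₁ → 𝕜) →ₗ[𝕜] (Fin N₁ → 𝕜)) (Ψ : (Fin M₂ → 𝕜) →ₗ[𝕜] (Fin N₂ → 𝕜))
    (hΦ : ∀ x, OnX m x → OnX m (Φ x)) (hΨ : ∀ x, OnX m x → OnX m (Ψ x)) :
    Good2 m fun x y => F (Φ x) (Ψ y) := by
  constructor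
  · intro c x y hc hx hy
    rw [map_smul, hF.smul₁ c _ _ hc (hΦ x hx) (hΨ y hy)]
  · intro c x y hc hx hy
    rw [map_smul, hF.smul₂ c _ _ hc (hΦ x hx) (hΨ y hy)]
  · intro d G hG hdec s s' hs hs'
    have hrep : ∀ (t : 𝕜) (s : Multiset ((Fin M₁ → 𝕜) × (Fin M₂ → 𝕜))), Rep2 m d (G t) s →
        Rep2 m d (linHom Φ Ψ (G t)) (s.map fun v => (Φ v.1, Ψ v.2)) := by
      intro t s hs
      obtain ⟨h1, h2, c, hc, h3⟩ := hs
      refine ⟨by rw [Multiset.card_map, h1], ?_, c, hc, ?_⟩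
      · intro w hw
        rw [Multiset.mem_map] at hw
        obtain ⟨w', hw', rfl⟩ := hw
        exact ⟨hΦ _ (h2 w' hw').1, hΨ _ (h2 w' hw').2⟩
      · rw [h3, map_mul, algHom_C, algebraMap_eq, map_multiset_prod, Multiset.map_map,
          Multiset.map_map]
        congr 3
        funext w
        exact linHom_seg2 Φ Ψ w.1 w.2
    have h1 := hF.fam d (fun t => linHom Φ Ψ (G t)) (hG.map (linHom Φ Ψ))
      (fun t => by
        obtain ⟨s, hs⟩ := hdec t
        exact ⟨_, hrep t s hs⟩) _ _ (hrep 0 s hs) (hrep 1 s' hs')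
    rw [Multiset.map_map, Multiset.map_map] at h1
    exact h1

/-! ### Slices -/

/-- the linear forms of the points in a slice -/
noncomputable def slcHom1 (y : Fin N₂ → 𝕜) :
    MvPolynomial (Fin N₁) 𝕜 →ₐ[𝕜] MvPolynomial (Fin N₁ × Fin N₂) 𝕜 :=
  aeval fun i => ∑ j, C (y j) * X (i, j)

lemma slcHom1_lin (x : Fin N₁ → 𝕜) (y : Fin N₂ → 𝕜) : slcHom1 y (lin x) = seg2 x y := by
  rw [lin, map_sum, seg2]
  refine sum_congr rfl fun i _ => ?_
  rw [map_mul, slcHom1, aeval_X, algHom_C, algebraMap_eq, mul_sum]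
  refine sum_congr rfl fun j _ => ?_
  rw [← mul_assoc, ← C_mul]

lemma Good2.left [CharZero 𝕜] {F : (Fin N₁ → 𝕜) → (Fin N₂ → 𝕜) → 𝕜} (hF : Good2 m F)
    {y : Fin N₂ → 𝕜} (hy : OnX m y) : Good m fun x => F x y := by
  constructor
  · intro c w hc hw
    exact hF.smul₁ c w y hc hw hy
  · intro d G hG hdec s s' hs hs'
    have hrep : ∀ (t : 𝕜) (s : Multiset (Fin N₁ → 𝕜)), Rep m d (G t) s →
        Rep2 m d (slcHom1 y (G t)) (s.map fun w => (w, y)) := by
      intro t s hs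
      obtain ⟨h1, h2, c, hc, h3⟩ := hs
      refine ⟨by rw [Multiset.card_map, h1], ?_, c, hc, ?_⟩
      · intro w hw
        rw [Multiset.mem_map] at hw
        obtain ⟨w', hw', rfl⟩ := hw
        exact ⟨h2 w' hw', hy⟩
      · rw [h3, map_mul, algHom_C, algebraMap_eq, map_multiset_prod, Multiset.map_map,
          Multiset.map_map]
        congr 3
        funext w
        exact slcHom1_lin w y
    have hG' : PF G := by
      obtain ⟨P, hP⟩ := hG
      exact ⟨P, fun t => (hP t).symm⟩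
    have h1 := hF.fam d (fun t => slcHom1 y (G t)) (hG'.map (slcHom1 y))
      (fun t => by
        obtain ⟨s, hs⟩ := hdec t
        exact ⟨_, hrep t s hs⟩) _ _ (hrep 0 s hs) (hrep 1 s' hs')
    rw [Multiset.map_map, Multiset.map_map] at h1
    exact h1

/-- the homomorphism that exchanges the factors -/
noncomputable def swHom : MvPolynomial (Fin N₁ × Fin N₂) 𝕜 →ₐ[𝕜] MvPolynomial (Fin N₂ × Fin N₁) 𝕜 :=
  aeval fun i => X i.swap

lemma swHom_seg2 (x : Fin N₁ → 𝕜) (y : Fin N₂ → 𝕜) : swHom (seg2 x y) = seg2 y x := by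
  rw [seg2, map_sum, seg2, sum_comm]
  refine sum_congr rfl fun i _ => ?_
  rw [map_sum]
  refine sum_congr rfl fun j _ => ?_
  rw [map_mul, algHom_C, algebraMap_eq, swHom, aeval_X, mul_comm (x i)]
  rfl

lemma Good2.symm {F : (Fin N₁ → 𝕜) → (Fin N₂ → 𝕜) → 𝕜} (hF : Good2 m F) :
    Good2 m fun y x => F x y := by
  constructor
  · intro c x y hc hx hy
    exact hF.smul₂ c y x hc hy hx
  · intro c x y hc hx hy
    exact hF.smul₁ c y x hc hy hx
  · intro d G hG hdec s s' hs hs'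
    have hrep : ∀ (t : 𝕜) (s : Multiset ((Fin N₂ → 𝕜) × (Fin N₁ → 𝕜))), Rep2 m d (G t) s →
        Rep2 m d (swHom (G t)) (s.map fun v => (v.2, v.1)) := by
      intro t s hs
      obtain ⟨h1, h2, c, hc, h3⟩ := hs
      refine ⟨by rw [Multiset.card_map, h1], ?_, c, hc, ?_⟩
      · intro w hw
        rw [Multiset.mem_map] at hw
        obtain ⟨w', hw', rfl⟩ := hw
        exact ⟨(h2 w' hw').2, (h2 w' hw').1⟩
      · rw [h3, map_mul, algHom_C, algebraMap_eq, map_multiset_prod, Multiset.map_map,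
          Multiset.map_map]
        congr 3
        funext w
        exact swHom_seg2 w.1 w.2
    have h1 := hF.fam d (fun t => swHom (G t)) (hG.map swHom)
      (fun t => by
        obtain ⟨s, hs⟩ := hdec t
        exact ⟨_, hrep t s hs⟩) _ _ (hrep 0 s hs) (hrep 1 s' hs')
    rw [Multiset.map_map, Multiset.map_map] at h1
    exact h1

end two

/-! ### Slices of functions on products -/

section slices

variable {K : ℕ} {N : Fin K → ℕ} {m : ℕ}

/-- the linear forms of the points in a slice -/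
noncomputable def slcHom2 (v : ∀ k, Fin (N k) → 𝕜) (k₁ k₂ : Fin K) :
    MvPolynomial (Fin (N k₁) × Fin (N k₂)) 𝕜 →ₐ[𝕜] MvPolynomial (∀ k, Fin (N k)) 𝕜 :=
  aeval fun i => ∑ l with (l k₁, l k₂) = i,
    C (∏ k' ∈ (univ.erase k₁).erase k₂, v k' (l k')) * X l

lemma slcHom2_seg2 (v : ∀ k, Fin (N k) → 𝕜) {k₁ k₂ : Fin K} (hk : k₁ ≠ k₂) (x : Fin (N k₁) → 𝕜)
    (y : Fin (N k₂) → 𝕜) :
    slcHom2 v k₁ k₂ (seg2 x y) = segre (Function.update (Function.update v k₁ x) k₂ y) := by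
  have h0 : seg2 x y = ∑ i : Fin (N k₁) × Fin (N k₂), C (x i.1 * y i.2) * X i := by
    rw [seg2, ← univ_product_univ, sum_product]
  rw [h0, map_sum, segre, ← sum_fiberwise univ fun l : ∀ k, Fin (N k) => (l k₁, l k₂)]
  refine sum_congr rfl fun i _ => ?_
  rw [map_mul, slcHom2, aeval_X, algHom_C, algebraMap_eq, mul_sum]
  refine sum_congr rfl fun l hl => ?_
  have hl' := (mem_filter.1 hl).2
  have hl1 : l k₁ = i.1 := by rw [← hl']
  have hl2 : l k₂ = i.2 := by rw [← hl']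
  rw [← mul_assoc, ← C_mul, ← mul_prod_erase univ _ (mem_univ k₁),
    ← mul_prod_erase (univ.erase k₁) _ (mem_erase.2 ⟨hk.symm, mem_univ k₂⟩), Function.update_self,
    Function.update_of_ne hk, Function.update_self, hl1, hl2, ← mul_assoc]
  congr 3
  refine prod_congr rfl fun k' hk' => ?_
  rw [Function.update_of_ne (mem_erase.1 hk').1,
    Function.update_of_ne (mem_erase.1 (mem_erase.1 hk').2).1]

/-- the slices of a good function are good -/
lemma GoodP.slice2 {f : (∀ k, Fin (N k) → 𝕜) → 𝕜} (hf : GoodP m f)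
    {v : ∀ k, Fin (N k) → 𝕜} (hv : OnP m v) {k₁ k₂ : Fin K} (hk : k₁ ≠ k₂) :
    Good2 m fun x y => f (Function.update (Function.update v k₁ x) k₂ y) := by
  constructor
  · intro c x y hc hx hy
    have h1 := hf.smul k₁ c (Function.update (Function.update v k₁ x) k₂ y) hc
      ((hv.update hx).update hy)
    rw [Function.update_of_ne hk, Function.update_self, Function.update_comm hk,
      Function.update_idem, Function.update_comm hk.symm] at h1
    rw [h1]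
    congr 1
    rw [Function.update_comm hk]
  · intro c x y hc hx hy
    have h1 := hf.smul k₂ c (Function.update (Function.update v k₁ x) k₂ y) hc
      ((hv.update hx).update hy)
    rw [Function.update_self, Function.update_idem] at h1
    exact h1
  · intro d G hG hdec s s' hs hs'
    have hrep : ∀ (t : 𝕜) (s : Multiset ((Fin (N k₁) → 𝕜) × (Fin (N k₂) → 𝕜))),
        Rep2 m d (G t) s → RepP m d (slcHom2 v k₁ k₂ (G t))
          (s.map fun w => Function.update (Function.update v k₁ w.1) k₂ w.2) := by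
      intro t s hs
      obtain ⟨h1, h2, c, hc, h3⟩ := hs
      refine ⟨by rw [Multiset.card_map, h1], ?_, c, hc, ?_⟩
      · intro w hw
        rw [Multiset.mem_map] at hw
        obtain ⟨w', hw', rfl⟩ := hw
        exact (hv.update (h2 w' hw').1).update (h2 w' hw').2
      · rw [h3, map_mul, algHom_C, algebraMap_eq, map_multiset_prod, Multiset.map_map,
          Multiset.map_map]
        congr 3
        funext w
        exact slcHom2_seg2 v hk w.1 w.2
    have h1 := hf.fam d (fun t => slcHom2 v k₁ k₂ (G t)) (hG.map (slcHom2 v k₁ k₂))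
      (fun t => by
        obtain ⟨s, hs⟩ := hdec t
        exact ⟨_, hrep t s hs⟩) _ _ (hrep 0 s hs) (hrep 1 s' hs')
    rw [Multiset.map_map, Multiset.map_map] at h1
    exact h1

end slices

end Pool.Agent.T2H37.PR
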