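import Pool.Agent.T2H37.PR.WFinal

/-!
# Products of zero-cycles of degree zero on quotients of Fermat hypersurfaces
-/

set_option autoImplicit false
set_option linter.unusedSectionVars false
set_option linter.unusedSimpArgs false

namespace Pool.Agent.T2H37.PR

open MvPolynomial Finset Pool.Agent.T2H37.FK

section group

variable {𝕜 : Type*} [Field 𝕜] {N m : ℕ}

lemma act_one (x : Fermat 𝕜 N m) : FK.act (1 : FermatGroup 𝕜 N m) x = x := by
  apply Subtype.ext
  change Projectivization.mk 𝕜 ((1 : Matrix (Fin N) (Fin N) 𝕜).mulVec x.1.rep) _ = x.1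
  simp only [Matrix.one_mulVec]
  exact x.1.mk_rep

lemma act_act (g h : FermatGroup 𝕜 N m) (x : Fermat 𝕜 N m) :
    FK.act g (FK.act h x) = FK.act (g * h) x := by
  apply Subtype.ext
  obtain ⟨a, ha⟩ := Projectivization.exists_smul_eq_mk_rep 𝕜 (h.1.1.mulVec x.1.rep)
    (mulVec_ne_zero h.1 x.1.rep_nonzero)
  refine (Projectivization.mk_eq_mk_iff' 𝕜 _ _ _ _).2 ⟨(a : 𝕜), ?_⟩
  have h1 : (FK.act h x).1.rep = (a : 𝕜) • h.1.1.mulVec x.1.rep := ha.symm
  rw [h1, Matrix.mulVec_smul, Matrix.mulVec_mulVec]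
  rfl

lemma act_injective (g : FermatGroup 𝕜 N m) :
    Function.Injective (FK.act g : Fermat 𝕜 N m → Fermat 𝕜 N m) := by
  intro x y h
  have h1 := congrArg (FK.act g⁻¹) h
  rwa [act_act, act_act, inv_mul_cancel, act_one, act_one] at h1

lemma act_surjective (g : FermatGroup 𝕜 N m) :
    Function.Surjective (FK.act g : Fermat 𝕜 N m → Fermat 𝕜 N m) := by
  intro x
  refine ⟨FK.act g⁻¹ x, ?_⟩
  rw [act_act, mul_inv_cancel, act_one]

variable [IsAlgClosed 𝕜] [CharZero 𝕜]

lemma finite_group (hm : 3 ≤ m) : Finite (FermatGroup 𝕜 N m) := by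
  have : NeZero m := ⟨by omega⟩
  choose κ σ hκσ using fun g : FermatGroup 𝕜 N m => monomial_form hm g
  refine Finite.of_injective (fun g => (κ g, σ g)) fun g h hgh => ?_
  apply Subtype.ext
  apply Units.ext
  ext i j
  have h1 : κ g = κ h := congrArg Prod.fst hgh
  have h2 : σ g = σ h := congrArg Prod.snd hgh
  rw [hκσ, hκσ, h1, h2]

end group

section sign

variable {𝕜 : Type*} [Field 𝕜] [IsAlgClosed 𝕜] [CharZero 𝕜]

variable {K n m : ℕ} [NeZero m]

lemma sign_rho (g : PAut 𝕜 (fun _ : Fin K => n) m) (σ : Fin K → Equiv.Perm (Fin n)) :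
    Equiv.Perm.sign (rho g σ) = Equiv.Perm.sign g.perm ^ n * ∏ k, Equiv.Perm.sign (σ k) := by
  have h1 : Equiv.Perm.sign (rho g σ) = Equiv.Perm.sign
      ((Equiv.prodCongrLeft fun _ : Fin n => g.perm : Equiv.Perm (Fin K × Fin n)) *
        Equiv.prodCongrRight σ) := by
    refine Equiv.Perm.sign_eq_sign_of_equiv _ _ (Equiv.sigmaEquivProd (Fin K) (Fin n)) fun x => ?_
    rw [Equiv.Perm.mul_apply, rho_apply]
    rfl
  rw [h1, Equiv.Perm.sign_mul, Equiv.Perm.sign_prodCongrLeft, Equiv.Perm.sign_prodCongrRight,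
    prod_const, card_univ, Fintype.card_fin]

/-- the determinant for all factors -/
lemma minor_univ (hm : 3 ≤ m) {S' : Finset (Fin K)}
    (r : {x : Σ _ : Fin K, Fin n // x.1 ∈ (univ : Finset (Fin K))} ≃
      {x : Σ _ : Fin K, Fin n // x.1 ∈ S'}) :
    ∃ s : 𝕜, ∀ g : PAut 𝕜 (fun _ : Fin K => n) m,
      g.minor r = s * (((Equiv.Perm.sign g.perm : ℤ) : 𝕜) ^ n * ∏ k, (g.mat k).1.1.det) := by
  classical
  have hinj : Function.Injective fun x : Σ _ : Fin K, Fin n => (r ⟨x, mem_univ _⟩).1 := by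
    intro x y h
    have h1 := r.injective (Subtype.ext h)
    exact congrArg Subtype.val h1
  set ρ₀ : Equiv.Perm (Σ _ : Fin K, Fin n) :=
    Equiv.ofBijective _ (Finite.injective_iff_bijective.1 hinj) with hρ₀
  refine ⟨((Equiv.Perm.sign ρ₀ : ℤ) : 𝕜), fun g => ?_⟩
  choose κ σ hκσ using fun k : Fin K => monomial_form hm (g.mat k)
  rw [minor_eq g hκσ ρ₀ r fun y => rfl,
    sgnOn_of (S := univ) fun x => ⟨fun _ => mem_univ _, fun _ => mem_univ _⟩,
    Equiv.Perm.sign_subtypePerm _ _ fun x _ => mem_univ _, Equiv.Perm.sign_mul,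
    Equiv.Perm.sign_inv, sign_rho, prod_IS univ fun x : Σ _ : Fin K, Fin n => e 𝕜 (κ x.1 x.2)]
  have h1 : ∀ k, (g.mat k).1.1.det = ((Equiv.Perm.sign (σ k) : ℤ) : 𝕜) * ∏ l, e 𝕜 (κ k l) :=
    fun k => det_of_mono (hκσ k)
  simp only [h1, prod_mul_distrib]
  push_cast
  ring

end sign

section cycles

variable {𝕜 : Type*} [Field 𝕜] {K n m : ℕ}

lemma extProd_apply {N : Fin K → ℕ} (z : ∀ k, Fermat 𝕜 (N k) m →₀ ℤ) (y : Pts 𝕜 N m) :
    extProd z y = ∏ k, z k (y k) := by
  classical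
  rw [extProd, Finsupp.finsetSum_apply]
  by_cases hy : y ∈ prodSupp z
  · rw [sum_eq_single y]
    · rw [Finsupp.single_eq_same]
    · intro x _ hx
      exact Finsupp.single_eq_of_ne hx.symm
    · intro h
      exact absurd hy h
  · rw [sum_eq_zero]
    · have h1 : ∃ k, z k (y k) = 0 := by
        by_contra hcon
        push Not at hcon
        exact hy (Fintype.mem_piFinset.2 fun k => Finsupp.mem_support_iff.2 (hcon k))
      obtain ⟨k, hk⟩ := h1
      exact (prod_eq_zero (mem_univ k) hk).symm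
    · intro x hx
      refine Finsupp.single_eq_of_ne ?_
      rintro rfl
      exact hy hx

/-- the automorphism given by a permutation and a tuple of matrices -/
def mkAut (σ : Equiv.Perm (Fin K)) (g : Fin K → FermatGroup 𝕜 n m) :
    PAut 𝕜 (fun _ : Fin K => n) m := ⟨σ, fun _ => rfl, g⟩

lemma mkAut_act (σ : Equiv.Perm (Fin K)) (g : Fin K → FermatGroup 𝕜 n m)
    (x : Pts 𝕜 (fun _ : Fin K => n) m) (k : Fin K) :
    (mkAut σ g).act x k = FK.act (g k) (x (σ k)) := rfl

lemma map_extProd (z : Fin K → (Fermat 𝕜 n m →₀ ℤ)) (σ : Equiv.Perm (Fin K))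
    (g : Fin K → FermatGroup 𝕜 n m)
    (hz : ∀ k, (z (σ k)).mapDomain (FK.act (g k)) = z (σ k)) :
    (extProd (N := fun _ : Fin K => n) z).mapDomain (mkAut σ g).act =
      extProd (N := fun _ : Fin K => n) fun k => z (σ k) := by
  have hinj : Function.Injective (mkAut σ g).act := by
    intro x y h
    funext k
    have h1 := congrFun h (σ.symm k)
    rw [mkAut_act, mkAut_act, Equiv.apply_symm_apply] at h1
    exact act_injective _ h1
  ext y
  obtain ⟨x, rfl⟩ : ∃ x, (mkAut σ g).act x = y := by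
    choose x hx using fun k : Fin K => act_surjective (g (σ.symm k)) (y (σ.symm k))
    refine ⟨x, ?_⟩
    funext k
    change FK.act (g k) (x (σ k)) = y k
    have h1 := hx (σ k)
    rw [Equiv.symm_apply_apply] at h1
    exact h1
  rw [Finsupp.mapDomain_apply hinj, extProd_apply, extProd_apply, ← Equiv.prod_comp σ]
  refine prod_congr rfl fun k _ => ?_
  rw [mkAut_act]
  conv_rhs => rw [← hz k, Finsupp.mapDomain_apply (act_injective _)]

lemma sum_singles {ι X A : Type*} [AddCommMonoid A] (s : Finset ι) (x : ι → X) (c : ι → ℤ)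
    (h : X → ℤ → A) (h0 : ∀ x, h x 0 = 0) (hadd : ∀ x a b, h x (a + b) = h x a + h x b) :
    (∑ p ∈ s, Finsupp.single (x p) (c p)).sum h = ∑ p ∈ s, h (x p) (c p) := by
  classical
  induction s using Finset.induction_on with
  | empty => simp
  | insert a s ha ih =>
    rw [sum_insert ha, sum_insert ha, Finsupp.sum_add_index' h0 hadd, ih,
      Finsupp.sum_single_index (h0 _)]

end cycles

section main

variable {𝕜 : Type*} [Field 𝕜] [IsAlgClosed 𝕜] [CharZero 𝕜] {K n m : ℕ}

lemma eval_comp (g : Matrix (Fin n) (Fin n) 𝕜) (P : MvPolynomial (Fin n) 𝕜) (w : Fin n → 𝕜) :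
    eval w (aeval (fun i => lin fun j => g i j) P) = eval (g.mulVec w) P := by
  have h1 : ∀ Q : MvPolynomial (Fin n) 𝕜, eval w Q = aeval w Q := fun Q =>
    (RingHom.congr_fun (coe_aeval_eq_eval w) Q).symm
  have h2 : ∀ Q : MvPolynomial (Fin n) 𝕜, eval (g.mulVec w) Q = aeval (g.mulVec w) Q := fun Q =>
    (RingHom.congr_fun (coe_aeval_eq_eval _) Q).symm
  rw [h1, h2, comp_aeval_apply]
  congr 2
  funext i
  rw [← h1, eval_lin]
  rfl

theorem mainV (hm : 3 ≤ m) (hmn : m + 3 ≤ 2 * n) (G : Subgroup (FermatGroup 𝕜 n m))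
    (hG : ∀ P : Fin K → MvPolynomial (Fin n) 𝕜, (∀ k, InvForm G (P k)) → ¬ LinearIndependent 𝕜 P)
    (z : Fin K → (Fermat 𝕜 n m →₀ ℤ)) (hz : ∀ k, ((z k).sum fun _ c => c) = 0)
    (hzG : ∀ k, ∀ g ∈ G, (z k).mapDomain (FK.act g) = z k) :
    ∃ j : ℕ, 0 < j ∧ j • (∑ σ : Equiv.Perm (Fin K), ((Equiv.Perm.sign σ : ℤ) ^ (n + 1)) •
      extProd (N := fun _ : Fin K => n) fun k => z (σ k)) ∈
        RatEquivZero 𝕜 (fun _ : Fin K => n) m := by
  classical
  have hm0 : NeZero m := ⟨by omega⟩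
  have hfin : Finite (FermatGroup 𝕜 n m) := finite_group hm
  have : Fintype G := Fintype.ofFinite G
  set a : PAut 𝕜 (fun _ : Fin K => n) m →₀ ℤ :=
    ∑ p ∈ (univ : Finset (Equiv.Perm (Fin K) × (Fin K → G))),
      Finsupp.single (mkAut p.1 fun k => (p.2 k).1) ((Equiv.Perm.sign p.1 : ℤ) ^ (n + 1)) with ha
  have hkill : KillsType a univ := by
    intro S' r d P hP v
    obtain ⟨s, hs⟩ := minor_univ (𝕜 := 𝕜) hm r
    rw [ha, sum_singles _ _ _ _ (fun g => by push_cast; ring) (fun g b c => by push_cast; ring)]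
    -- the averages
    set Q : Fin K → MvPolynomial (Fin n) 𝕜 := fun k =>
      ∑ g : G, C g.1.1.1.det * aeval (fun i => lin fun j => g.1.1.1 i j) (P k) with hQ
    have hQe : ∀ k w, eval w (Q k) = ∑ g : G, g.1.1.1.det * eval (g.1.1.1.mulVec w) (P k) := by
      intro k w
      rw [hQ]
      simp only [map_sum, map_mul, eval_C, eval_comp]
    have hQG : ∀ k, InvForm G (Q k) := by
      intro k
      refine ⟨⟨d k, (hP k (mem_univ k)).1, ?_⟩, fun h hh w => ?_⟩
      · refine IsHomogeneous.sum _ _ _ fun g _ => ?_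
        have h1 := (isHomogeneous_C (Fin n) g.1.1.1.det).mul
          ((hP k (mem_univ k)).2.aeval (fun i => lin fun j => g.1.1.1 i j)
            fun i => lin_homogeneous _)
        rwa [zero_add, one_mul] at h1
      · rw [hQe, hQe, mul_sum]
        refine Fintype.sum_equiv (Equiv.mulRight (⟨h, hh⟩ : G)) _ _ fun g => ?_
        have h1 : (g * ⟨h, hh⟩ : G).1.1.1 = g.1.1.1 * h.1.1 := rfl
        rw [Equiv.coe_mulRight, h1, Matrix.det_mul, Matrix.mulVec_mulVec]
        ring
    -- the determinant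
    have hdet : (Matrix.of fun k l => eval (v l) (Q k) : Matrix (Fin K) (Fin K) 𝕜).det = 0 := by
      obtain ⟨c, hc, k, hk⟩ := Fintype.not_linearIndependent_iff.1 (hG Q hQG)
      refine Matrix.exists_vecMul_eq_zero_iff.1 ⟨c, fun h => hk (congrFun h k), ?_⟩
      funext l
      rw [Matrix.vecMul, dotProduct]
      have h1 := congrArg (eval (v l)) hc
      rw [map_sum, map_zero] at h1
      simp only [smul_eval] at h1
      exact h1
    have hsum : ∑ p : Equiv.Perm (Fin K) × (Fin K → G),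
        ((((Equiv.Perm.sign p.1 : ℤ) ^ (n + 1) : ℤ) : 𝕜) *
          ((mkAut p.1 fun k => (p.2 k).1).minor r *
            ∏ k ∈ univ, eval ((mkAut p.1 fun k => (p.2 k).1).vec v k) (P k))) =
        s * ∑ σ : Equiv.Perm (Fin K), ((Equiv.Perm.sign σ : ℤ) : 𝕜) *
          ∏ k, eval (v (σ k)) (Q k) := by
      rw [Fintype.sum_prod_type, mul_sum]
      refine sum_congr rfl fun σ _ => ?_
      have h1 : ∏ k, eval (v (σ k)) (Q k) = ∑ g : Fin K → G,
          ∏ k, ((g k).1.1.1.det * eval ((g k).1.1.1.mulVec (v (σ k))) (P k)) := by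
        simp only [hQe]
        rw [Finset.prod_univ_sum, Fintype.piFinset_univ]
      rw [h1, mul_sum, mul_sum]
      refine sum_congr rfl fun g _ => ?_
      have h2 : ((Equiv.Perm.sign σ : ℤ) : 𝕜) ^ 2 = 1 := by
        rcases sign_cases (𝕜 := 𝕜) σ with h | h
        · rw [h, one_pow]
        · rw [h]
          norm_num
      have h3 : ((Equiv.Perm.sign σ : ℤ) : 𝕜) ^ (n + 1) * ((Equiv.Perm.sign σ : ℤ) : 𝕜) ^ n =
          ((Equiv.Perm.sign σ : ℤ) : 𝕜) := by
        rw [← pow_add, show n + 1 + n = 2 * n + 1 by ring, pow_succ, pow_mul, h2, one_pow, one_mul]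
      have h4 : ∀ k, (mkAut σ fun k => (g k).1).vec v k = (g k).1.1.1.mulVec (v (σ k)) :=
        fun k => rfl
      have h5 : (mkAut σ fun k => (g k).1).perm = σ := rfl
      have h6 : ∀ k, (mkAut σ fun k => (g k).1).mat k = (g k).1 := fun k => rfl
      rw [hs, h5]
      simp only [h4, h6]
      rw [prod_mul_distrib]
      push_cast
      linear_combination (s * ((∏ k, (g k).1.1.1.det) *
        ∏ k, eval ((g k).1.1.1.mulVec (v (σ k))) (P k))) * h3
    refine hsum.trans ?_
    have h1 : ∑ σ : Equiv.Perm (Fin K), ((Equiv.Perm.sign σ : ℤ) : 𝕜) *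
        ∏ k, eval (v (σ k)) (Q k) =
        (Matrix.of fun k l => eval (v l) (Q k) : Matrix (Fin K) (Fin K) 𝕜).det := by
      rw [← Matrix.det_transpose, Matrix.det_apply']
      rfl
    rw [h1, hdet, mul_zero]
  obtain ⟨j, hj, hjw⟩ := mainT hm (fun _ => hmn) a hkill z hz
  have hsum : (a.sum fun g c => c • (extProd z).mapDomain g.act) =
      Fintype.card (Fin K → G) • ∑ σ : Equiv.Perm (Fin K), ((Equiv.Perm.sign σ : ℤ) ^ (n + 1)) •
        extProd (N := fun _ : Fin K => n) fun k => z (σ k) := by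
    rw [ha, sum_singles _ _ _ _ (fun g => by rw [zero_smul]) (fun g b c => by rw [add_smul]),
      Fintype.sum_prod_type, smul_sum]
    refine sum_congr rfl fun σ _ => ?_
    have h1 : ∀ g : Fin K → G, (extProd (N := fun _ : Fin K => n) z).mapDomain
        (mkAut σ fun k => (g k).1).act = extProd (N := fun _ : Fin K => n) fun k => z (σ k) :=
      fun g => map_extProd z σ _ fun k => hzG _ _ (g k).2
    simp only [h1]
    rw [sum_const, card_univ]
  rw [hsum, ← mul_smul] at hjw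
  exact ⟨j * Fintype.card (Fin K → G), Nat.mul_pos hj Fintype.card_pos, hjw⟩

end main

end Pool.Agent.T2H37.PR
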