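import Pool.Agent.T2H37.PR.Defs

/-!
# Automorphisms of products of Fermat hypersurfaces, and the action on holomorphic forms
-/

set_option autoImplicit false

namespace Pool.Agent.T2H37.PR

open MvPolynomial Pool.Agent.T2H37.FK

/-- An automorphism `(x k) ↦ (A k (x (π k)))` of the product `X` of the Fermat hypersurfaces: it is
given by a permutation `π` of the factors with `N k = N (π k)` for all `k` and by matrices `A k`
that preserve the Fermat forms. -/
structure PAut (𝕜 : Type*) [Field 𝕜] {K : ℕ} (N : Fin K → ℕ) (m : ℕ) where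
  /-- the permutation of the factors -/
  perm : Equiv.Perm (Fin K)
  /-- the permutation respects the dimensions -/
  dim : ∀ k, N k = N (perm k)
  /-- the matrices -/
  mat : ∀ k, FermatGroup 𝕜 (N k) m

variable {𝕜 : Type*} [Field 𝕜] {K : ℕ} {N : Fin K → ℕ} {m : ℕ}

/-- The action of an automorphism on the tuples of vectors. -/
noncomputable def PAut.vec (g : PAut 𝕜 N m) (v : ∀ k, Fin (N k) → 𝕜) : ∀ k, Fin (N k) → 𝕜 :=
  fun k => (g.mat k).1.1.mulVec fun i => v (g.perm k) (Fin.cast (g.dim k) i)

lemma sum_cast {a b : ℕ} (h : a = b) (f : Fin b → 𝕜) : ∑ i : Fin a, f (Fin.cast h i) = ∑ i, f i := by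
  subst h
  rfl

lemma PAut.vec_ne_zero (g : PAut 𝕜 N m) {v : ∀ k, Fin (N k) → 𝕜} {k : Fin K}
    (hv : v (g.perm k) ≠ 0) : g.vec v k ≠ 0 := by
  refine mulVec_ne_zero (g.mat k).1 fun h => hv ?_
  funext i
  have h1 := congrFun h (Fin.cast (g.dim k).symm i)
  exact h1

lemma PAut.vec_sum (g : PAut 𝕜 N m) (v : ∀ k, Fin (N k) → 𝕜) (k : Fin K) :
    ∑ i, g.vec v k i ^ m = ∑ i, v (g.perm k) i ^ m := by
  have h1 := (g.mat k).2 fun i => v (g.perm k) (Fin.cast (g.dim k) i)
  rw [PAut.vec, h1]
  exact sum_cast (g.dim k) fun i => v (g.perm k) i ^ m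

/-- The action of an automorphism on the points of `X`. -/
noncomputable def PAut.act (g : PAut 𝕜 N m) (x : Pts 𝕜 N m) : Pts 𝕜 N m := fun k =>
  ⟨Projectivization.mk 𝕜 (g.vec (fun k => (x k).1.rep) k)
    (g.vec_ne_zero (x (g.perm k)).1.rep_nonzero), by
    rw [rep_mk, g.vec_sum]
    exact (x (g.perm k)).2⟩

/-- For sets `S`, `S'` of factors, an automorphism induces a linear map from the sum of the vector
spaces of the factors in `S'` to the sum of the vector spaces of the factors in `S`, given by the
coefficients of the coordinates with index in `S'` in the coordinates with index in `S` of the image.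
This is its determinant, after identification of the two sets of coordinates by a bijection `r`. -/
noncomputable def PAut.minor (g : PAut 𝕜 N m) {S S' : Finset (Fin K)}
    (r : {x : Σ k, Fin (N k) // x.1 ∈ S} ≃ {x : Σ k, Fin (N k) // x.1 ∈ S'}) : 𝕜 :=
  (Matrix.of fun x y : {x : Σ k, Fin (N k) // x.1 ∈ S} =>
    g.vec (Pi.single (r y).1.1 (Pi.single (r y).1.2 1)) x.1.1 x.1.2).det

/-- The combination `a` of automorphisms of `X` acts as zero on the products of holomorphic forms of
top degree on the factors `k ∈ S`. The holomorphic forms of top degree on the `k`-th factor are the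
residues of `P k * Ω k / F k` given by the forms `P k` of degree `m - N k`, where `Ω k` comes from the
standard volume form of the vector space of the `k`-th factor and `F k = ∑ i, x i ^ m`. So the
products correspond to the products of the `P k` with the volume form of the sum of the vector spaces
of the factors `k ∈ S`. The pullback under an automorphism with `S' = π S` is the product of the
polynomial after substitution with the determinant `minor` and the volume form of the sum of the
vector spaces of the factors in `S'` (a bijection `r` between the two sets of coordinates is only used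
to compare the volume forms, another one may change the sign of all terms; for the automorphisms with
`S' ≠ π S` the determinant is zero). -/
def KillsType {m : ℕ} (a : PAut 𝕜 N m →₀ ℤ) (S : Finset (Fin K)) : Prop :=
  ∀ (S' : Finset (Fin K))
    (r : {x : Σ k, Fin (N k) // x.1 ∈ S} ≃ {x : Σ k, Fin (N k) // x.1 ∈ S'})
    (d : Fin K → ℕ) (P : ∀ k, MvPolynomial (Fin (N k)) 𝕜),
    (∀ k ∈ S, d k + N k = m ∧ (P k).IsHomogeneous (d k)) → ∀ v : ∀ k, Fin (N k) → 𝕜,
      (a.sum fun g c => (c : 𝕜) * (g.minor r * ∏ k ∈ S, eval (g.vec v k) (P k))) = 0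

/-- The points of `X` all of whose components are in the support of the cycles `z k`. -/
noncomputable def prodSupp (z : ∀ k, Fermat 𝕜 (N k) m →₀ ℤ) : Finset (Pts 𝕜 N m) :=
  Fintype.piFinset fun k => (z k).support

/-- The product of zero-cycles `z k` on the factors. -/
noncomputable def extProd (z : ∀ k, Fermat 𝕜 (N k) m →₀ ℤ) : Pts 𝕜 N m →₀ ℤ :=
  ∑ x ∈ prodSupp z, Finsupp.single x (∏ k, z k (x k))

/-- The holomorphic forms of top degree on the Fermat hypersurface that are invariant under the
group `G`: they are the residues of `P * Ω / F` given by the forms `P` of degree `m - N`, where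
`F = ∑ i, x i ^ m`, and an automorphism `g` sends `P` to `det g • P ∘ g`. -/
def InvForm {N m : ℕ} (G : Subgroup (FermatGroup 𝕜 N m)) (P : MvPolynomial (Fin N) 𝕜) : Prop :=
  (∃ d, d + N = m ∧ P.IsHomogeneous d) ∧
    ∀ g ∈ G, ∀ v : Fin N → 𝕜, g.1.1.det * eval (g.1.1.mulVec v) P = eval v P

end Pool.Agent.T2H37.PR
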