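import Pool.Agent.T2H37.PR.Stab
import Pool.Agent.T2H37.PR.WDefs
import Pool.Agent.T2H37.PR.Comb

/-!
# Integral combinations of automorphisms of products, with permutations of the factors
-/

set_option autoImplicit false
set_option linter.unusedSectionVars false
set_option linter.unusedSimpArgs false

namespace Pool.Agent.T2H37.PR

open MvPolynomial Finset Pool.Agent.T2H37.FK

variable {𝕜 : Type*} [Field 𝕜] [IsAlgClosed 𝕜] [CharZero 𝕜]

variable {K : ℕ} {N : Fin K → ℕ} {m : ℕ} [NeZero m] {f : (∀ k, Fin (N k) → 𝕜) → 𝕜}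

/-- the permutation of the coordinates -/
def rho (g : PAut 𝕜 N m) (σ : ∀ k, Equiv.Perm (Fin (N k))) : Equiv.Perm (Σ k, Fin (N k)) :=
  (Equiv.sigmaCongrRight fun k => (σ k).trans (finCongr (g.dim k))).trans
    (Equiv.sigmaCongrLeft (β := fun k => Fin (N k)) g.perm)

lemma rho_apply (g : PAut 𝕜 N m) (σ : ∀ k, Equiv.Perm (Fin (N k))) (x : Σ k, Fin (N k)) :
    rho g σ x = ⟨g.perm x.1, Fin.cast (g.dim x.1) (σ x.1 x.2)⟩ := rfl

lemma blk_rho (g : PAut 𝕜 N m) (σ : ∀ k, Equiv.Perm (Fin (N k))) : Blk (rho g σ) g.perm := by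
  intro x
  rw [rho_apply]

lemma vec_mono (g : PAut 𝕜 N m) {σ : ∀ k, Equiv.Perm (Fin (N k))} {κ : ∀ k, Fin (N k) → ZMod m}
    (h : ∀ k l j, (g.mat k).1.1 l j = if j = σ k l then e 𝕜 (κ k l) else 0)
    (v : ∀ k, Fin (N k) → 𝕜) : g.vec v = dgP κ (rl (rho g σ) v) := by
  funext k
  rw [PAut.vec, mulVec_of_mono (h k)]
  rfl

lemma unit_apply (y z : Σ k, Fin (N k)) :
    (Pi.single y.1 (Pi.single y.2 1) : ∀ k, Fin (N k) → 𝕜) z.1 z.2 = if z = y then 1 else 0 := by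
  obtain ⟨k, i⟩ := y
  obtain ⟨k', i'⟩ := z
  by_cases hk : k' = k
  · subst hk
    simp only [Pi.single_eq_same]
    by_cases hi : i' = i
    · subst hi
      simp
    · rw [Pi.single_eq_of_ne hi, if_neg fun h => hi (by simpa using h)]
  · rw [Pi.single_eq_of_ne hk, if_neg fun h => hk (congrArg Sigma.fst h)]
    rfl

lemma det_mono' {ι : Type*} [Fintype ι] [DecidableEq ι] {M : Matrix ι ι 𝕜} {c : ι → 𝕜}
    {θ : Equiv.Perm ι} (h : ∀ x y, M x y = if y = θ x then c x else 0) :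
    M.det = ((Equiv.Perm.sign θ : ℤ) : 𝕜) * ∏ x, c x := by
  have h1 : M = Matrix.diagonal c * (Equiv.Perm.permMatrix 𝕜 θ) := by
    ext l j
    rw [Matrix.diagonal_mul, h, Equiv.Perm.permMatrix, PEquiv.toMatrix_apply]
    by_cases hj : j = θ l
    · simp [hj]
    · have : ¬ θ l = j := fun h => hj h.symm
      simp [hj, this, eq_comm]
  rw [h1, Matrix.det_mul, Matrix.det_diagonal, Matrix.det_permutation, mul_comm]

open Classical in
/-- the sign of a permutation on the coordinates in `S`, zero if it does not preserve them -/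
noncomputable def sgnOn (S : Finset (Fin K)) (τ : Equiv.Perm (Σ k, Fin (N k))) : ℤ :=
  if h : ∀ x, (τ x).1 ∈ S ↔ x.1 ∈ S then
    ((Equiv.Perm.sign (τ.subtypePerm h : Equiv.Perm {x : Σ k, Fin (N k) // x.1 ∈ S}) : ℤˣ) : ℤ)
  else 0

lemma sgnOn_of {S : Finset (Fin K)} {τ : Equiv.Perm (Σ k, Fin (N k))}
    (h : ∀ x, (τ x).1 ∈ S ↔ x.1 ∈ S) : sgnOn S τ =
    ((Equiv.Perm.sign (τ.subtypePerm h : Equiv.Perm {x : Σ k, Fin (N k) // x.1 ∈ S}) : ℤˣ) : ℤ) :=
  dif_pos h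

lemma minor_eq (g : PAut 𝕜 N m) {σ : ∀ k, Equiv.Perm (Fin (N k))} {κ : ∀ k, Fin (N k) → ZMod m}
    (h : ∀ k l j, (g.mat k).1.1 l j = if j = σ k l then e 𝕜 (κ k l) else 0) {S S' : Finset (Fin K)}
    (ρ₀ : Equiv.Perm (Σ k, Fin (N k)))
    (r : {x : Σ k, Fin (N k) // x.1 ∈ S} ≃ {x : Σ k, Fin (N k) // x.1 ∈ S'})
    (hr : ∀ y, (r y).1 = ρ₀ y.1) :
    g.minor r = (sgnOn S (ρ₀⁻¹ * rho g σ) : 𝕜) *
      ∏ x : {x : Σ k, Fin (N k) // x.1 ∈ S}, e 𝕜 (κ x.1.1 x.1.2) := by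
  have hent : ∀ x y : {x : Σ k, Fin (N k) // x.1 ∈ S},
      g.vec (Pi.single (r y).1.1 (Pi.single (r y).1.2 1)) x.1.1 x.1.2 =
        if y.1 = (ρ₀⁻¹ * rho g σ) x.1 then e 𝕜 (κ x.1.1 x.1.2) else 0 := by
    intro x y
    rw [vec_mono g h]
    change e 𝕜 (κ x.1.1 x.1.2) * (Pi.single (r y).1.1 (Pi.single (r y).1.2 1) :
      ∀ k, Fin (N k) → 𝕜) (rho g σ x.1).1 (rho g σ x.1).2 = _
    rw [unit_apply, hr, mul_ite, mul_one, mul_zero]
    have h1 : (rho g σ x.1 = ρ₀ y.1) ↔ y.1 = (ρ₀⁻¹ * rho g σ) x.1 := by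
      rw [Equiv.Perm.mul_apply]
      constructor
      · intro h2
        rw [h2]
        exact (ρ₀.symm_apply_apply y.1).symm
      · intro h2
        rw [h2]
        exact (ρ₀.apply_symm_apply _).symm
    by_cases h2 : rho g σ x.1 = ρ₀ y.1
    · rw [if_pos h2, if_pos (h1.1 h2)]
    · rw [if_neg h2, if_neg fun h3 => h2 (h1.2 h3)]
  by_cases hS : ∀ x, ((ρ₀⁻¹ * rho g σ) x).1 ∈ S ↔ x.1 ∈ S
  · rw [sgnOn_of hS, PAut.minor]
    refine det_mono' fun x y => ?_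
    rw [Matrix.of_apply, hent]
    by_cases h1 : y.1 = (ρ₀⁻¹ * rho g σ) x.1
    · rw [if_pos h1, if_pos (Subtype.ext h1)]
    · rw [if_neg h1, if_neg fun h2 => h1 (congrArg Subtype.val h2)]
  · rw [sgnOn, dif_neg hS, Int.cast_zero, zero_mul, PAut.minor]
    obtain ⟨x, hx, hx'⟩ : ∃ x : Σ k, Fin (N k), x.1 ∈ S ∧ ((ρ₀⁻¹ * rho g σ) x).1 ∉ S := by
      by_contra hcon
      push Not at hcon
      apply hS
      intro x
      constructor
      · intro hx
        have h1 : Function.Injective fun y : {x : Σ k, Fin (N k) // x.1 ∈ S} =>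
            (⟨(ρ₀⁻¹ * rho g σ) y.1, hcon y.1 y.2⟩ : {x : Σ k, Fin (N k) // x.1 ∈ S}) := by
          intro y z hyz
          exact Subtype.ext ((ρ₀⁻¹ * rho g σ).injective (congrArg Subtype.val hyz))
        obtain ⟨y, hy⟩ := Finite.injective_iff_surjective.1 h1 ⟨_, hx⟩
        have h2 : y.1 = x := (ρ₀⁻¹ * rho g σ).injective (congrArg Subtype.val hy)
        rw [← h2]
        exact y.2
      · exact hcon x
    refine Matrix.det_eq_zero_of_row_eq_zero ⟨x, hx⟩ fun y => ?_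
    rw [Matrix.of_apply, hent, if_neg]
    intro h1
    apply hx'
    rw [← h1]
    exact y.2

lemma prod_IS {M : Type*} [CommMonoid M] (S : Finset (Fin K)) (F : (Σ k, Fin (N k)) → M) :
    ∏ x : {x : Σ k, Fin (N k) // x.1 ∈ S}, F x.1 = ∏ k ∈ S, ∏ l, F ⟨k, l⟩ := by
  rw [← prod_sigma S (fun _ => univ) F]
  exact (Finset.prod_subtype (S.sigma fun _ => univ) (by
    intro x
    simp) F).symm

/-- the action of an integral combination of automorphisms on functions -/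
noncomputable def wQ (a : PAut 𝕜 N m →₀ ℤ) (F : (∀ k, Fin (N k) → 𝕜) → 𝕜)
    (v : ∀ k, Fin (N k) → 𝕜) : 𝕜 :=
  a.sum fun g c => (c : 𝕜) * F (g.vec v)

lemma onP_vec (g : PAut 𝕜 N m) {v : ∀ k, Fin (N k) → 𝕜} (hv : OnP m v) : OnP m (g.vec v) := by
  intro k
  refine ⟨g.vec_ne_zero (hv (g.perm k)).1, ?_⟩
  rw [g.vec_sum]
  exact (hv (g.perm k)).2

/-- the components of weight one are killed -/
theorem GoodP.wQ_minimal (hf : GoodP m f) (hm : 3 ≤ m) (hN : ∀ k, 3 ≤ N k)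
    (a : PAut 𝕜 N m →₀ ℤ) {α : ∀ k, Fin (N k) → ZMod m} {S : Finset (Fin K)}
    (hS : ∀ k, k ∈ S ↔ α k ≠ 0) (ha : KillsType a S) (hα : ∀ k ∈ S, ∀ i, α k i ≠ 0)
    (t : (ZMod m)ˣ) (ht : ∀ k ∈ S, ∑ i, ((t : ZMod m) * α k i).val = m)
    {v : ∀ k, Fin (N k) → 𝕜} (hv : OnP m v) : wQ a (PR.compP f α) v = 0 := by
  classical
  have hα0 : ∀ k, k ∉ S → α k = 0 := by
    intro k hk
    by_contra h
    exact hk ((hS k).2 h)
  have hSx : ∀ x : Σ k, Fin (N k), x.1 ∈ S ↔ α x.1 x.2 ≠ 0 := by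
    intro x
    constructor
    · intro h
      exact hα x.1 h x.2
    · intro h
      rw [hS]
      intro h1
      rw [h1] at h
      exact h rfl
  have hpos : ∀ k ∈ S, ∀ l, 1 ≤ ((t : ZMod m) * α k l).val := by
    intro k hk l
    rw [Nat.one_le_iff_ne_zero, Ne, ZMod.val_eq_zero]
    intro h
    apply hα k hk l
    have := congrArg (fun y => ((t⁻¹ : (ZMod m)ˣ) : ZMod m) * y) h
    simpa using this
  set b : (Σ k, Fin (N k)) → ℕ := fun x => ((t : ZMod m) * α x.1 x.2).val - 1 with hb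
  have hb0 : ∀ x : Σ k, Fin (N k), x.1 ∉ S → b x = 0 := by
    intro x hx
    simp [hb, hα0 x.1 hx]
  have hbα : ∀ x y : Σ k, Fin (N k), x.1 ∈ S → y.1 ∈ S → b x = b y → α x.1 x.2 = α y.1 y.2 := by
    intro x y hx hy h
    have h1 : ((t : ZMod m) * α x.1 x.2).val = ((t : ZMod m) * α y.1 y.2).val := by
      have h2 := hpos x.1 hx x.2
      have h3 := hpos y.1 hy y.2
      simp only [hb] at h
      omega
    have h2 := ZMod.val_injective m h1
    have := congrArg (fun y => ((t⁻¹ : (ZMod m)ˣ) : ZMod m) * y) h2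
    simpa using this
  have hdeg : ∀ k ∈ S, ∑ l, b ⟨k, l⟩ + N k = m := by
    intro k hk
    have h1 : ∑ l : Fin (N k), b ⟨k, l⟩ + ∑ l : Fin (N k), 1 = m := by
      rw [← sum_add_distrib]
      refine Eq.trans ?_ (ht k hk)
      refine sum_congr rfl fun l _ => ?_
      have := hpos k hk l
      simp only [hb]
      omega
    simpa using h1
  choose κ σ hκσ using fun (g : PAut 𝕜 N m) (k : Fin K) => monomial_form hm (g.mat k)
  set ρ : PAut 𝕜 N m → Equiv.Perm (Σ k, Fin (N k)) := fun g => rho g (σ g) with hρ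
  set A : PAut 𝕜 N m → (Σ k, Fin (N k)) → ZMod m := fun g y =>
    α ((ρ g).symm y).1 ((ρ g).symm y).2 with hA
  -- the polynomial identity
  have hM : ∀ k, (∏ l, (X l : MvPolynomial (Fin (N k)) 𝕜) ^ b ⟨k, l⟩).IsHomogeneous
      (∑ l, b ⟨k, l⟩) := by
    intro k
    refine IsHomogeneous.prod _ _ _ fun l _ => ?_
    have h2 := (isHomogeneous_X 𝕜 l).pow (b ⟨k, l⟩)
    rwa [one_mul] at h2
  set E : PAut 𝕜 N m → ((Σ k, Fin (N k)) →₀ ℕ) := fun g =>
    Finsupp.equivFunOnFinite.symm fun y => b ((ρ g).symm y) with hE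
  have hterm : ∀ (g g₀ : PAut 𝕜 N m) (S' : Finset (Fin K))
      (r : {x : Σ k, Fin (N k) // x.1 ∈ S} ≃ {x : Σ k, Fin (N k) // x.1 ∈ S'})
      (_ : ∀ y, (r y).1 = ρ g₀ y.1) (u : (Σ k, Fin (N k)) → 𝕜),
      g.minor r * ∏ k ∈ S, eval (g.vec (fun k l => u ⟨k, l⟩) k)
        (∏ l, (X l : MvPolynomial (Fin (N k)) 𝕜) ^ b ⟨k, l⟩) =
      (sgnOn S ((ρ g₀)⁻¹ * ρ g) : 𝕜) * e 𝕜 ((t : ZMod m) * prP α (κ g)) *
        ∏ y, u y ^ b ((ρ g).symm y) := by
    intro g g₀ S' r hr u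
    rw [minor_eq g (hκσ g) (ρ g₀) r hr, prod_IS S fun x => e 𝕜 (κ g x.1 x.2)]
    have h1 : ∀ k, eval (g.vec (fun k l => u ⟨k, l⟩) k)
        (∏ l, (X l : MvPolynomial (Fin (N k)) 𝕜) ^ b ⟨k, l⟩) =
        (∏ l, e 𝕜 (κ g k l) ^ b ⟨k, l⟩) * ∏ l, u (ρ g ⟨k, l⟩) ^ b ⟨k, l⟩ := by
      intro k
      rw [map_prod, ← prod_mul_distrib]
      refine prod_congr rfl fun l _ => ?_
      rw [map_pow, eval_X, vec_mono g (hκσ g), ← mul_pow]
      rfl
    have h2 : ∏ k ∈ S, eval (g.vec (fun k l => u ⟨k, l⟩) k)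
        (∏ l, (X l : MvPolynomial (Fin (N k)) 𝕜) ^ b ⟨k, l⟩) =
        (∏ k ∈ S, ∏ l, e 𝕜 (κ g k l) ^ b ⟨k, l⟩) * ∏ k ∈ S, ∏ l, u (ρ g ⟨k, l⟩) ^ b ⟨k, l⟩ := by
      rw [← prod_mul_distrib]
      exact prod_congr rfl fun k _ => h1 k
    have h3 : ∏ k ∈ S, ∏ l, u (ρ g ⟨k, l⟩) ^ b ⟨k, l⟩ = ∏ y, u y ^ b ((ρ g).symm y) := by
      rw [← Equiv.prod_comp (ρ g) fun y => u y ^ b ((ρ g).symm y), Fintype.prod_sigma]
      simp only [Equiv.symm_apply_apply]
      refine prod_subset (subset_univ S) fun k _ hk => ?_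
      refine prod_eq_one fun l _ => ?_
      rw [hb0 ⟨k, l⟩ hk, pow_zero]
    have h4 : (∏ k ∈ S, ∏ l, e 𝕜 (κ g k l)) * (∏ k ∈ S, ∏ l, e 𝕜 (κ g k l) ^ b ⟨k, l⟩) =
        e 𝕜 ((t : ZMod m) * prP α (κ g)) := by
      rw [← prod_mul_distrib, prP, mul_sum, ← sum_subset (subset_univ S), e_sum]
      · refine prod_congr rfl fun k hk => ?_
        rw [← prod_mul_distrib, pr, mul_sum, e_sum]
        refine prod_congr rfl fun l _ => ?_
        have h5 : e 𝕜 (κ g k l) * e 𝕜 (κ g k l) ^ b ⟨k, l⟩ =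
            e 𝕜 (κ g k l) ^ (((t : ZMod m) * α k l).val) := by
          rw [← pow_succ']
          congr 1
          have := hpos k hk l
          simp only [hb]
          omega
        rw [h5, e_def, e_def, ← AddChar.map_nsmul_eq_pow, nsmul_eq_mul, ZMod.natCast_zmod_val]
        congr 1
        ring
      · intro k _ hk
        rw [hα0 k hk]
        simp [pr]
    rw [h2, h3, ← h4]
    ring
  have hcoef : ∀ g₀ : PAut 𝕜 N m,
      ∑ g ∈ a.support with A g = A g₀, (a g : 𝕜) * (sgnOn S ((ρ g₀)⁻¹ * ρ g) : 𝕜) *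
          e 𝕜 ((t : ZMod m) * prP α (κ g)) = 0 := by
    intro g₀
    set r : {x : Σ k, Fin (N k) // x.1 ∈ S} ≃
        {x : Σ k, Fin (N k) // x.1 ∈ S.image g₀.perm} :=
      (ρ g₀).subtypeEquiv fun x => by
        rw [(blk_rho g₀ (σ g₀)) x, mem_image]
        constructor
        · intro h
          exact ⟨x.1, h, rfl⟩
        · rintro ⟨k, hk, hk'⟩
          rw [← g₀.perm.injective hk']
          exact hk with hr
    have hpoly : ∑ g ∈ a.support, C ((a g : 𝕜) * ((sgnOn S ((ρ g₀)⁻¹ * ρ g) : 𝕜) *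
        e 𝕜 ((t : ZMod m) * prP α (κ g)))) * monomial (E g) (1 : 𝕜) = 0 := by
      apply MvPolynomial.funext
      intro u
      have h1 := ha (S.image g₀.perm) r (fun k => ∑ l, b ⟨k, l⟩) (fun k => ∏ l, X l ^ b ⟨k, l⟩)
        (fun k hk => ⟨hdeg k hk, hM k⟩) (fun k l => u ⟨k, l⟩)
      rw [Finsupp.sum] at h1
      rw [map_zero, map_sum, ← h1]
      refine sum_congr rfl fun g _ => ?_
      rw [map_mul, eval_C, mul_assoc]
      congr 1
      rw [hterm g g₀ _ r (fun y => rfl) u]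
      congr 1
      rw [eval_monomial, one_mul, Finsupp.prod_fintype _ _ (by intro i; rw [pow_zero])]
      rfl
    have h1 := congrArg (coeff (E g₀)) hpoly
    rw [coeff_zero, coeff_sum] at h1
    rw [← h1, sum_filter]
    refine sum_congr rfl fun g _ => ?_
    rw [coeff_C_mul, coeff_monomial]
    by_cases hst : A g = A g₀
    · rw [if_pos hst, if_pos, mul_one, mul_assoc]
      rw [hE]
      simp only
      congr 1
      funext y
      have h2 := congrFun hst y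
      simp only [hA] at h2
      simp only [hb, h2]
    · rw [if_neg hst]
      by_cases hEE : E g = E g₀
      · rw [if_pos hEE, mul_one]
        have h2 : sgnOn S ((ρ g₀)⁻¹ * ρ g) = 0 := by
          rw [sgnOn, dif_neg]
          intro h3
          apply hst
          funext y
          have h4 : ((ρ g₀)⁻¹ * ρ g) ((ρ g).symm y) = (ρ g₀).symm y := by
            rw [Equiv.Perm.mul_apply, Equiv.apply_symm_apply]
            rfl
          have h5 := h3 ((ρ g).symm y)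
          rw [h4] at h5
          have h6 : b ((ρ g).symm y) = b ((ρ g₀).symm y) :=
            congrFun (Finsupp.equivFunOnFinite.symm.injective hEE) y
          by_cases h7 : ((ρ g).symm y).1 ∈ S
          · exact hbα _ _ h7 (h5.2 h7) h6
          · have h8 : ((ρ g₀).symm y).1 ∉ S := fun h => h7 (h5.1 h)
            simp only [hA]
            rw [hα0 _ h7, hα0 _ h8]
            rfl
        rw [h2]
        simp
      · rw [if_neg hEE, mul_zero]
  have hcoef2 : ∀ g₀ : PAut 𝕜 N m,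
      ∑ g ∈ a.support with A g = A g₀, (a g : 𝕜) * (sgnOn S ((ρ g₀)⁻¹ * ρ g) : 𝕜) *
          e 𝕜 (prP α (κ g)) = 0 := by
    intro g₀
    have h1 := galois (𝕜 := 𝕜) (a.support.filter fun g => A g = A g₀)
      (fun g => a g * sgnOn S ((ρ g₀)⁻¹ * ρ g)) (fun g => prP α (κ g)) t (by
        rw [← hcoef g₀]
        refine sum_congr rfl fun g _ => ?_
        push_cast
        rfl)
    rw [← h1]
    refine sum_congr rfl fun g _ => ?_
    push_cast
    rfl
  -- the sum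
  rw [wQ, Finsupp.sum]
  rw [← sum_fiberwise_of_maps_to (s := a.support) (t := a.support.image A) (g := A)
    (fun g hg => mem_image_of_mem _ hg)]
  refine sum_eq_zero fun β hβ => ?_
  rw [mem_image] at hβ
  obtain ⟨g₀, _, rfl⟩ := hβ
  have h1 : ∀ g ∈ a.support.filter (fun g => A g = A g₀),
      (a g : 𝕜) * PR.compP f α (g.vec v) =
        ((a g : 𝕜) * (sgnOn S ((ρ g₀)⁻¹ * ρ g) : 𝕜) * e 𝕜 (prP α (κ g))) *
          PR.compP f α (rl (ρ g₀) v) := by
    intro g hg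
    rw [mem_filter] at hg
    have hst := hg.2
    rw [vec_mono g (hκσ g), compP_dg]
    set τ : Equiv.Perm (Σ k, Fin (N k)) := (ρ g₀)⁻¹ * ρ g with hτ
    have hατ : ∀ x, α (τ x).1 (τ x).2 = α x.1 x.2 := by
      intro x
      have h2 : α ((ρ g).symm (ρ g x)).1 ((ρ g).symm (ρ g x)).2 =
          α ((ρ g₀).symm (ρ g x)).1 ((ρ g₀).symm (ρ g x)).2 := congrFun hst (ρ g x)
      have h3 : (ρ g).symm (ρ g x) = x := (ρ g).symm_apply_apply x
      rw [h3] at h2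
      rw [h2]
      rfl
    have hτS : ∀ x, (τ x).1 ∈ S ↔ x.1 ∈ S := by
      intro x
      rw [hSx, hSx, hατ]
    have hτB : Blk τ (g₀.perm⁻¹ * g.perm) := (blk_rho g₀ (σ g₀)).inv.mul (blk_rho g (σ g))
    have h3 : ρ g = ρ g₀ * τ := by
      rw [hτ, ← mul_assoc, mul_inv_cancel, one_mul]
    have h4 : rl (rho g (σ g)) v = rl τ (rl (ρ g₀) v) := by
      rw [rl_rl, ← h3]
    rw [h4, hf.stab hN hS hα _ τ _ hτB hατ (τ.subtypePerm hτS) (fun x => rfl) rfl
      (rl (ρ g₀) v) (onP_rl (blk_rho g₀ (σ g₀)) hv), sgnOn_of hτS]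
    ring
  rw [sum_congr rfl h1, ← sum_mul, hcoef2 g₀, zero_mul]

end Pool.Agent.T2H37.PR
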